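import Pool.Agent.Helper79.MI.Defs

/-!
# Support functions of compact sets
-/

namespace Pool.Agent.Helper79.MI

open Pool.Agent.Helper16.Disk7 Pool.Agent.Helper57.CW MeasureTheory Metric Complex Set
open scoped ENNReal Pointwise

lemma ip_comm' (z w : ℂ) : ip z w = ip w z := by
  simp only [ip_eq]; ring

lemma ip_add_right' (z w w' : ℂ) : ip z (w + w') = ip z w + ip z w' := by
  simp only [ip_eq, Complex.add_re, Complex.add_im]; ring

lemma ip_real_smul_right (r : ℝ) (z w : ℂ) : ip z ((r : ℂ) * w) = r * ip z w := by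
  simp only [ip_eq, Complex.mul_re, Complex.mul_im, Complex.ofReal_re, Complex.ofReal_im]; ring

lemma ip_sub_right' (z w w' : ℂ) : ip z (w - w') = ip z w - ip z w' := by
  simp only [ip_eq, Complex.sub_re, Complex.sub_im]; ring

lemma ip_le_norm_mul' (z w : ℂ) : ip z w ≤ ‖z‖ * ‖w‖ := by
  have h := Complex.re_le_norm (z * (starRingEnd ℂ) w)
  rw [norm_mul, Complex.norm_conj] at h
  exact h

lemma norm_e_sub_e_le' (s t : ℝ) : ‖e s - e t‖ ≤ |s - t| := by
  have h1 : ‖e s - e t‖ ^ 2 = 2 - 2 * Real.cos (s - t) := sq_norm_e_sub_e s t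
  have h2 := Real.one_sub_sq_div_two_le_cos (x := s - t)
  have h3 : ‖e s - e t‖ ^ 2 ≤ |s - t| ^ 2 := by
    rw [h1, sq_abs]; linarith
  exact (pow_le_pow_iff_left₀ (norm_nonneg _) (abs_nonneg _) two_ne_zero).1 h3

/-- Upper bounds for the support function. -/
theorem supp_le {K : Set ℂ} (hc : IsCompact K) (hne : K.Nonempty) {θ s : ℝ}
    (h : ∀ z ∈ K, ip z (e θ) ≤ s) : supportFn K θ ≤ s := by
  obtain ⟨z, hz, h1⟩ := exists_attain hc hne θ
  rw [← h1]
  exact h z hz

theorem supp_mono {K L : Set ℂ} (hK : IsCompact K) (hne : K.Nonempty) (hL : IsCompact L)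
    (h : K ⊆ L) (θ : ℝ) : supportFn K θ ≤ supportFn L θ :=
  supp_le hK hne fun _ hz => ip_le_supp hL (h hz) θ

theorem supp_ge_of_ball {K : Set ℂ} (hc : IsCompact K) {c : ℂ} {a : ℝ} (ha : 0 ≤ a)
    (h : closedBall c a ⊆ K) (θ : ℝ) : ip c (e θ) + a ≤ supportFn K θ := by
  have h1 : c + (a : ℂ) * e θ ∈ K := by
    apply h
    rw [mem_closedBall, dist_eq_norm, add_sub_cancel_left, norm_mul, norm_e, mul_one,
      Complex.norm_real, Real.norm_eq_abs, abs_of_nonneg ha]
  have h2 := ip_le_supp hc h1 θ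
  rw [ip_add_left, ip_smul, ip_e_e, sub_self, Real.cos_zero, mul_one] at h2
  exact h2

theorem supp_le_of_ball {K : Set ℂ} (hc : IsCompact K) (hne : K.Nonempty) {c : ℂ} {b : ℝ}
    (h : K ⊆ closedBall c b) (θ : ℝ) : supportFn K θ ≤ ip c (e θ) + b := by
  refine supp_le hc hne fun z hz => ?_
  have h1 := h hz
  rw [mem_closedBall, dist_eq_norm] at h1
  have h2 := ip_le_norm (z - c) (e θ) (norm_e θ)
  rw [ip_sub_left] at h2
  linarith

/-- Support functions are Lipschitz. -/
theorem supp_lip {K : Set ℂ} {M : ℝ} (hc : IsCompact K) (hne : K.Nonempty)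
    (hM : K ⊆ closedBall 0 M) (θ θ' : ℝ) :
    |supportFn K θ - supportFn K θ'| ≤ M * |θ - θ'| := by
  have key : ∀ a b : ℝ, supportFn K a - supportFn K b ≤ M * |a - b| := by
    intro a b
    obtain ⟨z, hz, h1⟩ := exists_attain hc hne a
    have h2 := ip_le_supp hc hz b
    have h3 : ip z (e a) - ip z (e b) ≤ ‖z‖ * ‖e a - e b‖ := by
      rw [← ip_sub_right']
      exact ip_le_norm_mul' _ _
    have h4 := norm_e_sub_e_le' a b
    have h5 : ‖z‖ ≤ M := by simpa using hM hz
    have h6 : ‖z‖ * ‖e a - e b‖ ≤ M * |a - b| :=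
      mul_le_mul h5 h4 (norm_nonneg _) ((norm_nonneg _).trans h5)
    linarith
  rw [abs_le]
  constructor
  · have := key θ' θ
    rw [abs_sub_comm] at this
    linarith
  · exact key θ θ'

theorem supp_continuous {K : Set ℂ} (hc : IsCompact K) (hne : K.Nonempty) :
    Continuous (supportFn K) := by
  obtain ⟨M, hM⟩ := hc.isBounded.subset_closedBall (0 : ℂ)
  have hM0 : 0 ≤ M := by
    obtain ⟨z, hz⟩ := hne
    have := hM hz
    rw [mem_closedBall, dist_zero_right] at this
    exact (norm_nonneg _).trans this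
  have h : LipschitzWith (Real.toNNReal M) (supportFn K) := by
    refine LipschitzWith.of_dist_le_mul fun a b => ?_
    rw [Real.dist_eq, Real.dist_eq, Real.coe_toNNReal _ hM0]
    exact supp_lip hc hne hM a b
  exact h.continuous

/-- Support functions are sublinear. -/
theorem supp_sublin {K : Set ℂ} (hc : IsCompact K) (hne : K.Nonempty) {θ1 θ2 θ3 : ℝ}
    (h12 : θ1 ≤ θ2) (h23 : θ2 ≤ θ3) (h13 : θ3 - θ1 ≤ Real.pi) :
    supportFn K θ2 * Real.sin (θ3 - θ1) ≤
      supportFn K θ1 * Real.sin (θ3 - θ2) + supportFn K θ3 * Real.sin (θ2 - θ1) := by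
  obtain ⟨z, hz, h1⟩ := exists_attain hc hne θ2
  rw [← h1]
  have h2 := ip_le_supp hc hz θ1
  have h3 := ip_le_supp hc hz θ3
  have s1 : 0 ≤ Real.sin (θ3 - θ2) :=
    Real.sin_nonneg_of_nonneg_of_le_pi (by linarith) (by linarith)
  have s2 : 0 ≤ Real.sin (θ2 - θ1) :=
    Real.sin_nonneg_of_nonneg_of_le_pi (by linarith) (by linarith)
  have h4 : ip z (e θ2) * Real.sin (θ3 - θ1)
      = ip z (e θ1) * Real.sin (θ3 - θ2) + ip z (e θ3) * Real.sin (θ2 - θ1) := by
    simp only [ip_e, Real.sin_sub]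
    ring
  rw [h4]
  exact add_le_add (mul_le_mul_of_nonneg_right h2 s1) (mul_le_mul_of_nonneg_right h3 s2)

/-- If `0` is interior, the support function is bounded below by a positive number. -/
theorem supp_pos {K : Set ℂ} (hc : IsCompact K) (h0 : 0 ∈ interior K) :
    ∃ r : ℝ, 0 < r ∧ closedBall 0 r ⊆ K ∧ ∀ θ, r ≤ supportFn K θ := by
  obtain ⟨r, hr, h1⟩ := Metric.isOpen_iff.1 isOpen_interior 0 h0
  have h2 : closedBall (0 : ℂ) (r / 2) ⊆ K :=
    ((closedBall_subset_ball (by linarith)).trans h1).trans interior_subset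
  refine ⟨r / 2, by linarith, h2, fun θ => ?_⟩
  have h3 := supp_ge_of_ball hc (by linarith : (0 : ℝ) ≤ r / 2) h2 θ
  simpa [ip_eq] using h3

/-- A compact convex set is the intersection of its supporting half planes. -/
theorem supp_mem_iff {K : Set ℂ} (hc : IsCompact K) (hconv : Convex ℝ K) (hne : K.Nonempty)
    {z : ℂ} : z ∈ K ↔ ∀ θ, ip z (e θ) ≤ supportFn K θ := by
  refine ⟨fun hz θ => ip_le_supp hc hz θ, fun h => ?_⟩
  by_contra hz
  obtain ⟨f, u, hf1, hf2⟩ := geometric_hahn_banach_closed_point hconv hc.isClosed hz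
  -- represent `f` by a vector
  set w : ℂ := ⟨f 1, f I⟩ with hw
  have hf : ∀ y : ℂ, f y = ip y w := by
    intro y
    have h1 : y = y.re • (1 : ℂ) + y.im • I := by
      apply Complex.ext <;> simp
    conv_lhs => rw [h1]
    rw [map_add, map_smul, map_smul, ip_eq]
    simp [hw]
  have hw0 : w ≠ 0 := by
    intro h0
    obtain ⟨x, hx⟩ := hne
    have h1 := hf1 x hx
    rw [hf, h0] at h1
    rw [hf, h0] at hf2
    simp [ip_eq] at h1 hf2
    linarith
  have hn : 0 < ‖w‖ := norm_pos_iff.2 hw0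
  obtain ⟨θ, hθ⟩ := exists_e (w / ‖w‖) (by
    rw [norm_div, Complex.norm_real, norm_norm, div_self hn.ne'])
  have hwe : w = (‖w‖ : ℂ) * e θ := by
    rw [← hθ, mul_div_cancel₀]
    exact_mod_cast hn.ne'
  have hfe : ∀ y : ℂ, f y = ‖w‖ * ip y (e θ) := by
    intro y
    rw [hf]
    conv_lhs => rw [hwe]
    rw [ip_real_smul_right]
  obtain ⟨x, hx, h1⟩ := exists_attain hc hne θ
  have h2 := hf1 x hx
  rw [hfe, h1] at h2
  rw [hfe] at hf2
  have h3 := mul_le_mul_of_nonneg_left (h θ) hn.le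
  linarith

theorem supp_add {C D : Set ℂ} (hC : IsCompact C) (hD : IsCompact D) (hCn : C.Nonempty)
    (hDn : D.Nonempty) (θ : ℝ) : supportFn (C + D) θ = supportFn C θ + supportFn D θ := by
  obtain ⟨x, hx, h1⟩ := exists_attain hC hCn θ
  obtain ⟨y, hy, h2⟩ := exists_attain hD hDn θ
  apply le_antisymm
  · refine supp_le (hC.add hD) (hCn.add hDn) fun z hz => ?_
    obtain ⟨a, ha, b, hb, rfl⟩ := Set.mem_add.1 hz
    rw [ip_add_left]
    exact add_le_add (ip_le_supp hC ha θ) (ip_le_supp hD hb θ)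
  · rw [← h1, ← h2, ← ip_add_left]
    exact ip_le_supp (hC.add hD) (Set.add_mem_add hx hy) θ

theorem supp_rot {D : Set ℂ} (hD : IsCompact D) (hDn : D.Nonempty) (γ θ : ℝ) :
    supportFn (rot γ D) θ = supportFn D (θ - γ) := by
  have hcont : Continuous fun z : ℂ => e γ * z := by fun_prop
  have hc : IsCompact (rot γ D) := hD.image hcont
  have hip : ∀ z : ℂ, ip (e γ * z) (e θ) = ip z (e (θ - γ)) := by
    intro z
    have := ip_rot z γ (θ - γ)
    rwa [add_sub_cancel] at this
  apply le_antisymm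
  · refine supp_le hc (hDn.image _) ?_
    rintro _ ⟨z, hz, rfl⟩
    rw [hip]
    exact ip_le_supp hD hz _
  · refine supp_le hD hDn fun z hz => ?_
    rw [← hip]
    exact ip_le_supp hc ⟨z, hz, rfl⟩ θ

theorem supp_neg {K : Set ℂ} (hK : IsCompact K) (hne : K.Nonempty) (θ : ℝ) :
    supportFn (-K) θ = supportFn K (θ + Real.pi) := by
  apply le_antisymm
  · refine supp_le hK.neg hne.neg fun z hz => ?_
    have h1 := ip_le_supp hK (Set.mem_neg.1 hz) (θ + Real.pi)
    rw [e_add_pi] at h1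
    simpa [ip_eq] using h1
  · refine supp_le hK hne fun z hz => ?_
    have h1 := ip_le_supp hK.neg (Set.neg_mem_neg.2 hz) θ
    rw [e_add_pi]
    simp [ip_eq] at h1 ⊢
    linarith

theorem supp_hull {V : Finset ℂ} (hne : V.Nonempty) (θ : ℝ) :
    supportFn (hull V) θ = supportFn (V : Set ℂ) θ := by
  have hV : IsCompact (V : Set ℂ) := V.finite_toSet.isCompact
  have hVn : (V : Set ℂ).Nonempty := by simpa using hne
  have hH : IsCompact (hull V) := V.finite_toSet.isCompact_convexHull ℝ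
  apply le_antisymm
  · refine supp_le hH (hVn.mono (subset_convexHull ℝ _)) fun z hz => ?_
    have h1 : convexHull ℝ (V : Set ℂ) ⊆ {w : ℂ | ip w (e θ) ≤ supportFn (V : Set ℂ) θ} := by
      refine convexHull_min (fun w hw => ip_le_supp hV hw θ) ?_
      intro x hx y hy a b ha hb hab
      simp only [Set.mem_ofPred_eq, ip_eq, Complex.add_re, Complex.add_im, Complex.real_smul,
        Complex.mul_re, Complex.mul_im, Complex.ofReal_re, Complex.ofReal_im] at hx hy ⊢
      have h5 := mul_le_mul_of_nonneg_left hx ha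
      have h6 := mul_le_mul_of_nonneg_left hy hb
      have h7 : a * supportFn (↑V) θ + b * supportFn (↑V) θ = supportFn (↑V) θ := by
        rw [← add_mul, hab, one_mul]
      linarith
    exact h1 hz
  · exact supp_mono hV hVn hH (subset_convexHull ℝ _) θ

theorem isCompact_hull (V : Finset ℂ) : IsCompact (hull V) := by
  exact V.finite_toSet.isCompact_convexHull ℝ

theorem convex_hull (V : Finset ℂ) : Convex ℝ (hull V) := convex_convexHull ℝ _

theorem ctr_hull (V : Finset ℂ) (R : ℝ) : ctr (hull V) R = ctr V R := by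
  apply Set.Subset.antisymm
  · exact fun O hO x hx => hO x (subset_convexHull ℝ _ hx)
  · intro O hO
    have h1 : convexHull ℝ (V : Set ℂ) ⊆ closedBall O R := by
      refine convexHull_min (fun x hx => ?_) (convex_closedBall O R)
      rw [mem_closedBall, dist_eq_norm]
      exact hO x hx
    intro x hx
    have h2 := h1 hx
    rwa [mem_closedBall, dist_eq_norm] at h2

theorem isCompact_ctr {K : Set ℂ} (hne : K.Nonempty) (R : ℝ) : IsCompact (ctr K R) := by
  have h1 : ctr K R = ⋂ x ∈ K, closedBall x R := by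
    ext O
    simp only [ctr, Set.mem_ofPred_eq, Set.mem_iInter, mem_closedBall, dist_eq_norm]
    exact ⟨fun h x hx => by rw [norm_sub_rev]; exact h x hx,
      fun h x hx => by rw [norm_sub_rev]; exact h x hx⟩
  obtain ⟨x, hx⟩ := hne
  rw [h1]
  refine (isCompact_closedBall x R).of_isClosed_subset
    (isClosed_biInter fun _ _ => isClosed_closedBall) ?_
  exact Set.biInter_subset_of_mem hx

theorem convex_ctr (K : Set ℂ) (R : ℝ) : Convex ℝ (ctr K R) := by
  have h1 : ctr K R = ⋂ x ∈ K, closedBall x R := by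
    ext O
    simp only [ctr, Set.mem_ofPred_eq, Set.mem_iInter, mem_closedBall, dist_eq_norm]
    exact ⟨fun h x hx => by rw [norm_sub_rev]; exact h x hx,
      fun h x hx => by rw [norm_sub_rev]; exact h x hx⟩
  rw [h1]
  exact convex_iInter₂ fun x _ => convex_closedBall x R

/-- The set of the centres through the support function. -/
theorem mem_ctr_iff {K : Set ℂ} (hc : IsCompact K) (hne : K.Nonempty) {R : ℝ} {O : ℂ} :
    O ∈ ctr K R ↔ ∀ θ, ip O (e θ) ≤ R - supportFn K (θ + Real.pi) := by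
  constructor
  · intro h θ
    obtain ⟨x, hx, h1⟩ := exists_attain hc hne (θ + Real.pi)
    have h2 := h x hx
    rw [← h1, e_add_pi]
    have h3 := ip_le_norm (x - O) (-e θ) (by rw [norm_neg, norm_e])
    have h4 : ip (x - O) (-e θ) = ip x (-e θ) + ip O (e θ) := by
      simp only [ip_eq, Complex.sub_re, Complex.sub_im, Complex.neg_re, Complex.neg_im]; ring
    linarith
  · intro h x hx
    apply norm_le_of_ip
    intro θ
    have h1 := h (θ + Real.pi)
    have h2 := ip_le_supp hc hx θ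
    rw [e_add_pi] at h1
    have h3 : supportFn K (θ + Real.pi + Real.pi) = supportFn K θ := by
      have := supportFn_periodic K θ
      rw [← this]
      congr 1
      ring
    rw [h3] at h1
    have h4 : ip (x - O) (e θ) = ip x (e θ) + ip O (-e θ) := by
      simp only [ip_eq, Complex.sub_re, Complex.sub_im, Complex.neg_re, Complex.neg_im]; ring
    linarith

/-- The vertex of the circumscribed polygon between the directions `θ` and `θ + δ`. -/
noncomputable def vtx (h : ℝ → ℝ) (θ δ : ℝ) : ℂ :=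
  ((h θ / Real.sin δ : ℝ) : ℂ) * e (θ + δ - Real.pi / 2)
    + ((h (θ + δ) / Real.sin δ : ℝ) : ℂ) * e (θ + Real.pi / 2)

theorem ip_vtx (h : ℝ → ℝ) (θ δ φ : ℝ) :
    ip (vtx h θ δ) (e (θ + φ)) =
      (h (θ + δ) * Real.sin φ - h θ * Real.sin (φ - δ)) / Real.sin δ := by
  rw [vtx, ip_add_left, ip_smul, ip_smul, ip_e_e, ip_e_e]
  have h1 : θ + δ - Real.pi / 2 - (θ + φ) = -(φ - δ) - Real.pi / 2 := by ring
  have h2 : θ + Real.pi / 2 - (θ + φ) = Real.pi / 2 - φ := by ring
  rw [h1, h2, Real.cos_sub_pi_div_two, Real.sin_neg, Real.cos_pi_div_two_sub]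
  ring

/-- The vertices of the circumscribed polygon satisfy all the inequalities. -/
theorem supp_vertex {C : Set ℂ} (hc : IsCompact C) (hne : C.Nonempty) {N : ℕ} (hN : 3 ≤ N)
    (θ : ℝ) (m : ℕ) (hm : m < N) :
    ip (vtx (supportFn C) θ (2 * Real.pi / N)) (e (θ + m * (2 * Real.pi / N))) ≤
      supportFn C (θ + m * (2 * Real.pi / N)) := by
  set δ : ℝ := 2 * Real.pi / N with hδ
  set h := supportFn C with hh
  have hNp : (3 : ℝ) ≤ N := by exact_mod_cast hN
  have hNδ : (N : ℝ) * δ = 2 * Real.pi := by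
    rw [hδ]; field_simp
  have hπ := Real.pi_pos
  have hδ0 : 0 < δ := by positivity
  have hδπ : δ < Real.pi := by
    rw [hδ, div_lt_iff₀ (by linarith)]
    nlinarith
  have hs : 0 < Real.sin δ := Real.sin_pos_of_pos_of_lt_pi hδ0 hδπ
  rw [ip_vtx, div_le_iff₀ hs]
  rcases Nat.eq_zero_or_pos m with rfl | hm0
  · simp [Real.sin_neg]
  have hm1 : (1 : ℝ) ≤ m := by exact_mod_cast hm0
  by_cases hcase : (m : ℝ) * δ ≤ Real.pi
  · have h1 := supp_sublin hc hne (θ1 := θ) (θ2 := θ + δ) (θ3 := θ + m * δ)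
      (by linarith) (by nlinarith) (by linarith)
    have e1 : θ + m * δ - θ = m * δ := by ring
    have e2 : θ + m * δ - (θ + δ) = m * δ - δ := by ring
    have e3 : θ + δ - θ = δ := by ring
    rw [e1, e2, e3] at h1
    linarith
  push Not at hcase
  by_cases hcase2 : 2 * Real.pi - m * δ + δ ≤ Real.pi
  · have hmN : (m : ℝ) + 1 ≤ N := by exact_mod_cast hm
    have h0 : (m : ℝ) * δ + δ ≤ 2 * Real.pi := by nlinarith
    have h1 := supp_sublin hc hne (θ1 := θ + m * δ - 2 * Real.pi) (θ2 := θ) (θ3 := θ + δ)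
      (by linarith) (by linarith) (by linarith)
    have e0 : supportFn C (θ + m * δ - 2 * Real.pi) = h (θ + m * δ) := by
      have := supportFn_periodic C (θ + m * δ - 2 * Real.pi)
      rw [← this, hh]
      congr 1
      ring
    have e1 : θ + δ - (θ + m * δ - 2 * Real.pi) = 2 * Real.pi - (m * δ - δ) := by ring
    have e2 : θ + δ - θ = δ := by ring
    have e3 : θ - (θ + m * δ - 2 * Real.pi) = 2 * Real.pi - m * δ := by ring
    rw [e0, e1, e2, e3, Real.sin_two_pi_sub, Real.sin_two_pi_sub] at h1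
    linarith
  push Not at hcase2
  -- the remaining case: `2 m = N + 1`
  have hm2 : 2 * m = N + 1 := by
    have h1 : (N : ℝ) < 2 * m := by
      by_contra hcon
      push Not at hcon
      nlinarith
    have h2 : (2 : ℝ) * m < N + 2 := by
      by_contra hcon
      push Not at hcon
      nlinarith
    have h1' : N < 2 * m := by exact_mod_cast h1
    have h2' : 2 * m < N + 2 := by exact_mod_cast h2
    omega
  have hm2' : (2 : ℝ) * m = N + 1 := by exact_mod_cast hm2
  have hmδ : (m : ℝ) * δ = Real.pi + δ / 2 := by nlinarith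
  have hmδ2 : (m : ℝ) * δ - δ = Real.pi - δ / 2 := by linarith
  obtain ⟨z, hz⟩ := hne
  have z1 := ip_le_supp hc hz θ
  have z2 := ip_le_supp hc hz (θ + δ)
  have z3 := ip_le_supp hc hz (θ + m * δ)
  have s2 : Real.sin δ = 2 * Real.sin (δ / 2) * Real.cos (δ / 2) := by
    rw [← Real.sin_two_mul]; congr 1; ring
  have hsh : 0 < Real.sin (δ / 2) := Real.sin_pos_of_pos_of_lt_pi (by linarith) (by linarith)
  have hch : 0 < Real.cos (δ / 2) := Real.cos_pos_of_mem_Ioo ⟨by linarith, by linarith⟩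
  have key : ip z (e θ) + ip z (e (θ + δ)) + 2 * Real.cos (δ / 2) * ip z (e (θ + m * δ)) = 0 := by
    rw [hmδ]
    have e1 : θ + (Real.pi + δ / 2) = (θ + δ / 2) + Real.pi := by ring
    rw [e1, ip_e, ip_e, ip_e, Real.cos_add_pi, Real.sin_add_pi]
    have c1 : Real.cos θ = Real.cos (θ + δ / 2) * Real.cos (δ / 2)
        + Real.sin (θ + δ / 2) * Real.sin (δ / 2) := by
      rw [← Real.cos_sub]; congr 1; ring
    have c2 : Real.cos (θ + δ) = Real.cos (θ + δ / 2) * Real.cos (δ / 2)
        - Real.sin (θ + δ / 2) * Real.sin (δ / 2) := by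
      rw [← Real.cos_add]; congr 1; ring
    have c3 : Real.sin θ = Real.sin (θ + δ / 2) * Real.cos (δ / 2)
        - Real.cos (θ + δ / 2) * Real.sin (δ / 2) := by
      rw [← Real.sin_sub]; congr 1; ring
    have c4 : Real.sin (θ + δ) = Real.sin (θ + δ / 2) * Real.cos (δ / 2)
        + Real.cos (θ + δ / 2) * Real.sin (δ / 2) := by
      rw [← Real.sin_add]; congr 1; ring
    rw [c1, c2, c3, c4]
    ring
  rw [hmδ2, Real.sin_pi_sub, hmδ, Real.sin_add, Real.sin_pi, Real.cos_pi]
  rw [hmδ] at z3 key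
  have h5 : -(h θ + h (θ + δ)) ≤ 2 * Real.cos (δ / 2) * h (θ + (Real.pi + δ / 2)) := by
    have := mul_le_mul_of_nonneg_left z3 (by positivity : (0 : ℝ) ≤ 2 * Real.cos (δ / 2))
    linarith
  have h6 := mul_le_mul_of_nonneg_right h5 hsh.le
  rw [s2]
  linarith

end Pool.Agent.Helper79.MI
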