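import Pool.Agent.Helper79.MI.Defs

/-!
# D2: the gain is at most `1 + cos psi`

`psi` is the infimum of a nonempty set bounded below by `0`, contained in `(0, π]`. In the integral
`gain` only the `w ∈ (0, π)` contribute (`sin w ≤ 0` on `[π, 2π)`), they satisfy `psi ≤ w`, and
`∫_{psi}^{π} sin = 1 + cos psi`.
-/

namespace Pool.Agent.Helper79.MI

open Pool.Agent.Helper16.Disk7 Pool.Agent.Helper57.CW MeasureTheory Metric Complex Set
open scoped ENNReal Pointwise

private theorem psi_bounds99 (P Q : Set ℂ) : 0 ≤ psi P Q ∧ psi P Q ≤ Real.pi ∧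
    ∀ w, 0 < w → w < Real.pi → Disjoint P (rot w Q) → psi P Q ≤ w := by
  have hpi := Real.pi_pos
  have hb : BddBelow ({w | 0 < w ∧ w < Real.pi ∧ Disjoint P (rot w Q)} ∪ {Real.pi}) := by
    refine ⟨0, ?_⟩
    rintro w (hw | hw)
    · exact hw.1.le
    · rw [Set.mem_singleton_iff.1 hw]
      exact hpi.le
  refine ⟨?_, csInf_le hb (Or.inr rfl), fun w h1 h2 h3 => csInf_le hb (Or.inl ⟨h1, h2, h3⟩)⟩
  refine le_csInf ⟨Real.pi, Or.inr rfl⟩ ?_
  rintro w (hw | hw)
  · exact hw.1.le
  · rw [Set.mem_singleton_iff.1 hw]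
    exact hpi.le

theorem gain_le (V W : Finset ℂ) (R : ℝ) (x : ℂ) (v : ℝ) (y : ℂ) (v' : ℝ) :
    gain V W R x v y v' ≤
      ENNReal.ofReal (1 + Real.cos (psi (pl V R x v) (pl W R y v'))) ∧
    0 ≤ psi (pl V R x v) (pl W R y v') ∧ psi (pl V R x v) (pl W R y v') ≤ Real.pi := by
  obtain ⟨h0, hpi, hw⟩ := psi_bounds99 (pl V R x v) (pl W R y v')
  refine ⟨?_, h0, hpi⟩
  set ψ : ℝ := psi (pl V R x v) (pl W R y v') with hψ
  set Z : Set ℝ := {w : ℝ | ENNReal.ofReal (Real.sin w) = 0} with hZ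
  have hZm : MeasurableSet Z := by
    have h1 : Measurable fun w : ℝ => ENNReal.ofReal (Real.sin w) := by fun_prop
    exact h1 (measurableSet_singleton 0)
  have hsub : Ico 0 (2 * Real.pi) ∩ {w | Disjoint (pl V R x v) (rot w (pl W R y v'))} ⊆
      Icc ψ Real.pi ∪ Z := by
    rintro w ⟨⟨h1, h2⟩, h3⟩
    rcases eq_or_lt_of_le h1 with h4 | h4
    · right
      change ENNReal.ofReal (Real.sin w) = 0
      rw [← h4, Real.sin_zero, ENNReal.ofReal_zero]
    · rcases lt_or_ge w Real.pi with h5 | h5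
      · exact Or.inl ⟨hw w h4 h5 h3, h5.le⟩
      · right
        change ENNReal.ofReal (Real.sin w) = 0
        rw [ENNReal.ofReal_eq_zero]
        have h6 : Real.sin w = -Real.sin (w - Real.pi) := by
          rw [Real.sin_sub_pi, neg_neg]
        rw [h6, neg_nonpos]
        exact Real.sin_nonneg_of_nonneg_of_le_pi (by linarith) (by linarith)
  have h1 : gain V W R x v y v' ≤ ∫⁻ w in Icc ψ Real.pi ∪ Z, ENNReal.ofReal (Real.sin w) :=
    lintegral_mono_set hsub
  have h2 : ∫⁻ w in Z, ENNReal.ofReal (Real.sin w) = 0 :=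
    setLIntegral_eq_zero hZm fun w hw => hw
  have h3 : ∫⁻ w in Icc ψ Real.pi, ENNReal.ofReal (Real.sin w) = ENNReal.ofReal (1 + Real.cos ψ) := by
    rw [← ofReal_integral_eq_lintegral_ofReal]
    · congr 1
      rw [integral_Icc_eq_integral_Ioc, ← intervalIntegral.integral_of_le hpi, integral_sin,
        Real.cos_pi]
      ring
    · exact (Real.continuous_sin.integrableOn_Icc)
    · refine (ae_restrict_iff' measurableSet_Icc).2 (Filter.Eventually.of_forall fun w hw => ?_)
      exact Real.sin_nonneg_of_nonneg_of_le_pi (h0.trans hw.1) hw.2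
  refine h1.trans ((lintegral_union_le _ _ _).trans ?_)
  rw [h2, h3, add_zero]

end Pool.Agent.Helper79.MI
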