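import Pool.Agent.Helper79.MI.Kin

/-!
# B3: change of variables

`dens V W R x y v v' w` is a measurable function of `(v, v', w)` (the conditions `v ∈ st V R x`,
`v' ∈ st W R y` are closed, disjointness of the compact sets is open) and `2π`-periodic in each of the
three variables. Tonelli: for fixed `v`, substitute `v' = u - γ` for `γ` (for fixed `u`), then
`w = u - v` for `u`; integrals of periodic functions over any interval of length `2π` agree. At the
end `∫ w in Ico 0 (2π), dens = 1[v ∈ st V R x] 1[v' ∈ st W R y] R^2 gain`.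
-/

namespace Pool.Agent.Helper79.MI

open Pool.Agent.Helper16.Disk7 Pool.Agent.Helper57.CW MeasureTheory Metric Complex Set
open scoped ENNReal Pointwise

namespace DC

/-- The integral of a periodic function over a period. -/
lemma lint_periodic {T : ℝ} (hT : 0 < T) {h : ℝ → ℝ≥0∞} (hp : ∀ x, h (x + T) = h x) (a b : ℝ) :
    ∫⁻ x in Ioc a (a + T), h x = ∫⁻ x in Ioc b (b + T), h x := by
  refine (isAddFundamentalDomain_Ioc hT a).setLIntegral_eq (isAddFundamentalDomain_Ioc hT b) h ?_
  rintro ⟨g, n, rfl⟩ x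
  have hper : Function.Periodic h T := hp
  have h1 : (⟨n • T, ⟨n, rfl⟩⟩ : AddSubgroup.zmultiples T) +ᵥ x = x + n • T := by
    rw [AddSubgroup.vadd_def, vadd_eq_add, add_comm]
  simp only at h1 ⊢
  rw [h1]
  exact (hper.zsmul n) x

/-- Translation of the variable. -/
lemma lint_sub_right {T : ℝ} (hT : 0 < T) {h : ℝ → ℝ≥0∞} (hp : ∀ x, h (x + T) = h x) (a : ℝ) :
    ∫⁻ x in Ico 0 T, h (x - a) = ∫⁻ x in Ico 0 T, h x := by
  have h1 : ∫⁻ x in Ico 0 T, h (x - a) = ∫⁻ x in Ioc (-a) (-a + T), h x := by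
    rw [setLIntegral_congr Ico_ae_eq_Ioc, ← lintegral_indicator measurableSet_Ioc,
      ← lintegral_indicator measurableSet_Ioc,
      ← lintegral_sub_right_eq_self ((Ioc (-a) (-a + T)).indicator h) a]
    refine lintegral_congr fun x => ?_
    by_cases hx : x ∈ Ioc 0 T
    · rw [Set.indicator_of_mem hx, Set.indicator_of_mem]
      exact ⟨by linarith [hx.1], by linarith [hx.2]⟩
    · rw [Set.indicator_of_notMem hx, Set.indicator_of_notMem]
      rintro ⟨h2, h3⟩
      exact hx ⟨by linarith, by linarith⟩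
  have h2 := lint_periodic hT hp (-a) 0
  rw [h1, h2, zero_add, setLIntegral_congr Ico_ae_eq_Ioc]

/-- Reflection of the variable. -/
lemma lint_sub_left {T : ℝ} (hT : 0 < T) {h : ℝ → ℝ≥0∞} (hp : ∀ x, h (x + T) = h x) (a : ℝ) :
    ∫⁻ x in Ico 0 T, h (a - x) = ∫⁻ x in Ico 0 T, h x := by
  have h1 : ∫⁻ x in Ico 0 T, h (a - x) = ∫⁻ x in Ioc (a - T) (a - T + T), h x := by
    rw [← lintegral_indicator measurableSet_Ico, ← lintegral_indicator measurableSet_Ioc,
      ← lintegral_sub_left_eq_self ((Ioc (a - T) (a - T + T)).indicator h) a]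
    refine lintegral_congr fun x => ?_
    by_cases hx : x ∈ Ico 0 T
    · rw [Set.indicator_of_mem hx, Set.indicator_of_mem]
      exact ⟨by linarith [hx.2], by linarith [hx.1]⟩
    · rw [Set.indicator_of_notMem hx, Set.indicator_of_notMem]
      rintro ⟨h2, h3⟩
      exact hx ⟨by linarith, by linarith⟩
  have h2 := lint_periodic hT hp (a - T) 0
  rw [h1, h2, zero_add, setLIntegral_congr Ico_ae_eq_Ioc]

lemma isOpen_disj2 {K L : Set ℂ} (hK : IsClosed K) (hL : IsCompact L) :
    IsOpen {q : ℝ × ℂ | Disjoint K (mov q.1 q.2 L)} := by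
  have : CompactSpace L := isCompact_iff_compactSpace.1 hL
  have h1 : {q : ℝ × ℂ | Disjoint K (mov q.1 q.2 L)}ᶜ
      = Prod.fst '' {r : (ℝ × ℂ) × L | e r.1.1 * (r.2 : ℂ) + r.1.2 ∈ K} := by
    ext q
    simp only [mem_compl_iff, mem_ofPred_eq, Set.not_disjoint_iff]
    constructor
    · rintro ⟨a, ha, b, hb, hab⟩
      refine ⟨(q, ⟨b, hb⟩), ?_, rfl⟩
      simp only [mem_ofPred_eq] at hab ⊢
      rw [hab]
      exact ha
    · rintro ⟨⟨q', b⟩, hb, rfl⟩
      exact ⟨_, hb, b, b.2, rfl⟩
  rw [← isClosed_compl_iff, h1]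
  refine isClosedMap_fst_of_compactSpace _ (hK.preimage ?_)
  have := Kin.continuous_e0
  fun_prop

lemma pl_periodic (V : Finset ℂ) (R : ℝ) (x : ℂ) (v : ℝ) :
    pl V R x (v + 2 * Real.pi) = pl V R x v := by
  have h1 : e (v + 2 * Real.pi) = e v := Pool.Agent.Helper16.DK.e_periodic v
  have h2 : e (-(v + 2 * Real.pi)) = e (-v) := by
    have := Pool.Agent.Helper16.DK.e_periodic (-(v + 2 * Real.pi))
    rw [← this]
    congr 1
    ring
  rw [pl, pl, h1, h2]

lemma st_periodic (V : Finset ℂ) (R : ℝ) (x : ℂ) (v : ℝ) :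
    v + 2 * Real.pi ∈ st V R x ↔ v ∈ st V R x := by
  have h1 : e (v + 2 * Real.pi) = e v := Pool.Agent.Helper16.DK.e_periodic v
  simp only [st, mem_ofPred_eq, h1]

lemma rot_periodic (w : ℝ) (K : Set ℂ) : rot (w + 2 * Real.pi) K = rot w K := by
  have h1 : e (w + 2 * Real.pi) = e w := Pool.Agent.Helper16.DK.e_periodic w
  rw [rot, rot, h1]

/-- The three periodicities of `dens`. -/
lemma dens_per1 (V W : Finset ℂ) (R : ℝ) (x y : ℂ) (v v' w : ℝ) :
    dens V W R x y (v + 2 * Real.pi) v' w = dens V W R x y v v' w := by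
  classical
  unfold dens
  exact if_congr (by rw [st_periodic, pl_periodic]) rfl rfl

lemma dens_per2 (V W : Finset ℂ) (R : ℝ) (x y : ℂ) (v v' w : ℝ) :
    dens V W R x y v (v' + 2 * Real.pi) w = dens V W R x y v v' w := by
  classical
  unfold dens
  exact if_congr (by rw [st_periodic, pl_periodic]) rfl rfl

lemma dens_per3 (V W : Finset ℂ) (R : ℝ) (x y : ℂ) (v v' w : ℝ) :
    dens V W R x y v v' (w + 2 * Real.pi) = dens V W R x y v v' w := by
  classical
  unfold dens
  exact if_congr (by rw [rot_periodic]) (by rw [Real.sin_add_two_pi]) rfl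

/-- The set of disjointness in the variables `(v, v', w)`. -/
lemma isOpen_D (V W : Finset ℂ) (R : ℝ) (x y : ℂ) :
    IsOpen {q : ℝ × ℝ × ℝ | Disjoint (pl V R x q.1) (rot q.2.2 (pl W R y q.2.1))} := by
  have h1 : {q : ℝ × ℝ × ℝ | Disjoint (pl V R x q.1) (rot q.2.2 (pl W R y q.2.1))}
      = (fun q : ℝ × ℝ × ℝ => (q.1 + q.2.2 - q.2.1,
          Kin.phi R (q.1 + q.2.2 - q.2.1) x y (q.1, q.1 + q.2.2))) ⁻¹'
        {q : ℝ × ℂ | Disjoint (hull V) (mov q.1 q.2 (hull W))} := by
    ext q
    have h2 := Kin.disjoint_iff' (V := V) (W := W) (R := R) (γ := q.1 + q.2.2 - q.2.1)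
      (x := x) (y := y) (q.1, q.1 + q.2.2)
    simp only [add_sub_cancel_left, sub_sub_cancel] at h2
    exact h2
  rw [h1]
  refine (isOpen_disj2 (Kin.isCompact_hull V).isClosed (Kin.isCompact_hull W)).preimage ?_
  unfold Kin.phi
  have := Kin.continuous_e0
  fun_prop

lemma measurable_dens (V W : Finset ℂ) (R : ℝ) (x y : ℂ) :
    Measurable fun q : ℝ × ℝ × ℝ => dens V W R x y q.1 q.2.1 q.2.2 := by
  classical
  have h0 : MeasurableSet {q : ℝ × ℝ × ℝ | q.1 ∈ st V R x ∧ q.2.1 ∈ st W R y ∧
      Disjoint (pl V R x q.1) (rot q.2.2 (pl W R y q.2.1))} := by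
    have h1 : MeasurableSet {q : ℝ × ℝ × ℝ | q.1 ∈ st V R x} :=
      ((Kin.isClosed_st V R x).preimage continuous_fst).measurableSet
    have h2 : MeasurableSet {q : ℝ × ℝ × ℝ | q.2.1 ∈ st W R y} :=
      ((Kin.isClosed_st W R y).preimage (continuous_fst.comp continuous_snd)).measurableSet
    exact h1.inter (h2.inter (isOpen_D V W R x y).measurableSet)
  unfold dens
  refine Measurable.ite ?_ ?_ measurable_const
  · exact h0
  · fun_prop

end DC

theorem dens_change {V W : Finset ℂ} {R : ℝ} (hV : V.Nonempty) (hW : W.Nonempty) (x y : ℂ) :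
    ∫⁻ γ in Ico 0 (2 * Real.pi), ∫⁻ v in Ico 0 (2 * Real.pi), ∫⁻ u in Ico 0 (2 * Real.pi),
      dens V W R x y v (u - γ) (u - v) =
    ENNReal.ofReal (R ^ 2) * ∫⁻ v in st V R x ∩ Ico 0 (2 * Real.pi),
      ∫⁻ v' in st W R y ∩ Ico 0 (2 * Real.pi), gain V W R x v y v' := by
  classical
  have hT : (0 : ℝ) < 2 * Real.pi := by positivity
  set f : ℝ → ℝ → ℝ → ℝ≥0∞ := fun v v' w => dens V W R x y v v' w with hf
  have hm : Measurable fun q : ℝ × ℝ × ℝ => f q.1 q.2.1 q.2.2 := DC.measurable_dens V W R x y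
  set I : Set ℝ := Ico 0 (2 * Real.pi) with hI
  have e1 : ∫⁻ γ in I, ∫⁻ v in I, ∫⁻ u in I, f v (u - γ) (u - v)
      = ∫⁻ v in I, ∫⁻ γ in I, ∫⁻ u in I, f v (u - γ) (u - v) := by
    refine lintegral_lintegral_swap ?_
    refine Measurable.aemeasurable ?_
    refine Measurable.lintegral_prod_right' (f := fun q : (ℝ × ℝ) × ℝ =>
      f q.1.2 (q.2 - q.1.1) (q.2 - q.1.2)) ?_
    exact hm.comp (f := fun q : (ℝ × ℝ) × ℝ => (q.1.2, q.2 - q.1.1, q.2 - q.1.2)) (by fun_prop)
  have e2 : ∀ v, ∫⁻ γ in I, ∫⁻ u in I, f v (u - γ) (u - v)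
      = ∫⁻ v' in I, ∫⁻ w in I, f v v' w := by
    intro v
    have e3 : ∫⁻ γ in I, ∫⁻ u in I, f v (u - γ) (u - v)
        = ∫⁻ u in I, ∫⁻ γ in I, f v (u - γ) (u - v) := by
      refine lintegral_lintegral_swap ?_
      refine Measurable.aemeasurable ?_
      exact hm.comp (f := fun q : ℝ × ℝ => (v, q.2 - q.1, q.2 - v)) (by fun_prop)
    have e4 : ∀ u, ∫⁻ γ in I, f v (u - γ) (u - v) = ∫⁻ v' in I, f v v' (u - v) := by
      intro u
      exact DC.lint_sub_left hT (h := fun v' => f v v' (u - v))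
        (fun v' => DC.dens_per2 V W R x y v v' (u - v)) u
    have e5 : ∫⁻ u in I, ∫⁻ v' in I, f v v' (u - v) = ∫⁻ v' in I, ∫⁻ u in I, f v v' (u - v) := by
      refine lintegral_lintegral_swap ?_
      refine Measurable.aemeasurable ?_
      exact hm.comp (f := fun q : ℝ × ℝ => (v, q.2, q.1 - v)) (by fun_prop)
    have e6 : ∀ v', ∫⁻ u in I, f v v' (u - v) = ∫⁻ w in I, f v v' w := by
      intro v'
      exact DC.lint_sub_right hT (h := fun w => f v v' w)
        (fun w => DC.dens_per3 V W R x y v v' w) v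
    rw [e3, lintegral_congr e4, e5, lintegral_congr e6]
  rw [e1, lintegral_congr e2]
  -- now the inner integral
  have e7 : ∀ v v', ∫⁻ w in I, f v v' w
      = (st V R x).indicator (fun v => (st W R y).indicator
        (fun v' => ENNReal.ofReal (R ^ 2) * gain V W R x v y v') v') v := by
    intro v v'
    by_cases hv : v ∈ st V R x
    · by_cases hv' : v' ∈ st W R y
      · rw [Set.indicator_of_mem hv, Set.indicator_of_mem hv', gain]
        have hD : MeasurableSet {w : ℝ | Disjoint (pl V R x v) (rot w (pl W R y v'))} := by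
          have := (DC.isOpen_D V W R x y).preimage
            (f := fun w : ℝ => (v, v', w)) (by fun_prop)
          exact this.measurableSet
        have e8 : ∀ w, f v v' w = {w : ℝ | Disjoint (pl V R x v)
            (rot w (pl W R y v'))}.indicator (fun w => ENNReal.ofReal (R ^ 2) *
              ENNReal.ofReal (Real.sin w)) w := by
          intro w
          by_cases hw : Disjoint (pl V R x v) (rot w (pl W R y v'))
          · rw [Set.indicator_of_mem (show w ∈ {w : ℝ | Disjoint (pl V R x v)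
              (rot w (pl W R y v'))} from hw)]
            simp only [hf, dens]
            rw [if_pos ⟨hv, hv', hw⟩, ENNReal.ofReal_mul (sq_nonneg R)]
          · rw [Set.indicator_of_notMem (show w ∉ {w : ℝ | Disjoint (pl V R x v)
              (rot w (pl W R y v'))} from hw)]
            simp only [hf, dens]
            rw [if_neg (fun h => hw h.2.2)]
        rw [lintegral_congr e8, setLIntegral_indicator hD, Set.inter_comm,
          lintegral_const_mul _ (by fun_prop)]
      · rw [Set.indicator_of_mem hv, Set.indicator_of_notMem hv']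
        have e9 : ∀ w, f v v' w = 0 := by
          intro w
          simp only [hf, dens]
          rw [if_neg (fun h => hv' h.2.1)]
        rw [lintegral_congr e9, lintegral_zero]
    · rw [Set.indicator_of_notMem hv]
      have e9 : ∀ w, f v v' w = 0 := by
        intro w
        simp only [hf, dens]
        rw [if_neg (fun h => hv h.1)]
      rw [lintegral_congr e9, lintegral_zero]
  have hst := (Kin.isClosed_st V R x).measurableSet
  have hst' := (Kin.isClosed_st W R y).measurableSet
  have e10 : ∀ v, ∫⁻ v' in I, ∫⁻ w in I, f v v' w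
      = (st V R x).indicator (fun v => ENNReal.ofReal (R ^ 2) *
        ∫⁻ v' in st W R y ∩ I, gain V W R x v y v') v := by
    intro v
    rw [lintegral_congr (e7 v)]
    by_cases hv : v ∈ st V R x
    · simp only [Set.indicator_of_mem hv]
      rw [setLIntegral_indicator hst', lintegral_const_mul' _ _ ENNReal.ofReal_ne_top]
    · simp only [Set.indicator_of_notMem hv]
      rw [lintegral_zero]
  rw [lintegral_congr e10, setLIntegral_indicator hst, lintegral_const_mul' _ _
    ENNReal.ofReal_ne_top]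

end Pool.Agent.Helper79.MI
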