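import Pool.Agent.Helper79.MI.Cross
import Pool.Agent.Helper16.DK.Image

/-!
# B2: the kinematic inequality for a fixed angle of rotation

Let `τ` be in the set on the left, `W' = image of W under z ↦ e γ z + τ`. By `hNC` there are
`p ∈ ctr V R \ ctr W' R`, `q ∈ ctr W' R \ ctr V R`; B1 (`crossing`) gives `O`, `x ∈ V`, `y ∈ W` with
`x = O + R e v`, `e γ y + τ = O + R e u`, `v, u ∈ [0, 2π)`, `sin (u - v) ≥ 0`, `v ∈ st V R x`,
`u - γ ∈ st W R y` and `τ = φ(v,u) := x - R e v - e γ y + R e u`; moreover `pl V R x v` and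
`rot (u - v) (pl W R y (u - γ))` are the images of `hull V` and `mov γ τ (hull W)` under
`z ↦ e (-v) (z - O)`, hence disjoint.
So the set is contained in the union over `x, y` of the images `φ_{x,y}(S_{x,y})`,
`S_{x,y} = {(v,u) ∈ [0,2π)^2 | v ∈ st V R x, u - γ ∈ st W R y, disjoint, sin (u - v) ≥ 0}` (measurable: `st` is
closed and disjointness of compact sets is an open condition). The measure of the image is at
most the integral of `R^2 |sin (u - v)|` over `S_{x,y}`, which is the integral of `dens`.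
-/

namespace Pool.Agent.Helper79.MI

open Pool.Agent.Helper16.Disk7 Pool.Agent.Helper57.CW MeasureTheory Metric Complex Set
open scoped ENNReal Pointwise

namespace Kin

/-- The translation vector as a function of the two contact angles. -/
noncomputable def phi (R γ : ℝ) (x y : ℂ) (p : ℝ × ℝ) : ℂ :=
  x - R * e p.1 - e γ * y + R * e p.2

lemma e_ne_zero (t : ℝ) : e t ≠ 0 := by
  intro h
  have := norm_e t
  rw [h, norm_zero] at this
  exact zero_ne_one this

lemma e_zero : e 0 = 1 := by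
  rw [e]
  simp

lemma e_neg_mul (t : ℝ) : e (-t) * e t = 1 := by
  rw [e_mul, neg_add_cancel, e_zero]

/-- Polar coordinates of a vector of length `R`. -/
lemma exists_angle {R : ℝ} {z : ℂ} (hz : ‖z‖ = R) (hR : 0 < R) :
    ∃ v ∈ Ico (0 : ℝ) (2 * Real.pi), z = R * e v := by
  have h1 : ‖z / R‖ = 1 := by
    rw [norm_div, hz, Complex.norm_real, Real.norm_eq_abs, abs_of_pos hR, div_self hR.ne']
  obtain ⟨v, hv⟩ := exists_e _ h1
  obtain ⟨w, hw, hvw⟩ := Pool.Agent.Helper16.DK.e_periodic.exists_mem_Ico₀ (by positivity) v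
  refine ⟨w, hw, ?_⟩
  have h2 : (R : ℂ) ≠ 0 := by exact_mod_cast hR.ne'
  rw [← hvw, ← hv, mul_comm, div_mul_cancel₀ z h2]

lemma isCompact_hull (V : Finset ℂ) : IsCompact (hull V) := by
  unfold hull
  exact Set.Finite.isCompact_convexHull (𝕜 := ℝ) V.finite_toSet

/-- The disjointness condition in terms of the translation vector. -/
lemma disjoint_iff' {V W : Finset ℂ} {R γ : ℝ} {x y : ℂ} (p : ℝ × ℝ) :
    Disjoint (pl V R x p.1) (rot (p.2 - p.1) (pl W R y (p.2 - γ))) ↔
      Disjoint (hull V) (mov γ (phi R γ x y p) (hull W)) := by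
  have h2 : ∀ z z' : ℂ, (e (-p.1) * (z' - (x - R * e p.1))
      = e (p.2 - p.1) * (e (-(p.2 - γ)) * (z - (y - R * e (p.2 - γ)))) ↔
      z' = e γ * z + phi R γ x y p) := by
    intro z z'
    have e1 : e (p.2 - p.1) * (e (-(p.2 - γ)) * (z - (y - R * e (p.2 - γ))))
        = e (-p.1) * (e γ * (z - y) + R * e p.2) := by
      have h3 : e (p.2 - p.1) * e (-(p.2 - γ)) = e (-p.1) * e γ := by
        rw [e_mul, e_mul]
        congr 1
        ring
      have h4 : e γ * e (p.2 - γ) = e p.2 := by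
        rw [e_mul]
        congr 1
        ring
      calc e (p.2 - p.1) * (e (-(p.2 - γ)) * (z - (y - R * e (p.2 - γ))))
          = (e (p.2 - p.1) * e (-(p.2 - γ))) * (z - (y - R * e (p.2 - γ))) := by ring
        _ = (e (-p.1) * e γ) * (z - (y - R * e (p.2 - γ))) := by rw [h3]
        _ = e (-p.1) * (e γ * (z - y) + R * (e γ * e (p.2 - γ))) := by ring
        _ = _ := by rw [h4]
    rw [e1, mul_right_inj' (e_ne_zero _), phi]
    constructor
    · intro h
      linear_combination h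
    · intro h
      linear_combination h
  rw [Set.disjoint_left, Set.disjoint_left]
  constructor
  · rintro h z' hz' ⟨z, hz, rfl⟩
    refine h ⟨_, hz', rfl⟩ ⟨_, ⟨z, hz, rfl⟩, ?_⟩
    exact ((h2 z _).2 rfl).symm
  · rintro h _ ⟨z', hz', rfl⟩ ⟨_, ⟨z, hz, rfl⟩, hzz⟩
    exact h hz' ⟨z, hz, ((h2 z z').1 hzz.symm).symm⟩

/-- The set of the parameters. -/
def S (V W : Finset ℂ) (R γ : ℝ) (x y : ℂ) : Set (ℝ × ℝ) :=
  {p | (p.1 ∈ st V R x ∧ p.2 - γ ∈ st W R y) ∧
    Disjoint (hull V) (mov γ (phi R γ x y p) (hull W)) ∧ 0 ≤ Real.sin (p.2 - p.1)}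

lemma continuous_e0 : Continuous e := Pool.Agent.Helper16.DK.continuous_e

lemma continuous_phi (R γ : ℝ) (x y : ℂ) : Continuous (phi R γ x y) := by
  unfold phi
  have := continuous_e0
  fun_prop

lemma isClosed_st (V : Finset ℂ) (R : ℝ) (x : ℂ) : IsClosed (st V R x) := by
  have : st V R x = ⋂ y ∈ V, {v : ℝ | ‖y - (x - R * e v)‖ ≤ R} := by
    ext v
    simp [st]
  rw [this]
  refine isClosed_biInter fun y _ => isClosed_le ?_ continuous_const
  have := continuous_e0
  fun_prop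

lemma isOpen_disj {K L : Set ℂ} (hK : IsCompact K) (hL : IsCompact L) (γ : ℝ) :
    IsOpen {τ : ℂ | Disjoint K (mov γ τ L)} := by
  have h1 : {τ : ℂ | Disjoint K (mov γ τ L)}ᶜ
      = (fun q : ℂ × ℂ => q.1 - e γ * q.2) '' (K ×ˢ L) := by
    ext τ
    simp only [mem_compl_iff, mem_ofPred_eq, Set.not_disjoint_iff]
    constructor
    · rintro ⟨a, ha, b, hb, hab⟩
      refine ⟨(a, b), ⟨ha, hb⟩, ?_⟩
      simp only at hab ⊢
      rw [← hab]
      ring
    · rintro ⟨⟨a, b⟩, ⟨ha, hb⟩, rfl⟩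
      refine ⟨a, ha, b, hb, ?_⟩
      simp only
      ring
  rw [← isClosed_compl_iff, h1]
  exact ((hK.prod hL).image (by fun_prop)).isClosed

lemma measurableSet_S (V W : Finset ℂ) (R γ : ℝ) (x y : ℂ) : MeasurableSet (S V W R γ x y) := by
  have h1 : MeasurableSet {p : ℝ × ℝ | p.1 ∈ st V R x ∧ p.2 - γ ∈ st W R y} := by
    refine IsClosed.measurableSet ?_
    exact ((isClosed_st V R x).preimage continuous_fst).inter
      ((isClosed_st W R y).preimage (continuous_snd.sub continuous_const))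
  have h2 : MeasurableSet {p : ℝ × ℝ | Disjoint (hull V) (mov γ (phi R γ x y p) (hull W))} := by
    refine IsOpen.measurableSet ?_
    exact (isOpen_disj (isCompact_hull V) (isCompact_hull W) γ).preimage (continuous_phi R γ x y)
  have h3 : MeasurableSet {p : ℝ × ℝ | 0 ≤ Real.sin (p.2 - p.1)} := by
    refine IsClosed.measurableSet (isClosed_le continuous_const ?_)
    fun_prop
  exact h1.inter (h2.inter h3)

/-- The covering. -/
lemma cover {V W : Finset ℂ} {R : ℝ} (hR : 0 < R)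
    (hNC : ∀ (γ : ℝ) (τ : ℂ), Disjoint (hull V) (mov γ τ (hull W)) →
      ¬ (ctr V R ⊆ ctr (mov γ τ W) R) ∧ ¬ (ctr (mov γ τ W) R ⊆ ctr V R)) (γ : ℝ) :
    {τ : ℂ | Disjoint (hull V) (mov γ τ (hull W)) ∧
      ∃ c : ℂ, (∀ x ∈ V, ‖x - c‖ < R) ∧ ∀ y ∈ W, ‖e γ * y + τ - c‖ < R} ⊆
    ⋃ x ∈ V, ⋃ y ∈ W, phi R γ x y ''
      (S V W R γ x y ∩ (Ico 0 (2 * Real.pi) ×ˢ Ico 0 (2 * Real.pi))) := by
  classical
  rintro τ ⟨hdis, c, hcV, hcW⟩
  obtain ⟨hnc1, hnc2⟩ := hNC γ τ hdis
  obtain ⟨p, hpV, hpW⟩ := Set.not_subset.1 hnc1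
  obtain ⟨q, hqW, hqV⟩ := Set.not_subset.1 hnc2
  set W' : Finset ℂ := W.image (fun z => e γ * z + τ) with hW'
  have hctr : ctr (mov γ τ W) R = ctr W' R := by
    rw [hW']
    ext O
    simp [ctr, mov]
  rw [hctr] at hpW hqW
  have hcW' : ∀ y ∈ W', ‖y - c‖ < R := by
    intro y hy
    rw [hW', Finset.mem_image] at hy
    obtain ⟨y', hy', rfl⟩ := hy
    exact hcW y' hy'
  obtain ⟨O, hOV, hOW, x, hx, y', hy', hxO, hyO, hcross⟩ := crossing hcV hcW' hpV hpW hqW hqV
  rw [hW', Finset.mem_image] at hy'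
  obtain ⟨y, hy, rfl⟩ := hy'
  obtain ⟨v, hv, hxv⟩ := exists_angle hxO hR
  obtain ⟨u, hu, hyu⟩ := exists_angle hyO hR
  have hphi : phi R γ x y (v, u) = τ := by
    rw [phi]
    simp only
    linear_combination hxv - hyu
  have hO1 : O = x - R * e v := by linear_combination -hxv
  have hmem : (v, u) ∈ S V W R γ x y := by
    refine ⟨⟨?_, ?_⟩, ?_, ?_⟩
    · intro z hz
      simp only
      rw [← hO1]
      exact hOV z hz
    · intro z hz
      have h1 : e γ * z + τ ∈ (W' : Set ℂ) := by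
        rw [hW']
        simp only [Finset.coe_image]
        exact ⟨z, hz, rfl⟩
      have h2 := hOW _ h1
      have h3 : e γ * (z - (y - R * e (u - γ))) = e γ * z + τ - O := by
        have h4 : e γ * e (u - γ) = e u := by
          rw [e_mul]
          congr 1
          ring
        linear_combination (R : ℂ) * h4 - hyu
      simp only
      rw [← h3, norm_mul, norm_e, one_mul] at h2
      exact h2
    · rw [hphi]
      exact hdis
    · simp only
      rw [hxv, hyu] at hcross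
      simp only [Complex.mul_re, Complex.mul_im, Complex.ofReal_re, Complex.ofReal_im, e_re, e_im,
        zero_mul, sub_zero, add_zero] at hcross
      have h5 : R * Real.cos v * (R * Real.sin u) - R * Real.sin v * (R * Real.cos u)
          = R ^ 2 * Real.sin (u - v) := by
        rw [Real.sin_sub]
        ring
      rw [h5] at hcross
      exact nonneg_of_mul_nonneg_right hcross (by positivity)
  simp only [mem_iUnion]
  exact ⟨x, hx, y, hy, (v, u), ⟨hmem, hv, hu⟩, hphi⟩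

/-- The measure of one image. -/
lemma image_le {V W : Finset ℂ} {R : ℝ} (γ : ℝ) (x y : ℂ) :
    volume (phi R γ x y '' (S V W R γ x y ∩ (Ico 0 (2 * Real.pi) ×ˢ Ico 0 (2 * Real.pi)))) ≤
      ∫⁻ v in Ico 0 (2 * Real.pi), ∫⁻ u in Ico 0 (2 * Real.pi),
        dens V W R x y v (u - γ) (u - v) := by
  set I : Set (ℝ × ℝ) := Ico 0 (2 * Real.pi) ×ˢ Ico 0 (2 * Real.pi) with hI
  have hIm : MeasurableSet I := measurableSet_Ico.prod measurableSet_Ico
  have hS := measurableSet_S V W R γ x y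
  have hd : ∀ p ∈ S V W R γ x y ∩ I, HasFDerivWithinAt (phi R γ x y)
      (Pool.Agent.Helper16.DK.fd (-(R * Pool.Agent.Helper16.DK.e' p.1))
        (R * Pool.Agent.Helper16.DK.e' p.2)) (S V W R γ x y ∩ I) p := by
    intro p _
    have h1 : HasFDerivAt (fun p : ℝ × ℝ => e p.1)
        ((ContinuousLinearMap.toSpanSingleton ℝ (Pool.Agent.Helper16.DK.e' p.1)).comp
          (ContinuousLinearMap.fst ℝ ℝ ℝ)) p :=
      (Pool.Agent.Helper16.DK.hasDerivAt_e p.1).hasFDerivAt.comp p hasFDerivAt_fst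
    have h2 : HasFDerivAt (fun p : ℝ × ℝ => e p.2)
        ((ContinuousLinearMap.toSpanSingleton ℝ (Pool.Agent.Helper16.DK.e' p.2)).comp
          (ContinuousLinearMap.snd ℝ ℝ ℝ)) p :=
      (Pool.Agent.Helper16.DK.hasDerivAt_e p.2).hasFDerivAt.comp p hasFDerivAt_snd
    have h3 := (((h1.const_mul (R : ℂ)).const_sub x).sub_const (e γ * y)).add
      (h2.const_mul (R : ℂ))
    refine (h3.congr_fderiv ?_).hasFDerivWithinAt
    ext
    · simp [Pool.Agent.Helper16.DK.fd]
    · simp [Pool.Agent.Helper16.DK.fd]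
  refine (Pool.Agent.Helper16.DK.volume_image_le (hS.inter hIm) (phi R γ x y) _ _ hd).trans_eq ?_
  have h4 : ∀ p ∈ S V W R γ x y ∩ I, ENNReal.ofReal |Pool.Agent.Helper16.DK.cr
      (-(R * Pool.Agent.Helper16.DK.e' p.1)) (R * Pool.Agent.Helper16.DK.e' p.2)|
      = ENNReal.ofReal (R ^ 2 * Real.sin (p.2 - p.1)) := by
    intro p hp
    have h5 : Pool.Agent.Helper16.DK.cr
        (-(R * Pool.Agent.Helper16.DK.e' p.1)) (R * Pool.Agent.Helper16.DK.e' p.2)
        = -(R ^ 2 * Real.sin (p.2 - p.1)) := by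
      simp only [Pool.Agent.Helper16.DK.cr, Complex.neg_re, Complex.neg_im, Complex.mul_re,
        Complex.mul_im, Complex.ofReal_re, Complex.ofReal_im, Pool.Agent.Helper16.DK.e'_re,
        Pool.Agent.Helper16.DK.e'_im]
      rw [Real.sin_sub]
      ring
    rw [h5, abs_neg, abs_of_nonneg (mul_nonneg (sq_nonneg _) hp.1.2.2)]
  have hf : Measurable fun p : ℝ × ℝ => ENNReal.ofReal (R ^ 2 * Real.sin (p.2 - p.1)) := by
    fun_prop
  rw [setLIntegral_congr_fun (hS.inter hIm) h4, ← setLIntegral_indicator hS, hI,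
    Measure.volume_eq_prod, ← Measure.prod_restrict, lintegral_prod _
      ((hf.indicator hS).aemeasurable)]
  refine setLIntegral_congr_fun measurableSet_Ico fun v _ => ?_
  refine setLIntegral_congr_fun measurableSet_Ico fun u _ => ?_
  simp only [dens]
  have h6 := disjoint_iff' (V := V) (W := W) (R := R) (γ := γ) (x := x) (y := y) (v, u)
  simp only at h6
  by_cases hc : v ∈ st V R x ∧ u - γ ∈ st W R y ∧
      Disjoint (pl V R x v) (rot (u - v) (pl W R y (u - γ)))
  · rw [if_pos hc]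
    by_cases hs : 0 ≤ Real.sin (u - v)
    · rw [Set.indicator_of_mem]
      exact ⟨⟨hc.1, hc.2.1⟩, h6.1 hc.2.2, hs⟩
    · rw [Set.indicator_of_notMem (fun hm => hs hm.2.2), eq_comm, ENNReal.ofReal_eq_zero]
      push Not at hs
      exact mul_nonpos_of_nonneg_of_nonpos (sq_nonneg _) hs.le
  · rw [if_neg hc, Set.indicator_of_notMem]
    intro hm
    exact hc ⟨hm.1.1, hm.1.2, h6.2 hm.2.1⟩

end Kin

theorem kin_le {V W : Finset ℂ} {R : ℝ} (hR : 0 < R) (hV : V.Nonempty) (hW : W.Nonempty)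
    (hNC : ∀ (γ : ℝ) (τ : ℂ), Disjoint (hull V) (mov γ τ (hull W)) →
      ¬ (ctr V R ⊆ ctr (mov γ τ W) R) ∧ ¬ (ctr (mov γ τ W) R ⊆ ctr V R)) (γ : ℝ) :
    volume {τ : ℂ | Disjoint (hull V) (mov γ τ (hull W)) ∧
      ∃ c : ℂ, (∀ x ∈ V, ‖x - c‖ < R) ∧ ∀ y ∈ W, ‖e γ * y + τ - c‖ < R} ≤
    ∑ x ∈ V, ∑ y ∈ W, ∫⁻ v in Ico 0 (2 * Real.pi), ∫⁻ u in Ico 0 (2 * Real.pi),
      dens V W R x y v (u - γ) (u - v) := by
  refine (measure_mono (Kin.cover hR hNC γ)).trans ?_
  refine (measure_biUnion_finset_le _ _).trans (Finset.sum_le_sum fun x _ => ?_)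
  refine (measure_biUnion_finset_le _ _).trans (Finset.sum_le_sum fun y _ => ?_)
  exact Kin.image_le γ x y

end Pool.Agent.Helper79.MI
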