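import Pool.Agent.Helper79.MI.Supp

/-!
# A8: the total measure of the states is at most the perimeter of the set of the centres

`A = ctr V R` is compact, nonempty (`0 ∈ A`), `h = supportFn A`. For `δ = 2π/N` (`N ≥ 5`) let
`ℓ(θ) = (h(θ+δ) + h(θ-δ) - 2 cos δ h(θ))/sin δ ≥ 0` (`supp_sublin`). `∫_0^{2π} ℓ = 2 tan(δ/2) perimeter A`.
If `v ∈ st V R x` then `O = x - R e v ∈ A` and every `z ∈ A` has `|z - x| ≤ R`, so
`h(v + π) = ip O (e (v+π)) = R - ip x (e v)`. Hence if `v - δ, v, v + δ ∈ st V R x` then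
`ℓ(v + π) = R (2 - 2 cos δ)/sin δ = 2 R tan(δ/2)`. The sets `st V R x` (`x ∈ V`) are pairwise disjoint up
to null sets: `v ∈ st V R x ∩ st V R x'` implies `ip x (e v) = ip x' (e v)`. So
`perimeter A ≥ R ∑_x vol {v ∈ [0,2π) | v - δ, v, v + δ ∈ st V R x}`. As `N → ∞` the volume on the right
tends to `vol (st V R x ∩ [0, 2π))` (`st V R x` is closed and its boundary is finite in each period:
it is a finite intersection of sets `{v | ‖y - x + R e v‖ ≤ R}`, which are closed arcs; or use the
continuity of translations in `L^1`, or dominated convergence on the interior).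
-/

namespace Pool.Agent.Helper79.MI

open Pool.Agent.Helper16.Disk7 Pool.Agent.Helper57.CW MeasureTheory Metric Complex Set
open scoped ENNReal Pointwise

private lemma norm_le_iff {x y : ℂ} {R v : ℝ} (hR : 0 < R) :
    ‖y - (x - R * e v)‖ ≤ R ↔ ‖y - x‖ ^ 2 + 2 * R * ip (y - x) (e v) ≤ 0 := by
  have h1 : y - (x - R * e v) = (y - x) - ((-R : ℝ) : ℂ) * e v := by
    push_cast; ring
  have h2 := sq_norm_sub (y - x) (-R) v
  rw [← h1] at h2
  constructor
  · intro h
    have h3 : ‖y - (x - R * e v)‖ ^ 2 ≤ R ^ 2 := pow_le_pow_left₀ (norm_nonneg _) h 2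
    rw [h2] at h3
    linarith
  · intro h
    have h3 : ‖y - (x - R * e v)‖ ^ 2 ≤ R ^ 2 := by
      rw [h2]; linarith
    exact (pow_le_pow_iff_left₀ (norm_nonneg _) hR.le two_ne_zero).1 h3

private lemma null_ip {c : ℂ} (hc : c ≠ 0) (κ : ℝ) : volume {v : ℝ | ip c (e v) = κ} = 0 := by
  have hn : 0 < ‖c‖ := norm_pos_iff.2 hc
  obtain ⟨φ, hφ⟩ := exists_e (c / ‖c‖) (by
    rw [norm_div, Complex.norm_real, norm_norm, div_self hn.ne'])
  have hce : c = (‖c‖ : ℂ) * e φ := by
    rw [← hφ, mul_div_cancel₀]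
    exact_mod_cast hn.ne'
  have hip : ∀ v, ip c (e v) = ‖c‖ * Real.cos (φ - v) := by
    intro v
    conv_lhs => rw [hce]
    rw [ip_smul, ip_e_e]
  refine Set.Countable.measure_zero ?_ _
  by_cases hne : ∃ v0 : ℝ, ip c (e v0) = κ
  · obtain ⟨v0, hv0⟩ := hne
    have hsub : {v : ℝ | ip c (e v) = κ} ⊆
        ⋃ k : ℤ, ({φ - (2 * k * Real.pi + (φ - v0)), φ - (2 * k * Real.pi - (φ - v0))} : Set ℝ) := by
      intro v hv
      rw [Set.mem_ofPred_eq, ← hv0, hip, hip] at hv
      have h1 : Real.cos (φ - v0) = Real.cos (φ - v) := (mul_left_cancel₀ hn.ne' hv).symm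
      rw [Real.cos_eq_cos_iff] at h1
      obtain ⟨k, hk | hk⟩ := h1
      · refine Set.mem_iUnion.2 ⟨k, Or.inl ?_⟩
        linarith
      · refine Set.mem_iUnion.2 ⟨k, Or.inr ?_⟩
        rw [Set.mem_singleton_iff]
        linarith
    exact (Set.countable_iUnion fun k => (Set.toFinite _).countable).mono hsub
  · push Not at hne
    have : {v : ℝ | ip c (e v) = κ} = ∅ := by
      ext v
      simp [hne v]
    rw [this]
    exact Set.countable_empty

/-- The interior part of the set of the directions. -/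
private def sti (V : Finset ℂ) (R : ℝ) (x : ℂ) : Set ℝ :=
  {v | ∀ y ∈ V, y ≠ x → ‖y - x‖ ^ 2 + 2 * R * ip (y - x) (e v) < 0}

private lemma mem_st_iff {V : Finset ℂ} {R : ℝ} (hR : 0 < R) {x : ℂ} {v : ℝ} :
    v ∈ st V R x ↔ ∀ y ∈ V, ‖y - x‖ ^ 2 + 2 * R * ip (y - x) (e v) ≤ 0 := by
  constructor
  · intro h y hy
    exact (norm_le_iff hR).1 (h y hy)
  · intro h y hy
    exact (norm_le_iff hR).2 (h y hy)

private lemma sti_sub {V : Finset ℂ} {R : ℝ} (hR : 0 < R) (x : ℂ) : sti V R x ⊆ st V R x := by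
  intro v hv
  rw [mem_st_iff hR]
  intro y hy
  by_cases h : y = x
  · subst h
    simp [ip_eq]
  · exact (hv y hy h).le

private lemma continuous_ip_e (c : ℂ) : Continuous fun v : ℝ => ip c (e v) := by
  simp only [ip_e]
  fun_prop

private lemma isOpen_sti (V : Finset ℂ) (R : ℝ) (x : ℂ) : IsOpen (sti V R x) := by
  have h1 : sti V R x = ⋂ y ∈ V.filter (fun y => y ≠ x),
      {v : ℝ | ‖y - x‖ ^ 2 + 2 * R * ip (y - x) (e v) < 0} := by
    ext v
    simp only [sti, Set.mem_ofPred_eq, Set.mem_iInter, Finset.mem_filter, and_imp]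
  rw [h1]
  refine isOpen_biInter_finset fun y _ => ?_
  refine isOpen_lt ?_ continuous_const
  exact continuous_const.add (continuous_const.mul (continuous_ip_e _))

private lemma null_diff {V : Finset ℂ} {R : ℝ} (hR : 0 < R) (x : ℂ) :
    volume (st V R x \ sti V R x) = 0 := by
  have h1 : st V R x \ sti V R x ⊆ ⋃ y ∈ V.filter (fun y => y ≠ x),
      {v : ℝ | ip (y - x) (e v) = -‖y - x‖ ^ 2 / (2 * R)} := by
    rintro v ⟨hv, hv'⟩
    rw [mem_st_iff hR] at hv
    simp only [sti, Set.mem_ofPred_eq, not_forall, not_lt] at hv'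
    obtain ⟨y, hy, hyx, h2⟩ := hv'
    have h3 : ‖y - x‖ ^ 2 + 2 * R * ip (y - x) (e v) = 0 := le_antisymm (hv y hy) h2
    simp only [Set.mem_iUnion]
    refine ⟨y, Finset.mem_filter.2 ⟨hy, hyx⟩, ?_⟩
    rw [Set.mem_ofPred_eq, eq_div_iff (by positivity)]
    linarith
  refine measure_mono_null h1 ?_
  refine (measure_biUnion_null_iff (Finset.countable_toSet (V.filter (fun y => y ≠ x)))).2 ?_
  intro y hy
  exact null_ip (sub_ne_zero.2 (Finset.mem_filter.1 hy).2) _

private lemma vol_sti {V : Finset ℂ} {R : ℝ} (hR : 0 < R) (x : ℂ) (I : Set ℝ) :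
    volume (st V R x ∩ I) ≤ volume (sti V R x ∩ I) := by
  have h1 : st V R x ∩ I ⊆ (sti V R x ∩ I) ∪ (st V R x \ sti V R x) := by
    rintro v ⟨h1, h2⟩
    by_cases h3 : v ∈ sti V R x
    · exact Or.inl ⟨h3, h2⟩
    · exact Or.inr ⟨h1, h3⟩
  refine (measure_mono h1).trans ((measure_union_le _ _).trans ?_)
  rw [null_diff hR, add_zero]

private lemma sti_disj {V : Finset ℂ} {R : ℝ} {x x' : ℂ} (hx : x ∈ V) (hx' : x' ∈ V)
    (hne : x ≠ x') : Disjoint (sti V R x) (sti V R x') := by
  rw [Set.disjoint_left]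
  intro v h1 h2
  have h3 := h1 x' hx' hne.symm
  have h4 := h2 x hx hne
  have h5 : ip (x - x') (e v) = -ip (x' - x) (e v) := by
    rw [ip_sub_left, ip_sub_left]; ring
  have h6 : ‖x - x'‖ = ‖x' - x‖ := norm_sub_rev _ _
  rw [h5, h6] at h4
  nlinarith [sq_nonneg ‖x' - x‖]

private lemma supp_of_st {V : Finset ℂ} {R : ℝ} {x : ℂ} (hx : x ∈ V)
    {v : ℝ} (hv : v ∈ st V R x) :
    supportFn (ctr (V : Set ℂ) R) (v + Real.pi) = R - ip x (e v) := by
  have hVn : (V : Set ℂ).Nonempty := ⟨x, hx⟩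
  have hA : IsCompact (ctr (V : Set ℂ) R) := isCompact_ctr hVn R
  have hO : x - R * e v ∈ ctr (V : Set ℂ) R := fun y hy => hv y hy
  apply le_antisymm
  · refine supp_le hA ⟨_, hO⟩ fun z hz => ?_
    have h1 : ‖x - z‖ ≤ R := hz x hx
    have h2 := ip_le_norm (x - z) (e v) (norm_e v)
    rw [ip_sub_left] at h2
    rw [e_add_pi, ip_neg_right]
    linarith
  · have h1 := ip_le_supp hA hO (v + Real.pi)
    rw [e_add_pi, ip_neg_right, ip_sub_left, ip_smul, ip_e_e, sub_self, Real.cos_zero] at h1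
    linarith

/-- The normalised second difference. -/
private noncomputable def sd (h : ℝ → ℝ) (δ v : ℝ) : ℝ :=
  (h (v + Real.pi + δ) + h (v + Real.pi - δ) - 2 * Real.cos δ * h (v + Real.pi))
    / (2 * (1 - Real.cos δ))

private lemma cos_lt_one' {δ : ℝ} (h0 : 0 < δ) (h1 : δ ≤ 1) : Real.cos δ < 1 := by
  have := Real.cos_lt_cos_of_nonneg_of_le_pi (x := 0) (y := δ) le_rfl
    (by linarith [Real.pi_gt_three]) h0
  rwa [Real.cos_zero] at this

private lemma sd_nonneg {K : Set ℂ} (hc : IsCompact K) (hne : K.Nonempty) {δ : ℝ} (h0 : 0 < δ)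
    (h1 : δ ≤ 1) (v : ℝ) : 0 ≤ sd (supportFn K) δ v := by
  have hcos := cos_lt_one' h0 h1
  have hπ := Real.pi_gt_three
  unfold sd
  refine div_nonneg ?_ (by linarith)
  have h2 := supp_sublin hc hne (θ1 := v + Real.pi - δ) (θ2 := v + Real.pi)
    (θ3 := v + Real.pi + δ) (by linarith) (by linarith) (by linarith)
  have e1 : v + Real.pi + δ - (v + Real.pi - δ) = 2 * δ := by ring
  have e2 : v + Real.pi + δ - (v + Real.pi) = δ := by ring
  have e3 : v + Real.pi - (v + Real.pi - δ) = δ := by ring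
  rw [e1, e2, e3, Real.sin_two_mul] at h2
  have hs : 0 < Real.sin δ := Real.sin_pos_of_pos_of_lt_pi h0 (by linarith)
  have h3 : 0 ≤ (supportFn K (v + Real.pi + δ) + supportFn K (v + Real.pi - δ)
      - 2 * Real.cos δ * supportFn K (v + Real.pi)) * Real.sin δ := by nlinarith
  exact nonneg_of_mul_nonneg_left h3 hs

private lemma sd_continuous {h : ℝ → ℝ} (hc : Continuous h) (δ : ℝ) :
    Continuous (sd h δ) := by
  unfold sd
  fun_prop

private lemma int_shift {h : ℝ → ℝ} (hp : Function.Periodic h (2 * Real.pi))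
    (c : ℝ) : ∫ v in (0 : ℝ)..(2 * Real.pi), h (v + c) = ∫ v in (0 : ℝ)..(2 * Real.pi), h v := by
  rw [intervalIntegral.integral_comp_add_right (fun v => h v) c]
  have h4 := hp.intervalIntegral_add_eq c 0
  rw [zero_add] at h4
  rw [zero_add, add_comm (2 * Real.pi) c]
  exact h4

private lemma int_sd {h : ℝ → ℝ} (hc : Continuous h) (hp : Function.Periodic h (2 * Real.pi))
    {δ : ℝ} (h0 : 0 < δ) (h1 : δ ≤ 1) :
    ∫ v in (0 : ℝ)..(2 * Real.pi), sd h δ v = ∫ v in (0 : ℝ)..(2 * Real.pi), h v := by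
  have hcos := cos_lt_one' h0 h1
  unfold sd
  rw [intervalIntegral.integral_div]
  have e1 : ∫ v in (0 : ℝ)..(2 * Real.pi), (h (v + Real.pi + δ) + h (v + Real.pi - δ)
      - 2 * Real.cos δ * h (v + Real.pi))
      = (∫ v in (0 : ℝ)..(2 * Real.pi), h (v + (Real.pi + δ)))
        + (∫ v in (0 : ℝ)..(2 * Real.pi), h (v + (Real.pi - δ)))
        - 2 * Real.cos δ * ∫ v in (0 : ℝ)..(2 * Real.pi), h (v + Real.pi) := by
    rw [intervalIntegral.integral_sub, intervalIntegral.integral_add,
      intervalIntegral.integral_const_mul]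
    · simp only [add_assoc, add_sub_assoc]
    · exact (by fun_prop : Continuous fun v => h (v + Real.pi + δ)).intervalIntegrable _ _
    · exact (by fun_prop : Continuous fun v => h (v + Real.pi - δ)).intervalIntegrable _ _
    · exact (by fun_prop : Continuous fun v =>
        h (v + Real.pi + δ) + h (v + Real.pi - δ)).intervalIntegrable _ _
    · exact (by fun_prop : Continuous fun v =>
        2 * Real.cos δ * h (v + Real.pi)).intervalIntegrable _ _
  rw [e1, int_shift hp, int_shift hp, int_shift hp]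
  have h2 : (2 * (1 - Real.cos δ)) ≠ 0 := by
    have : 0 < 1 - Real.cos δ := by linarith
    positivity
  rw [div_eq_iff h2]
  ring

private lemma sd_of_sti {V : Finset ℂ} {R : ℝ} (hR : 0 < R) {x : ℂ} (hx : x ∈ V) {v δ : ℝ}
    (h0 : 0 < δ) (h1 : δ ≤ 1)
    (hv : v ∈ sti V R x) (hv1 : v + δ ∈ sti V R x) (hv2 : v - δ ∈ sti V R x) :
    sd (supportFn (ctr (V : Set ℂ) R)) δ v = R := by
  have hcos := cos_lt_one' h0 h1
  have a1 := supp_of_st hx (sti_sub hR x hv)
  have a2 := supp_of_st hx (sti_sub hR x hv1)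
  have a3 := supp_of_st hx (sti_sub hR x hv2)
  have e1 : v + δ + Real.pi = v + Real.pi + δ := by ring
  have e2 : v - δ + Real.pi = v + Real.pi - δ := by ring
  rw [e1] at a2
  rw [e2] at a3
  unfold sd
  rw [a1, a2, a3]
  have h3 : ip x (e (v + δ)) + ip x (e (v - δ)) = 2 * Real.cos δ * ip x (e v) := by
    simp only [ip_e, Real.cos_add, Real.cos_sub, Real.sin_add, Real.sin_sub]
    ring
  rw [div_eq_iff (by
    have : 0 < 1 - Real.cos δ := by linarith
    positivity)]
  linarith

theorem mass_le {V : Finset ℂ} {R : ℝ} (hne : V.Nonempty) (hR : ∀ x ∈ V, ‖x‖ < R) :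
    R * (mass V R).toReal ≤ perimeter (ctr V R) := by
  obtain ⟨x0, hx0⟩ := id hne
  have hR0 : 0 < R := (norm_nonneg _).trans_lt (hR x0 hx0)
  have hVn : (V : Set ℂ).Nonempty := ⟨x0, hx0⟩
  set A : Set ℂ := ctr (V : Set ℂ) R with hAdef
  have hA : IsCompact A := isCompact_ctr hVn R
  have hA0 : (0 : ℂ) ∈ A := fun y hy => by
    rw [sub_zero]; exact (hR y hy).le
  have hAn : A.Nonempty := ⟨0, hA0⟩
  have hcont : Continuous (supportFn A) := supp_continuous hA hAn
  have hper : Function.Periodic (supportFn A) (2 * Real.pi) := supportFn_periodic A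
  have hpos : ∀ θ, 0 ≤ supportFn A θ := by
    intro θ
    have := ip_le_supp hA hA0 θ
    simpa [ip_eq] using this
  have hP0 : 0 ≤ perimeter A := by
    unfold perimeter
    exact intervalIntegral.integral_nonneg (by positivity) fun θ _ => hpos θ
  set δ : ℕ → ℝ := fun n => 1 / ((n : ℝ) + 1) with hδ
  have hδ0 : ∀ n, 0 < δ n := fun n => by positivity
  have hδ1 : ∀ n, δ n ≤ 1 := fun n => by
    rw [hδ]
    simp only
    rw [div_le_one (by positivity)]
    linarith [(Nat.cast_nonneg n : (0 : ℝ) ≤ n)]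
  have hδlim : Filter.Tendsto δ Filter.atTop (nhds 0) := tendsto_one_div_add_atTop_nhds_zero_nat
  set F : ℕ → ℝ → ℝ≥0∞ := fun n v => ENNReal.ofReal (sd (supportFn A) (δ n) v) with hF
  have hFm : ∀ n, Measurable (F n) := fun n =>
    (sd_continuous hcont (δ n)).measurable.ennreal_ofReal
  set I : Set ℝ := Ico 0 (2 * Real.pi) with hI
  have hint : ∀ n, ∫⁻ v in I, F n v = ENNReal.ofReal (perimeter A) := by
    intro n
    have h1 : ∫ v in I, sd (supportFn A) (δ n) v = perimeter A := by
      rw [hI, integral_Ico_eq_integral_Ioc, ← intervalIntegral.integral_of_le (by positivity),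
        int_sd hcont hper (hδ0 n) (hδ1 n)]
      rfl
    rw [← h1, hF, ofReal_integral_eq_lintegral_ofReal]
    · exact ((sd_continuous hcont (δ n)).integrableOn_Icc (a := 0) (b := 2 * Real.pi)).mono_set
        Ico_subset_Icc_self
    · exact Filter.Eventually.of_forall fun v => sd_nonneg hA hAn (hδ0 n) (hδ1 n) v
  set U : Set ℝ := ⋃ x ∈ V, sti V R x with hU
  have hUm : MeasurableSet U :=
    Finset.measurableSet_biUnion V fun x _ => (isOpen_sti V R x).measurableSet
  have hlim : ∀ v, U.indicator (fun _ => ENNReal.ofReal R) v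
      ≤ Filter.liminf (fun n => F n v) Filter.atTop := by
    intro v
    by_cases hv : v ∈ U
    · rw [Set.indicator_of_mem hv]
      rw [hU, Set.mem_iUnion₂] at hv
      obtain ⟨x, hx, hvx⟩ := hv
      have hnb : sti V R x ∈ nhds v := (isOpen_sti V R x).mem_nhds hvx
      have t1 : Filter.Tendsto (fun n => v + δ n) Filter.atTop (nhds v) := by
        simpa using tendsto_const_nhds.add hδlim
      have t2 : Filter.Tendsto (fun n => v - δ n) Filter.atTop (nhds v) := by
        simpa using tendsto_const_nhds.sub hδlim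
      have hev : ∀ᶠ n in Filter.atTop, ENNReal.ofReal R = F n v := by
        filter_upwards [t1.eventually hnb, t2.eventually hnb] with n h1 h2
        rw [hF]
        simp only
        rw [sd_of_sti hR0 hx (hδ0 n) (hδ1 n) hvx h1 h2]
      have h3 : Filter.Tendsto (fun n => F n v) Filter.atTop (nhds (ENNReal.ofReal R)) :=
        tendsto_const_nhds.congr' hev
      rw [h3.liminf_eq]
    · rw [Set.indicator_of_notMem hv]
      exact zero_le
  have hfatou : ENNReal.ofReal R * volume (U ∩ I) ≤ ENNReal.ofReal (perimeter A) := by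
    calc ENNReal.ofReal R * volume (U ∩ I)
        = ∫⁻ v in I, U.indicator (fun _ => ENNReal.ofReal R) v := by
          rw [lintegral_indicator hUm, lintegral_const, Measure.restrict_restrict hUm,
            Measure.restrict_apply_univ]
      _ ≤ ∫⁻ v in I, Filter.liminf (fun n => F n v) Filter.atTop := lintegral_mono hlim
      _ ≤ Filter.liminf (fun n => ∫⁻ v in I, F n v) Filter.atTop := lintegral_liminf_le hFm
      _ = ENNReal.ofReal (perimeter A) := by
          simp only [hint]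
          exact Filter.liminf_const _
  have hmass : mass V R ≤ volume (U ∩ I) := by
    have h1 : U ∩ I = ⋃ x ∈ V, (sti V R x ∩ I) := by
      rw [hU, Set.iUnion₂_inter]
    rw [h1, measure_biUnion_finset]
    · exact Finset.sum_le_sum fun x _ => vol_sti hR0 x I
    · intro x hx y hy hxy
      exact (sti_disj hx hy hxy).mono Set.inter_subset_left Set.inter_subset_left
    · intro x _
      exact (isOpen_sti V R x).measurableSet.inter measurableSet_Ico
  have h1 : ENNReal.ofReal R * mass V R ≤ ENNReal.ofReal (perimeter A) :=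
    (mul_le_mul_right hmass _).trans hfatou
  have h2 := ENNReal.toReal_mono ENNReal.ofReal_ne_top h1
  rwa [ENNReal.toReal_mul, ENNReal.toReal_ofReal hR0.le, ENNReal.toReal_ofReal hP0] at h2

end Pool.Agent.Helper79.MI
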