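import Pool.Agent.Helper79.MI.LeKin
import Pool.Agent.Helper79.MI.Kin
import Pool.Agent.Helper79.MI.DensChange
import Pool.Agent.Helper79.MI.Mass

/-!
# C1: the mean value inequality

B4 + B2 + B3 + A8 + A7, see /team-store/h79_Pk.md.
-/

namespace Pool.Agent.Helper79.MI

open Pool.Agent.Helper16.Disk7 Pool.Agent.Helper57.CW MeasureTheory Metric Complex Set
open scoped ENNReal Pointwise

/-- The integrated kinematic inequality. -/
private lemma kin_int {V W : Finset ℂ} {R : ℝ} (hR : 0 < R) (hV : V.Nonempty) (hW : W.Nonempty)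
    (hNC : ∀ (γ : ℝ) (τ : ℂ), Disjoint (hull V) (mov γ τ (hull W)) →
      ¬ (ctr V R ⊆ ctr (mov γ τ W) R) ∧ ¬ (ctr (mov γ τ W) R ⊆ ctr V R)) :
    ∫⁻ γ in Ico 0 (2 * Real.pi), volume {τ : ℂ | Disjoint (hull V) (mov γ τ (hull W)) ∧
      ∃ c : ℂ, (∀ x ∈ V, ‖x - c‖ < R) ∧ ∀ y ∈ W, ‖e γ * y + τ - c‖ < R} ≤
    ENNReal.ofReal (R ^ 2) * ∑ x ∈ V, ∑ y ∈ W, ∫⁻ v in st V R x ∩ Ico 0 (2 * Real.pi),
        ∫⁻ v' in st W R y ∩ Ico 0 (2 * Real.pi), gain V W R x v y v' := by
  refine (lintegral_mono fun γ => kin_le hR hV hW hNC γ).trans (le_of_eq ?_)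
  have hm : ∀ x y : ℂ, Measurable fun γ : ℝ => ∫⁻ v in Ico 0 (2 * Real.pi),
      ∫⁻ u in Ico 0 (2 * Real.pi), dens V W R x y v (u - γ) (u - v) := by
    intro x y
    refine Measurable.lintegral_prod_right' (f := fun q : ℝ × ℝ =>
      ∫⁻ u in Ico 0 (2 * Real.pi), dens V W R x y q.2 (u - q.1) (u - q.2)) ?_
    refine Measurable.lintegral_prod_right' (f := fun q : (ℝ × ℝ) × ℝ =>
      dens V W R x y q.1.2 (q.2 - q.1.1) (q.2 - q.1.2)) ?_
    exact (DC.measurable_dens V W R x y).comp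
      (f := fun q : (ℝ × ℝ) × ℝ => (q.1.2, q.2 - q.1.1, q.2 - q.1.2)) (by fun_prop)
  rw [lintegral_finsetSum' _ fun x _ => (Finset.measurable_sum _ fun y _ => hm x y).aemeasurable,
    Finset.mul_sum]
  refine Finset.sum_congr rfl fun x _ => ?_
  rw [lintegral_finsetSum' _ fun y _ => (hm x y).aemeasurable, Finset.mul_sum]
  exact Finset.sum_congr rfl fun y _ => dens_change hV hW x y

private lemma mass_ne_top (V : Finset ℂ) (R : ℝ) : mass V R ≠ ∞ := by
  rw [mass]
  refine (ENNReal.sum_lt_top.2 fun x _ => ?_).ne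
  refine lt_of_le_of_lt (measure_mono Set.inter_subset_right) ?_
  rw [Real.volume_Ico]
  exact ENNReal.ofReal_lt_top

/-- The arithmetic of the numerator. -/
private lemma arith {d X Y p q a b P Q : ℝ} (hd : 2 ≤ d ^ 2) (hd0 : 0 < d)
    (hp0 : 0 ≤ p) (hq0 : 0 ≤ q) (hp : p ≤ 2 * Real.pi) (hq : q ≤ 2 * Real.pi)
    (hX : X = 2 * Real.pi * (1 + d) - p) (hY : Y = 2 * Real.pi * (1 + d) - q)
    (ha : a ≤ X) (hb : b ≤ Y) (hP0 : 0 ≤ P) (hQ0 : 0 ≤ Q) (hP : P ≤ a) (hQ : Q ≤ b) :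
    (2 - 2 / d ^ 2) * (P * Q) ≤ X * Y - 2 * p * q + a * b := by
  have hπ := Real.pi_pos
  have hX1 : 2 * Real.pi * d ≤ X := by rw [hX]; linarith
  have hY1 : 2 * Real.pi * d ≤ Y := by rw [hY]; linarith
  have hd2 : 0 < d ^ 2 := by positivity
  have h1 : p * q ≤ (2 * Real.pi) * (2 * Real.pi) := mul_le_mul hp hq hq0 (by positivity)
  have h2 : (2 * Real.pi * d) * (2 * Real.pi * d) ≤ X * Y :=
    mul_le_mul hX1 hY1 (by positivity) (le_trans (by positivity) hX1)
  have h3 : P * Q ≤ a * b := mul_le_mul hP hQ hQ0 (hP0.trans hP)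
  have h4 : a * b ≤ X * Y := mul_le_mul ha hb (hQ0.trans hQ) (le_trans (by positivity) hX1)
  -- `2 p q ≤ (2 / d²) X Y`
  have h5 : 2 * p * q ≤ 2 / d ^ 2 * (X * Y) := by
    rw [div_mul_eq_mul_div, le_div_iff₀ hd2]
    nlinarith
  have h6 : 0 ≤ 1 - 2 / d ^ 2 := by
    rw [sub_nonneg, div_le_one hd2]
    exact hd
  have h7 : (1 - 2 / d ^ 2) * (P * Q) ≤ (1 - 2 / d ^ 2) * (X * Y) :=
    mul_le_mul_of_nonneg_left (h3.trans h4) h6
  linarith

theorem mean_gain {V W : Finset ℂ} {R d : ℝ} (hRd : R = 1 + d) (hd : 2 ≤ d ^ 2) (hd0 : 0 < d)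
    (hV : 0 ∈ interior (hull V)) (hW : 0 ∈ interior (hull W))
    (hVR : ∀ x ∈ V, ‖x‖ < R) (hWR : ∀ x ∈ W, ‖x‖ < R)
    (hVp : perimeter (hull V) ≤ 2 * Real.pi) (hWp : perimeter (hull W) ≤ 2 * Real.pi)
    (hNC : ∀ (γ : ℝ) (τ : ℂ), Disjoint (hull V) (mov γ τ (hull W)) →
      ¬ (ctr V R ⊆ ctr (mov γ τ W) R) ∧ ¬ (ctr (mov γ τ W) R ⊆ ctr V R)) :
    ENNReal.ofReal (2 - 2 / d ^ 2) * mass V R * mass W R ≤
      ∑ x ∈ V, ∑ y ∈ W, ∫⁻ v in st V R x ∩ Ico 0 (2 * Real.pi),
        ∫⁻ v' in st W R y ∩ Ico 0 (2 * Real.pi), gain V W R x v y v' ∧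
    0 < mass V R ∧ 0 < mass W R := by
  have hR : 0 < R := by rw [hRd]; linarith
  have hne : ∀ U : Finset ℂ, 0 ∈ interior (hull U) → U.Nonempty := by
    intro U hU
    rw [Finset.nonempty_iff_ne_empty]
    rintro rfl
    simp [hull] at hU
  have hVn := hne V hV
  have hWn := hne W hW
  have hball : ∀ U : Finset ℂ, (∀ x ∈ U, ‖x‖ < R) → hull U ⊆ ball 0 R := by
    intro U hU
    refine convexHull_min (fun x hx => ?_) (convex_ball 0 R)
    simpa using hU x hx
  have hHn : ∀ U : Finset ℂ, 0 ∈ interior (hull U) → (hull U).Nonempty :=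
    fun U hU => ⟨0, interior_subset hU⟩
  -- perimeters
  have hper0 : ∀ U : Finset ℂ, 0 ∈ interior (hull U) → 0 ≤ perimeter (hull U) := by
    intro U hU
    obtain ⟨r, hr, -, h⟩ := supp_pos (isCompact_hull U) hU
    exact intervalIntegral.integral_nonneg (by positivity) fun θ _ => hr.le.trans (h θ)
  have hA : ∀ U : Finset ℂ, U.Nonempty → (∀ x ∈ U, ‖x‖ < R) → 0 ∈ interior (hull U) →
      perimeter (ctr U R) ≤ 2 * Real.pi * R - perimeter (hull U) := by
    intro U hUn hUR hU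
    have := perimeter_ctr_le (isCompact_hull U) (hHn U hU) (hball U hUR)
    rwa [ctr_hull] at this
  have hApos : ∀ U : Finset ℂ, U.Nonempty → (∀ x ∈ U, ‖x‖ < R) → 0 < perimeter (ctr U R) := by
    intro U hUn hUR
    have hUn' : (U : Set ℂ).Nonempty := by simpa using hUn
    obtain ⟨x0, hx0, hmax⟩ := Finset.exists_max_image U (fun x => ‖x‖) hUn
    have hr : 0 < R - ‖x0‖ := by linarith [hUR x0 hx0]
    have h1 : closedBall (0 : ℂ) (R - ‖x0‖) ⊆ ctr U R := by
      intro z hz x hx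
      rw [mem_closedBall, dist_zero_right] at hz
      have := norm_sub_le x z
      have := hmax x hx
      linarith
    have hc := isCompact_ctr hUn' R
    have h2 : ∀ θ, R - ‖x0‖ ≤ supportFn (ctr U R) θ := by
      intro θ
      have := supp_ge_of_ball hc hr.le h1 θ
      simpa [ip_eq] using this
    have h3 : ∫ θ in (0 : ℝ)..(2 * Real.pi), (R - ‖x0‖) ≤ perimeter (ctr U R) := by
      refine intervalIntegral.integral_mono_on (by positivity) (by simp) ?_ fun θ _ => h2 θ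
      exact (supp_continuous hc ⟨0, h1 (by simp [hr.le])⟩).intervalIntegrable _ _
    rw [intervalIntegral.integral_const] at h3
    have h4 : 0 < (2 * Real.pi - 0) • (R - ‖x0‖) := by
      rw [smul_eq_mul, sub_zero]; positivity
    linarith
  set S : ℝ≥0∞ := ∑ x ∈ V, ∑ y ∈ W, ∫⁻ v in st V R x ∩ Ico 0 (2 * Real.pi),
        ∫⁻ v' in st W R y ∩ Ico 0 (2 * Real.pi), gain V W R x v y v' with hS
  have key := (le_kin hV hW hVR hWR).trans (kin_int hR hVn hWn hNC)
  rw [← hS] at key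
  have hmV := mass_le hVn hVR
  have hmW := mass_le hWn hWR
  have hm0 : ∀ U : Finset ℂ, 0 ≤ R * (mass U R).toReal := fun U =>
    mul_nonneg hR.le ENNReal.toReal_nonneg
  have har := arith (d := d) (X := 2 * Real.pi * R - perimeter (hull V))
    (Y := 2 * Real.pi * R - perimeter (hull W)) hd hd0 (hper0 V hV) (hper0 W hW) hVp hWp
    (by rw [hRd]) (by rw [hRd]) (hA V hVn hVR hV) (hA W hWn hWR hW) (hm0 V) (hm0 W) hmV hmW
  have h22 : 0 ≤ 2 - 2 / d ^ 2 := by
    have hd2 : 0 < d ^ 2 := by positivity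
    have : 2 / d ^ 2 ≤ 1 := by
      rw [div_le_one hd2]; exact hd
    linarith
  constructor
  · have h1 : ENNReal.ofReal (R ^ 2) * (ENNReal.ofReal (2 - 2 / d ^ 2) * mass V R * mass W R)
        ≤ ENNReal.ofReal (R ^ 2) * S := by
      refine le_trans ?_ key
      have e1 : mass V R = ENNReal.ofReal (mass V R).toReal :=
        (ENNReal.ofReal_toReal (mass_ne_top V R)).symm
      have e2 : mass W R = ENNReal.ofReal (mass W R).toReal :=
        (ENNReal.ofReal_toReal (mass_ne_top W R)).symm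
      rw [e1, e2, ← ENNReal.ofReal_mul h22, ← ENNReal.ofReal_mul (by positivity),
        ← ENNReal.ofReal_mul (by positivity)]
      apply ENNReal.ofReal_le_ofReal
      refine le_trans (le_of_eq ?_) har
      ring
    have hR2 : ENNReal.ofReal (R ^ 2) ≠ 0 := by
      rw [Ne, ENNReal.ofReal_eq_zero, not_le]; positivity
    exact (ENNReal.mul_le_mul_iff_right hR2 ENNReal.ofReal_ne_top).1 h1
  · -- positivity
    have hnum : 0 < (2 * Real.pi * R - perimeter (hull V)) *
        (2 * Real.pi * R - perimeter (hull W)) - 2 * perimeter (hull V) * perimeter (hull W)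
        + perimeter (ctr V R) * perimeter (ctr W R) := by
      have h1 := arith (d := d) (X := 2 * Real.pi * R - perimeter (hull V))
        (Y := 2 * Real.pi * R - perimeter (hull W)) (a := 0) (b := 0) (P := 0) (Q := 0)
        hd hd0 (hper0 V hV) (hper0 W hW) hVp hWp
        (by rw [hRd]) (by rw [hRd]) (le_trans (hApos V hVn hVR).le (hA V hVn hVR hV))
        (le_trans (hApos W hWn hWR).le (hA W hWn hWR hW)) le_rfl le_rfl le_rfl le_rfl
      have h2 := mul_pos (hApos V hVn hVR) (hApos W hWn hWR)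
      linarith
    have hSpos : 0 < S := by
      rcases eq_or_ne S 0 with h0 | h0
      · rw [h0, mul_zero] at key
        have := ENNReal.ofReal_eq_zero.1 (le_antisymm key zero_le)
        linarith
      · exact pos_iff_ne_zero.2 h0
    constructor
    · rw [pos_iff_ne_zero]
      intro h0
      apply hSpos.ne'
      rw [hS]
      have h1 : ∀ x ∈ V, volume (st V R x ∩ Ico 0 (2 * Real.pi)) = 0 := by
        intro x hx
        exact (Finset.sum_eq_zero_iff.1 h0) x hx
      refine Finset.sum_eq_zero fun x hx => Finset.sum_eq_zero fun y _ => ?_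
      rw [Measure.restrict_eq_zero.2 (h1 x hx), lintegral_zero_measure]
    · rw [pos_iff_ne_zero]
      intro h0
      apply hSpos.ne'
      rw [hS]
      have h1 : ∀ y ∈ W, volume (st W R y ∩ Ico 0 (2 * Real.pi)) = 0 := by
        intro y hy
        exact (Finset.sum_eq_zero_iff.1 h0) y hy
      refine Finset.sum_eq_zero fun x hx => Finset.sum_eq_zero fun y hy => ?_
      rw [Measure.restrict_eq_zero.2 (h1 y hy)]
      simp

end Pool.Agent.Helper79.MI
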