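import Mathlib

/-!
# C2: choice of the states (abstract form)

Product measure `Measure.pi μ` on `Fin k → S`. For each `i` (`i ≠ i + 1` as `k ≥ 2`), the integral of
`G i (s i) (s (i+1))` is `(∏_{j ≠ i, i+1} μ j univ) * ∫∫ G i ≥ c * ∏_j μ j univ` (the pair of
coordinates `i, i+1` has distribution `(μ i).prod (μ (i+1))` up to the factor; e.g. normalise to
probability measures and use independence `iIndepFun_pi`, or `MeasurableEquiv.piEquivPiSubtypeProd`).
Sum: `∫ ∑ G ≥ k c ∏ μ j univ > 0`. If almost every `s` had `∑ G < k c` (`k c < ∞`), the integral would be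
`< k c ∏ μ j univ`. So the set of `s` with `k c ≤ ∑ G` is not null, and the set of `s` with some
`s i ∈ E i` is null.
-/

namespace Pool.Agent.Helper79.MI

open MeasureTheory Metric Complex Set
open scoped ENNReal Pointwise

private theorem succ_ne26 {k : ℕ} [NeZero k] (hk : 2 ≤ k) (i : Fin k) : i ≠ i + 1 := by
  intro h
  have h1 : (1 : Fin k) = 0 := by
    have h2 : i + 1 = i := h.symm
    exact add_eq_left.1 h2
  rw [Fin.one_eq_zero_iff] at h1
  omega

/-- the law of two coordinates -/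
private theorem map_pair26 {k : ℕ} {S : Type} [MeasurableSpace S] (ν : Fin k → Measure S)
    [∀ i, IsProbabilityMeasure (ν i)] {i j : Fin k} (hij : i ≠ j) :
    Measure.map (fun s : Fin k → S => (s i, s j)) (Measure.pi ν) = (ν i).prod (ν j) := by
  have hm : Measurable (fun s : Fin k → S => (s i, s j)) :=
    (measurable_pi_apply i).prodMk (measurable_pi_apply j)
  symm
  refine Measure.prod_eq fun A B hA hB => ?_
  rw [Measure.map_apply hm (hA.prod hB)]
  have h1 : (fun s : Fin k → S => (s i, s j)) ⁻¹' (A ×ˢ B) =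
      Set.pi univ (fun l => if l = i then A else if l = j then B else univ) := by
    ext s
    rw [Set.mem_preimage, Set.mem_prod, Set.mem_univ_pi]
    constructor
    · rintro ⟨h2, h3⟩ l
      by_cases hl : l = i
      · rw [if_pos hl, hl]
        exact h2
      · rw [if_neg hl]
        by_cases hl' : l = j
        · rw [if_pos hl', hl']
          exact h3
        · rw [if_neg hl']
          exact mem_univ _
    · intro h2
      have h3 := h2 i
      have h4 := h2 j
      rw [if_pos rfl] at h3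
      rw [if_neg (Ne.symm hij), if_pos rfl] at h4
      exact ⟨h3, h4⟩
  rw [h1, Measure.pi_pi, ← Finset.mul_prod_erase _ _ (Finset.mem_univ i),
    ← Finset.mul_prod_erase _ _ (Finset.mem_erase.2 ⟨Ne.symm hij, Finset.mem_univ j⟩)]
  rw [if_pos rfl, if_neg (Ne.symm hij), if_pos rfl]
  have h2 : ∏ l ∈ (Finset.univ.erase i).erase j,
      ν l (if l = i then A else if l = j then B else univ) = 1 := by
    refine Finset.prod_eq_one fun l hl => ?_
    rw [Finset.mem_erase, Finset.mem_erase] at hl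
    rw [if_neg hl.2.1, if_neg hl.1]
    exact measure_univ
  rw [h2, mul_one]

private theorem cyclic_prob26 {k : ℕ} [NeZero k] (hk : 2 ≤ k) {S : Type} [MeasurableSpace S]
    (ν : Fin k → Measure S) [∀ i, IsProbabilityMeasure (ν i)]
    (G : Fin k → S → S → ℝ≥0∞) (hG : ∀ i, Measurable (Function.uncurry (G i))) {c : ℝ≥0∞}
    (hc : c ≠ ∞) (h : ∀ i, c ≤ ∫⁻ s, ∫⁻ t, G i s t ∂ν (i + 1) ∂ν i)
    (E : Fin k → Set S) (hE : ∀ i, ν i (E i) = 0) :
    ∃ s : Fin k → S, (∀ i, s i ∉ E i) ∧ k * c ≤ ∑ i, G i (s i) (s (i + 1)) := by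
  by_contra hno
  push Not at hno
  have hmeas : ∀ i, Measurable (fun s : Fin k → S => G i (s i) (s (i + 1))) := by
    intro i
    have hp : Measurable (fun s : Fin k → S => (s i, s (i + 1))) :=
      (measurable_pi_apply i).prodMk (measurable_pi_apply (i + 1))
    exact (hG i).comp hp
  have h1 : ∀ i, c ≤ ∫⁻ s, G i (s i) (s (i + 1)) ∂(Measure.pi ν) := by
    intro i
    have h2 : ∫⁻ s, G i (s i) (s (i + 1)) ∂(Measure.pi ν) =
        ∫⁻ p, Function.uncurry (G i) p ∂((ν i).prod (ν (i + 1))) := by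
      rw [← map_pair26 ν (succ_ne26 hk i), lintegral_map (hG i)
        ((measurable_pi_apply i).prodMk (measurable_pi_apply (i + 1)))]
      rfl
    rw [h2, lintegral_prod _ (hG i).aemeasurable]
    exact h i
  have h2 : (k : ℝ≥0∞) * c ≤ ∫⁻ s, ∑ i, G i (s i) (s (i + 1)) ∂(Measure.pi ν) := by
    rw [lintegral_finsetSum _ fun i _ => hmeas i]
    calc (k : ℝ≥0∞) * c = ∑ _i : Fin k, c := by simp
      _ ≤ _ := Finset.sum_le_sum fun i _ => h1 i
  have hae : ∀ᵐ s ∂(Measure.pi ν), ∑ i, G i (s i) (s (i + 1)) < k * c := by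
    have h3 : ∀ᵐ s ∂(Measure.pi ν), ∀ i, s i ∉ E i := by
      rw [ae_all_iff]
      intro i
      have h4 : Measure.pi ν ((fun s : Fin k → S => s i) ⁻¹' (E i)) = 0 :=
        (measurePreserving_eval ν i).quasiMeasurePreserving.preimage_null (hE i)
      rw [ae_iff]
      refine measure_mono_null ?_ h4
      intro s hs
      exact not_not.1 hs
    filter_upwards [h3] with s hs
    exact hno s hs
  have hkc : (k : ℝ≥0∞) * c ≠ ∞ := ENNReal.mul_ne_top (ENNReal.natCast_ne_top k) hc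
  have h3 : ∫⁻ _s, (k : ℝ≥0∞) * c ∂(Measure.pi ν) = k * c := by
    rw [lintegral_const, measure_univ, mul_one]
  have h4 : ∫⁻ s, ∑ i, G i (s i) (s (i + 1)) ∂(Measure.pi ν) ≠ ∞ := by
    refine ne_top_of_le_ne_top hkc ?_
    rw [← h3]
    exact lintegral_mono_ae (hae.mono fun s hs => hs.le)
  have h5 := lintegral_strict_mono (IsProbabilityMeasure.ne_zero (Measure.pi ν)) aemeasurable_const h4 hae
  rw [h3] at h5
  exact absurd h2 (not_le.2 h5)

theorem exists_cyclic {k : ℕ} [NeZero k] (hk : 2 ≤ k) {S : Type} [MeasurableSpace S]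
    (μ : Fin k → Measure S) [∀ i, IsFiniteMeasure (μ i)] (hμ : ∀ i, μ i ≠ 0)
    (G : Fin k → S → S → ℝ≥0∞) (hG : ∀ i, Measurable (Function.uncurry (G i))) {c : ℝ≥0∞}
    (hc : c ≠ ∞) (h : ∀ i, c * μ i univ * μ (i + 1) univ ≤ ∫⁻ s, ∫⁻ t, G i s t ∂μ (i + 1) ∂μ i)
    (E : Fin k → Set S) (hE : ∀ i, μ i (E i) = 0) :
    ∃ s : Fin k → S, (∀ i, s i ∉ E i) ∧ k * c ≤ ∑ i, G i (s i) (s (i + 1)) := by
  have hm0 : ∀ i, μ i univ ≠ 0 := fun i => by
    rw [Ne, Measure.measure_univ_eq_zero]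
    exact hμ i
  have hmt : ∀ i, μ i univ ≠ ∞ := fun i => measure_ne_top _ _
  let ν : Fin k → Measure S := fun i => (μ i univ)⁻¹ • μ i
  have : ∀ i, IsProbabilityMeasure (ν i) := fun i =>
    ⟨by
      show ((μ i univ)⁻¹ • μ i) univ = 1
      rw [Measure.smul_apply, smul_eq_mul]
      exact ENNReal.inv_mul_cancel (hm0 i) (hmt i)⟩
  refine cyclic_prob26 hk ν G hG hc (fun i => ?_) E (fun i => ?_)
  · have h1 : ∫⁻ s, ∫⁻ t, G i s t ∂ν (i + 1) ∂ν i =
        (μ i univ)⁻¹ * ((μ (i + 1) univ)⁻¹ * ∫⁻ s, ∫⁻ t, G i s t ∂μ (i + 1) ∂μ i) := by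
      show ∫⁻ s, ∫⁻ t, G i s t ∂((μ (i + 1) univ)⁻¹ • μ (i + 1)) ∂((μ i univ)⁻¹ • μ i) = _
      rw [lintegral_smul_measure, smul_eq_mul]
      congr 1
      rw [← lintegral_const_mul _ (hG i).lintegral_prod_right]
      refine lintegral_congr fun s => ?_
      rw [lintegral_smul_measure, smul_eq_mul]
    rw [h1]
    have h2 := h i
    calc c = (μ i univ)⁻¹ * ((μ (i + 1) univ)⁻¹ * (c * μ i univ * μ (i + 1) univ)) := by
          have h3 := ENNReal.inv_mul_cancel (hm0 i) (hmt i)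
          have h4 := ENNReal.inv_mul_cancel (hm0 (i + 1)) (hmt (i + 1))
          have h5 : (μ i univ)⁻¹ * ((μ (i + 1) univ)⁻¹ * (c * μ i univ * μ (i + 1) univ)) =
              ((μ i univ)⁻¹ * μ i univ) * ((μ (i + 1) univ)⁻¹ * μ (i + 1) univ) * c := by ring
          rw [h5, h3, h4, one_mul, one_mul]
      _ ≤ _ := by gcongr
  · show ((μ i univ)⁻¹ • μ i) (E i) = 0
    rw [Measure.smul_apply, hE i, smul_zero]

end Pool.Agent.Helper79.MI
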