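import Pool.Agent.Helper79.MI.Defs
import Pool.Agent.Helper79.MI.Cyclic

/-!
# C3: choice of the states

Apply C2 with `S = ℂ × ℝ` and `μ i = ∑ x ∈ V i`, the image of the restriction of the Lebesgue
measure to `st (V i) R x ∩ Ico 0 2π` under `v ↦ (x, v)` (total mass `mass (V i) R`, finite),
`G i (x,v) (y,v') = ∑ x' ∈ V i, ∑ y' ∈ V (i+1), if x = x' ∧ y = y' then
gain (V i) (V (i+1)) R x' v y' v' else 0` (measurable, as `gain` is a measurable function of
`(v, v')`: the set of `(v, v', w)` with disjoint placed polygons is open), `E i` = complement of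
`{(x,v) | x ∈ V i ∧ v ∈ st (V i) R x}`.
-/

namespace Pool.Agent.Helper79.MI

open Pool.Agent.Helper16.Disk7 Pool.Agent.Helper57.CW MeasureTheory Metric Complex Set
open scoped ENNReal Pointwise

lemma continuous_e' : Continuous e := by
  unfold e
  fun_prop

lemma isClosed_st (V : Finset ℂ) (R : ℝ) (x : ℂ) : IsClosed (st V R x) := by
  have h1 : st V R x = ⋂ (y : ℂ) (_ : y ∈ V), {v : ℝ | ‖y - (x - R * e v)‖ ≤ R} := by
    ext v
    simp [st]
  rw [h1]
  refine isClosed_iInter fun y => isClosed_iInter fun _ => ?_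
  have := continuous_e'
  exact isClosed_le (by fun_prop) continuous_const

/-- The set of the parameters for which the placed polygons are disjoint is open. -/
lemma isOpen_disjoint (V W : Finset ℂ) (R : ℝ) (x y : ℂ) :
    IsOpen {p : (ℝ × ℝ) × ℝ | Disjoint (pl V R x p.1.1) (rot p.2 (pl W R y p.1.2))} := by
  have he := continuous_e'
  have hV : IsCompact (hull V) := V.finite_toSet.isCompact_convexHull (𝕜 := ℝ)
  have hW : IsCompact (hull W) := W.finite_toSet.isCompact_convexHull (𝕜 := ℝ)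
  have h1 : {p : (ℝ × ℝ) × ℝ | Disjoint (pl V R x p.1.1) (rot p.2 (pl W R y p.1.2))} =
      {p : (ℝ × ℝ) × ℝ | ∀ q ∈ hull V ×ˢ hull W, e (-p.1.1) * (q.1 - (x - R * e p.1.1)) ≠
        e p.2 * (e (-p.1.2) * (q.2 - (y - R * e p.1.2)))} := by
    ext p
    simp only [mem_ofPred_eq, Set.disjoint_left]
    constructor
    · intro h q hq heq
      refine h (a := e (-p.1.1) * (q.1 - (x - R * e p.1.1))) ⟨q.1, hq.1, rfl⟩ ?_
      rw [heq]
      exact ⟨_, ⟨q.2, hq.2, rfl⟩, rfl⟩
    · rintro h _ ⟨a, ha, rfl⟩ ⟨_, ⟨b, hb, rfl⟩, heq⟩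
      exact h (a, b) ⟨ha, hb⟩ heq.symm
  rw [h1, isOpen_iff_eventually]
  intro p hp
  refine (hV.prod hW).eventually_forall_of_forall_eventually (x₀ := p)
    (P := fun (p : (ℝ × ℝ) × ℝ) (q : ℂ × ℂ) => e (-p.1.1) * (q.1 - (x - R * e p.1.1)) ≠
        e p.2 * (e (-p.1.2) * (q.2 - (y - R * e p.1.2)))) ?_
  intro q hq
  have hopen : IsOpen {z : ((ℝ × ℝ) × ℝ) × (ℂ × ℂ) |
      e (-z.1.1.1) * (z.2.1 - (x - R * e z.1.1.1)) ≠
        e z.1.2 * (e (-z.1.1.2) * (z.2.2 - (y - R * e z.1.1.2)))} :=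
    isOpen_ne_fun (by fun_prop) (by fun_prop)
  exact hopen.mem_nhds (hp q hq)

lemma gain_eq (V W : Finset ℂ) (R : ℝ) (x : ℂ) (v : ℝ) (y : ℂ) (v' : ℝ) :
    gain V W R x v y v' = ∫⁻ w in Ico 0 (2 * Real.pi),
      {p : (ℝ × ℝ) × ℝ | Disjoint (pl V R x p.1.1) (rot p.2 (pl W R y p.1.2))}.indicator
        (fun p => ENNReal.ofReal (Real.sin p.2)) ((v, v'), w) := by
  have hS : MeasurableSet {w : ℝ | Disjoint (pl V R x v) (rot w (pl W R y v'))} := by
    have h1 : Measurable (fun w : ℝ => (((v, v'), w) : (ℝ × ℝ) × ℝ)) := measurable_prodMk_left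
    exact h1 (isOpen_disjoint V W R x y).measurableSet
  rw [gain, inter_comm, ← setLIntegral_indicator hS]
  rfl

/-- `gain` is a measurable function of the two directions. -/
theorem measurable_gain (V W : Finset ℂ) (R : ℝ) (x y : ℂ) :
    Measurable (fun p : ℝ × ℝ => gain V W R x p.1 y p.2) := by
  simp only [gain_eq]
  refine Measurable.lintegral_prod_right' (f := fun z : (ℝ × ℝ) × ℝ =>
    {p : (ℝ × ℝ) × ℝ | Disjoint (pl V R x p.1.1) (rot p.2 (pl W R y p.1.2))}.indicator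
        (fun p => ENNReal.ofReal (Real.sin p.2)) z) ?_
  exact (by fun_prop : Measurable fun p : (ℝ × ℝ) × ℝ => ENNReal.ofReal (Real.sin p.2)).indicator
    (isOpen_disjoint V W R x y).measurableSet

/-- The measure of the states. -/
noncomputable def muSt (V : Finset ℂ) (R : ℝ) : Measure (ℂ × ℝ) :=
  ∑ x ∈ V, (volume.restrict (st V R x ∩ Ico 0 (2 * Real.pi))).map (Prod.mk x)

lemma lintegral_muSt (V : Finset ℂ) (R : ℝ) {f : ℂ × ℝ → ℝ≥0∞} (hf : Measurable f) :
    ∫⁻ s, f s ∂(muSt V R) = ∑ x ∈ V, ∫⁻ v in st V R x ∩ Ico 0 (2 * Real.pi), f (x, v) := by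
  rw [muSt, lintegral_finsetSum_measure]
  refine Finset.sum_congr rfl fun x _ => ?_
  rw [lintegral_map hf measurable_prodMk_left]

lemma muSt_univ (V : Finset ℂ) (R : ℝ) : muSt V R univ = mass V R := by
  have h1 := lintegral_muSt V R (f := fun _ => 1) measurable_const
  simp only [lintegral_one] at h1
  rw [h1, mass]
  simp

lemma mass_ne_top (V : Finset ℂ) (R : ℝ) : mass V R ≠ ∞ := by
  rw [mass]
  refine ENNReal.sum_ne_top.2 fun x _ => ?_
  refine ((measure_mono inter_subset_right).trans_lt ?_).ne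
  rw [Real.volume_Ico]
  exact ENNReal.ofReal_lt_top

instance (V : Finset ℂ) (R : ℝ) : IsFiniteMeasure (muSt V R) :=
  ⟨by rw [muSt_univ]; exact (mass_ne_top V R).lt_top⟩

/-- The set of the pairs `(x, v)` which are states. -/
def stSet (V : Finset ℂ) (R : ℝ) : Set (ℂ × ℝ) := {s | s.1 ∈ V ∧ s.2 ∈ st V R s.1}

lemma measurableSet_stSet (V : Finset ℂ) (R : ℝ) : MeasurableSet (stSet V R) := by
  have h1 : stSet V R = ⋃ x ∈ V, ({x} : Set ℂ) ×ˢ st V R x := by
    ext s
    simp only [stSet, mem_ofPred_eq, mem_iUnion, mem_prod, mem_singleton_iff, exists_prop]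
    constructor
    · rintro ⟨h, h'⟩
      exact ⟨s.1, h, rfl, h'⟩
    · rintro ⟨x, hx, h, h'⟩
      rw [h]
      exact ⟨hx, h'⟩
  rw [h1]
  exact Finset.measurableSet_biUnion _ fun x _ =>
    (measurableSet_singleton x).prod (isClosed_st V R x).measurableSet

lemma muSt_compl (V : Finset ℂ) (R : ℝ) : muSt V R (stSet V R)ᶜ = 0 := by
  have hm := (measurableSet_stSet V R).compl
  rw [← lintegral_indicator_one hm, lintegral_muSt V R (measurable_one.indicator hm)]
  refine Finset.sum_eq_zero fun x hx => ?_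
  rw [setLIntegral_eq_zero_iff ((isClosed_st V R x).measurableSet.inter measurableSet_Ico)]
  · refine Filter.Eventually.of_forall fun v hv => ?_
    rw [indicator_of_notMem]
    simp only [mem_compl_iff, not_not]
    exact ⟨hx, hv.1⟩
  · exact (measurable_one.indicator hm).comp measurable_prodMk_left

/-- The gain as a function on pairs of states. -/
noncomputable def gainSt (V W : Finset ℂ) (R : ℝ) (s t : ℂ × ℝ) : ℝ≥0∞ :=
  ∑ x ∈ V, ∑ y ∈ W, ({p : (ℂ × ℝ) × (ℂ × ℝ) | p.1.1 = x ∧ p.2.1 = y}).indicator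
    (fun p => gain V W R x p.1.2 y p.2.2) (s, t)

lemma measurable_gainSt (V W : Finset ℂ) (R : ℝ) :
    Measurable (Function.uncurry (gainSt V W R)) := by
  have h0 : Function.uncurry (gainSt V W R) = fun q : (ℂ × ℝ) × (ℂ × ℝ) => ∑ x ∈ V, ∑ y ∈ W,
      ({p : (ℂ × ℝ) × (ℂ × ℝ) | p.1.1 = x ∧ p.2.1 = y}).indicator
        (fun p => gain V W R x p.1.2 y p.2.2) q := by
    funext q
    rfl
  have h1 : ∀ x y : ℂ, MeasurableSet {p : (ℂ × ℝ) × (ℂ × ℝ) | p.1.1 = x ∧ p.2.1 = y} := by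
    intro x y
    exact (measurableSet_eq_fun (by fun_prop) measurable_const).inter
      (measurableSet_eq_fun (by fun_prop) measurable_const)
  have h2 : ∀ x y : ℂ, Measurable fun p : (ℂ × ℝ) × (ℂ × ℝ) => gain V W R x p.1.2 y p.2.2 := by
    intro x y
    have h3 : Measurable fun p : (ℂ × ℝ) × (ℂ × ℝ) => ((p.1.2, p.2.2) : ℝ × ℝ) := by fun_prop
    have h4 := Measurable.comp (measurable_gain V W R x y) h3
    simpa only [Function.comp_def] using h4
  rw [h0]
  refine Finset.measurable_fun_sum V fun x _ => ?_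
  refine Finset.measurable_fun_sum W fun y _ => ?_
  exact (h2 x y).indicator (h1 x y)

lemma gainSt_eq {V W : Finset ℂ} {R : ℝ} {x y : ℂ} (hx : x ∈ V) (hy : y ∈ W) (v v' : ℝ) :
    gainSt V W R (x, v) (y, v') = gain V W R x v y v' := by
  unfold gainSt
  rw [Finset.sum_eq_single_of_mem x hx, Finset.sum_eq_single_of_mem y hy]
  · rw [indicator_of_mem]
    exact ⟨rfl, rfl⟩
  · intro y' _ hne
    rw [indicator_of_notMem]
    rintro ⟨-, h⟩
    exact hne h.symm
  · intro x' _ hne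
    refine Finset.sum_eq_zero fun y' _ => ?_
    rw [indicator_of_notMem]
    rintro ⟨h, -⟩
    exact hne h.symm

lemma lintegral_gainSt (V W : Finset ℂ) (R : ℝ) :
    ∫⁻ s, ∫⁻ t, gainSt V W R s t ∂(muSt W R) ∂(muSt V R) =
      ∑ x ∈ V, ∑ y ∈ W, ∫⁻ v in st V R x ∩ Ico 0 (2 * Real.pi),
        ∫⁻ v' in st W R y ∩ Ico 0 (2 * Real.pi), gain V W R x v y v' := by
  have hG := measurable_gainSt V W R
  have hG1 : Measurable fun s => ∫⁻ t, gainSt V W R s t ∂(muSt W R) :=
    hG.lintegral_prod_right'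
  rw [lintegral_muSt V R hG1]
  refine Finset.sum_congr rfl fun x hx => ?_
  have h1 : ∀ v : ℝ, ∫⁻ t, gainSt V W R (x, v) t ∂(muSt W R) =
      ∑ y ∈ W, ∫⁻ v' in st W R y ∩ Ico 0 (2 * Real.pi), gain V W R x v y v' := by
    intro v
    have hG2 : Measurable fun t => gainSt V W R (x, v) t :=
      hG.comp (measurable_prodMk_left (x := (x, v)))
    rw [lintegral_muSt W R hG2]
    refine Finset.sum_congr rfl fun y hy => ?_
    simp only [gainSt_eq hx hy]
  simp only [h1]
  rw [lintegral_finsetSum]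
  intro y _
  exact (measurable_gain V W R x y).lintegral_prod_right'

theorem exists_states {k : ℕ} [NeZero k] (hk : 2 ≤ k) {R : ℝ} {c : ℝ≥0∞} (hc : c ≠ ∞)
    (V : Fin k → Finset ℂ)
    (hm : ∀ i, 0 < mass (V i) R)
    (h : ∀ i, c * mass (V i) R * mass (V (i + 1)) R ≤
      ∑ x ∈ V i, ∑ y ∈ V (i + 1), ∫⁻ v in st (V i) R x ∩ Ico 0 (2 * Real.pi),
        ∫⁻ v' in st (V (i + 1)) R y ∩ Ico 0 (2 * Real.pi), gain (V i) (V (i + 1)) R x v y v') :
    ∃ (x : Fin k → ℂ) (v : Fin k → ℝ), (∀ i, x i ∈ V i ∧ v i ∈ st (V i) R (x i)) ∧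
      k * c ≤ ∑ i, gain (V i) (V (i + 1)) R (x i) (v i) (x (i + 1)) (v (i + 1)) := by
  obtain ⟨s, hs, hsum⟩ := exists_cyclic hk (fun i => muSt (V i) R)
    (fun i h0 => by
      have h1 := muSt_univ (V i) R
      rw [h0] at h1
      simp only [Measure.coe_zero, Pi.zero_apply] at h1
      exact (hm i).ne h1)
    (fun i => gainSt (V i) (V (i + 1)) R) (fun i => measurable_gainSt _ _ R) hc
    (fun i => by
      rw [muSt_univ, muSt_univ, lintegral_gainSt]
      exact h i)
    (fun i => (stSet (V i) R)ᶜ) (fun i => muSt_compl (V i) R)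
  have hs' : ∀ i, (s i).1 ∈ V i ∧ (s i).2 ∈ st (V i) R (s i).1 := by
    intro i
    have := hs i
    simp only [mem_compl_iff, not_not] at this
    exact this
  refine ⟨fun i => (s i).1, fun i => (s i).2, hs', hsum.trans (le_of_eq ?_)⟩
  refine Finset.sum_congr rfl fun i _ => ?_
  exact gainSt_eq (hs' i).1 (hs' (i + 1)).1 _ _

end Pool.Agent.Helper79.MI
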