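import Pool.Agent.Helper79.MI.Supp

/-!
# A1: area of a circumscribed polygon

`δ = 2π/N`, `θ j = t + j δ`, `h = supportFn C` (positive, since `0 ∈ interior C`; `2π`-periodic and
sublinear, see `MI/Supp.lean`: `supp_sublin`). Let `p j` be the point with
`ip (p j) (e (θ j)) = h (θ j)` and `ip (p j) (e (θ (j+1))) = h (θ (j+1))`:
`p j = (h_j e(θ_{j+1} - π/2) + h_{j+1} e(θ_j + π/2)) / sin δ`.

1. `p j ∈ WN`: for a direction `φ = θ i` write, according to the position of `φ`, one of
`e(θ_{j+1}) = a e(θ_j) + b e(φ)`, `e(θ_j) = a e(θ_{j+1}) + b e(φ)` with `a, b ≥ 0`, `b > 0`, or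
`a e(θ_j) + b e(θ_{j+1}) + c e(φ) = 0` with `a, b, c ≥ 0`, `c > 0`; the sublinearity of `h` gives
`ip (p j) (e φ) ≤ h φ` in each case (in the last case use `a h_j + b h_{j+1} + c h(φ) ≥ 0`, true
since each `z ∈ C` has `a ip z .. + b ip z .. + c ip z .. = 0`). This part is `supp_vertex` in
`MI/Supp.lean`.
2. Let `T j` be the triangle `0, p (j-1), p j`. Its points have `ip z (e (θ j)) ≤ h_j`. Its area is
`1/2 h_j ℓ_j`, `ℓ_j = (h_{j+1} + h_{j-1} - 2 cos δ h_j) / sin δ = |p_j - p_{j-1}| ≥ 0` (image of the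
standard triangle under a linear map, `MeasureTheory.Measure.addHaar_image_linearMap`; or polar
coordinates `Complex.lintegral_comp_polarCoord_symm`: between the directions of `p (j-1)` and
`p j` the polygon is `r ≤ h_j / cos (φ - θ_j)`, with integral of `1/2 h_j^2 / cos^2`, that is
`1/2 h_j^2 (tan b - tan a)`).
3. `WN` is the union of the `T j`, which have disjoint interiors (they lie in consecutive angular
sectors with vertex `0`, whose angles are less than `π` and sum up to `2π`). So the area of `WN` is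
`∑ 1/2 h_j ℓ_j = FN N h t`.
Suggestion: polar coordinates for everything: the radial function of `WN` in the direction `φ` is
`min_j h_j / cos (φ - θ_j)` over the `j` with positive cosine.
-/

namespace Pool.Agent.Helper79.MI

open Pool.Agent.Helper16.Disk7 Pool.Agent.Helper57.CW MeasureTheory Metric Complex Set
open scoped ENNReal Pointwise

/-- A line through `0` has measure zero. -/
private lemma null_line {v : ℂ} (hv : v ≠ 0) : volume {z : ℂ | ip z v = 0} = 0 := by
  let L : ℂ →ₗ[ℝ] ℝ :=
    { toFun := fun z => ip z v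
      map_add' := fun x y => ip_add_left x y v
      map_smul' := fun r z => by
        simp only [ip_eq, Complex.smul_re, Complex.smul_im, smul_eq_mul, RingHom.id_apply]
        ring }
  have h1 : {z : ℂ | ip z v = 0} = (LinearMap.ker L : Set ℂ) := by
    ext z
    simp [L]
  rw [h1]
  apply Measure.addHaar_submodule
  intro h2
  have h3 : v ∈ LinearMap.ker L := by rw [h2]; trivial
  have h4 : ip v v = 0 := h3
  rw [ip_eq] at h4
  apply hv
  apply Complex.ext
  · simp only [Complex.zero_re]
    nlinarith [mul_self_nonneg v.re, mul_self_nonneg v.im]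
  · simp only [Complex.zero_im]
    nlinarith [mul_self_nonneg v.re, mul_self_nonneg v.im]

/-- The coordinates with respect to the orthonormal frame `e θ`, `e (θ + π/2)`. -/
private noncomputable def fr (θ : ℝ) (z : ℂ) : ℝ × ℝ := (ip z (e θ), ip z (e (θ + Real.pi / 2)))

private lemma fr_preserving (θ : ℝ) : MeasurePreserving (fr θ) volume volume := by
  have h1 : MeasurePreserving (fun z : ℂ => e (-θ) * z) volume volume := by
    have h2 : (fun z : ℂ => e (-θ) * z) = ⇑(rotation (Circle.exp (-θ))) := by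
      funext z
      rw [rotation_apply, Circle.coe_exp, e]
    rw [h2]
    exact (rotation (Circle.exp (-θ))).measurePreserving
  have h3 := Complex.volume_preserving_equiv_real_prod.comp h1
  have h4 : fr θ = ⇑Complex.measurableEquivRealProd ∘ fun z : ℂ => e (-θ) * z := by
    funext z
    simp only [fr, Function.comp, Complex.measurableEquivRealProd_apply, Complex.mul_re,
      Complex.mul_im, e_re, e_im, ip_e, Real.cos_neg, Real.sin_neg, Real.cos_add_pi_div_two,
      Real.sin_add_pi_div_two]
    ext <;> simp <;> ring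
  rw [h4]
  exact h3

/-- The integral of the area of a triangle. -/
private lemma lint_tri {h l : ℝ} (hh : 0 < h) (hl : 0 ≤ l) :
    ∫⁻ X in Ioc 0 h, ENNReal.ofReal (X * l / h) = ENNReal.ofReal (h * l / 2) := by
  rw [← ofReal_integral_eq_lintegral_ofReal]
  · congr 1
    rw [← intervalIntegral.integral_of_le hh.le]
    have h1 : (fun X : ℝ => X * l / h) = fun X => X * (l / h) := by
      funext X; ring
    rw [h1, intervalIntegral.integral_mul_const, integral_id]
    field_simp
    ring
  · have h1 : Continuous fun X : ℝ => X * l / h := by fun_prop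
    exact (h1.integrableOn_Icc (a := 0) (b := h)).mono_set Ioc_subset_Icc_self
  · refine (ae_restrict_iff' measurableSet_Ioc).2 (Filter.Eventually.of_forall fun X hX => ?_)
    have := hX.1
    positivity

private lemma lint_tri' {h l : ℝ} (hh : 0 < h) (hl : 0 ≤ l) :
    ∫⁻ X in Iic h, ENNReal.ofReal (X * l / h) = ENNReal.ofReal (h * l / 2) := by
  rw [← lint_tri hh hl]
  have h1 : Iic h = Iic 0 ∪ Ioc 0 h := by
    ext x
    simp only [mem_Iic, mem_union, mem_Ioc]
    constructor
    · intro hx
      rcases le_or_gt x 0 with h0 | h0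
      · exact Or.inl h0
      · exact Or.inr ⟨h0, hx⟩
    · rintro (hx | hx)
      · linarith
      · exact hx.2
  have h2 : ∫⁻ X in Iic 0, ENNReal.ofReal (X * l / h) = 0 := by
    rw [setLIntegral_congr_fun (g := fun _ => 0) measurableSet_Iic]
    · simp
    · intro X hX
      simp only
      apply ENNReal.ofReal_of_nonpos
      have hX0 : X ≤ 0 := hX
      exact div_nonpos_of_nonpos_of_nonneg (mul_nonpos_of_nonpos_of_nonneg hX0 hl) hh.le
  rw [h1, lintegral_union measurableSet_Ioc, h2, zero_add]
  rw [Set.disjoint_left]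
  intro x hx hx'
  exact absurd hx'.1 (not_lt.2 hx)

/-- The area of the `j`-th sector. -/
private lemma vol_sector {S : Set ℂ} {θ h a b : ℝ} (hh : 0 < h) (hab : a ≤ b)
    (hS1 : ∀ z ∈ S, ip z (e θ) ≤ h ∧ ip z (e θ) * a / h ≤ ip z (e (θ + Real.pi / 2)) ∧
      ip z (e (θ + Real.pi / 2)) ≤ ip z (e θ) * b / h)
    (hS2 : ∀ z : ℂ, 0 < ip z (e θ) → ip z (e θ) < h →
      ip z (e θ) * a / h < ip z (e (θ + Real.pi / 2)) →
      ip z (e (θ + Real.pi / 2)) < ip z (e θ) * b / h → z ∈ S) :
    volume S = ENNReal.ofReal (h * (b - a) / 2) := by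
  have hl : 0 ≤ b - a := by linarith
  apply le_antisymm
  · have h1 : S ⊆ fr θ ⁻¹' {p : ℝ × ℝ | p.1 ∈ Iic h ∧ p.2 ∈ Icc (p.1 * a / h) (p.1 * b / h)} :=
      fun z hz => ⟨(hS1 z hz).1, (hS1 z hz).2.1, (hS1 z hz).2.2⟩
    have h2 : MeasurableSet {p : ℝ × ℝ | p.1 ∈ Iic h ∧ p.2 ∈ Icc (p.1 * a / h) (p.1 * b / h)} := by
      have : {p : ℝ × ℝ | p.1 ∈ Iic h ∧ p.2 ∈ Icc (p.1 * a / h) (p.1 * b / h)}
          = {p : ℝ × ℝ | p.1 ≤ h} ∩ ({p | p.1 * a / h ≤ p.2} ∩ {p | p.2 ≤ p.1 * b / h}) := by
        ext p; simp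
      rw [this]
      exact (isClosed_le (by fun_prop) (by fun_prop)).measurableSet.inter
        ((isClosed_le (by fun_prop) (by fun_prop)).measurableSet.inter
        (isClosed_le (by fun_prop) (by fun_prop)).measurableSet)
    refine (measure_mono h1).trans ?_
    rw [(fr_preserving θ).measure_preimage h2.nullMeasurableSet]
    rw [Measure.volume_eq_prod, Measure.prod_apply h2, ← lint_tri' hh hl,
      ← lintegral_indicator measurableSet_Iic]
    apply lintegral_mono
    intro X
    by_cases hX : X ∈ Iic h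
    · rw [Set.indicator_of_mem hX]
      refine (measure_mono (t := Icc (X * a / h) (X * b / h)) fun Y hY => hY.2).trans ?_
      rw [Real.volume_Icc]
      apply ENNReal.ofReal_le_ofReal
      apply le_of_eq
      ring
    · rw [Set.indicator_of_notMem hX]
      have h3 : Prod.mk X ⁻¹' {p : ℝ × ℝ | p.1 ∈ Iic h ∧ p.2 ∈ Icc (p.1 * a / h) (p.1 * b / h)}
          = ∅ := by
        ext Y
        simp only [Set.mem_preimage, Set.mem_ofPred_eq, Set.mem_empty_iff_false, iff_false]
        exact fun hY => hX hY.1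
      simp only [h3, measure_empty, le_refl]
  · have h1 : fr θ ⁻¹' (regionBetween (fun X => X * a / h) (fun X => X * b / h) (Ioo 0 h)) ⊆ S := by
      intro z hz
      exact hS2 z hz.1.1 hz.1.2 hz.2.1 hz.2.2
    refine le_trans ?_ (measure_mono h1)
    have h2 : MeasurableSet (regionBetween (fun X : ℝ => X * a / h) (fun X => X * b / h)
        (Ioo 0 h)) :=
      measurableSet_regionBetween (by fun_prop) (by fun_prop) measurableSet_Ioo
    rw [(fr_preserving θ).measure_preimage h2.nullMeasurableSet, Measure.volume_eq_prod,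
      volume_regionBetween_eq_lintegral (by fun_prop) (by fun_prop) measurableSet_Ioo,
      ← lint_tri hh hl, setLIntegral_congr Ioo_ae_eq_Ioc.symm]
    apply le_of_eq
    refine lintegral_congr fun X => ?_
    congr 1
    simp only [Pi.sub_apply]
    ring

private lemma e_int (φ : ℝ) (n : ℤ) : e (φ + n * (2 * Real.pi)) = e φ := by
  apply Complex.ext
  · rw [e_re, e_re, Real.cos_add_int_mul_two_pi]
  · rw [e_im, e_im, Real.sin_add_int_mul_two_pi]

private lemma ip_frame (z : ℂ) (θ ψ : ℝ) :
    ip z (e (θ + ψ)) = ip z (e θ) * Real.cos ψ + ip z (e (θ + Real.pi / 2)) * Real.sin ψ := by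
  simp only [ip_e, Real.cos_add, Real.sin_add, Real.cos_pi_div_two, Real.sin_pi_div_two]
  ring

private lemma exists_index {N : ℕ} (hN : 0 < N) {δ : ℝ} (hδ : (N : ℝ) * δ = 2 * Real.pi) (t : ℝ)
    (n : ℤ) : ∃ i < N, ∃ q : ℤ, t + n * δ = t + (i : ℝ) * δ + q * (2 * Real.pi) := by
  have hN' : (N : ℤ) ≠ 0 := by exact_mod_cast hN.ne'
  have h1 : 0 ≤ n % N := Int.emod_nonneg n hN'
  have h2 : n % N < N := Int.emod_lt_of_pos n (by exact_mod_cast hN)
  refine ⟨(n % N).toNat, by omega, n / N, ?_⟩
  have h3 : (((n % N).toNat : ℕ) : ℝ) = ((n % N : ℤ) : ℝ) := by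
    have : (((n % N).toNat : ℕ) : ℤ) = n % N := Int.toNat_of_nonneg h1
    exact_mod_cast this
  have h4 : (n : ℝ) = (N : ℝ) * ((n / N : ℤ) : ℝ) + ((n % N : ℤ) : ℝ) := by
    have := Int.mul_ediv_add_emod n N
    exact_mod_cast this.symm
  rw [h3, ← hδ]
  conv_lhs => rw [h4]
  ring

theorem volume_WN {N : ℕ} (hN : 5 ≤ N) {C : Set ℂ} (hC : IsCompact C) (h0 : 0 ∈ interior C)
    (t : ℝ) : (volume (WN N (supportFn C) t)).toReal = FN N (supportFn C) t := by
  obtain ⟨r, hr, -, hh⟩ := supp_pos hC h0
  have hne : C.Nonempty := ⟨0, interior_subset h0⟩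
  set h := supportFn C with hdef
  have hpos : ∀ θ, 0 < h θ := fun θ => lt_of_lt_of_le hr (hh θ)
  have hper : ∀ θ, h (θ + 2 * Real.pi) = h θ := supportFn_periodic C
  set δ : ℝ := 2 * Real.pi / N with hδ
  have hNp : (5 : ℝ) ≤ N := by exact_mod_cast hN
  have hNδ : (N : ℝ) * δ = 2 * Real.pi := by
    rw [hδ]; field_simp
  have hπ := Real.pi_pos
  have hδ0 : 0 < δ := by positivity
  have hδπ : δ < Real.pi / 2 := by
    rw [hδ, div_lt_iff₀ (by linarith)]
    nlinarith
  have hs : 0 < Real.sin δ := Real.sin_pos_of_pos_of_lt_pi hδ0 (by linarith)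
  -- directions
  set θ : ℕ → ℝ := fun j => t + j * δ with hθ
  -- the sectors
  set S : ℕ → Set ℂ := fun j => {z | ip z (e (θ j)) ≤ h (θ j) ∧
    ∀ i < N, ip z (e (θ i)) * h (θ j) ≤ ip z (e (θ j)) * h (θ i)} with hS
  have hcl : ∀ j, IsClosed (S j) := by
    intro j
    have hc : ∀ φ : ℝ, Continuous fun z : ℂ => ip z (e φ) := by
      intro φ
      simp only [ip_eq]
      fun_prop
    have : S j = {z | ip z (e (θ j)) ≤ h (θ j)} ∩ ⋂ i ∈ Finset.range N,
        {z | ip z (e (θ i)) * h (θ j) ≤ ip z (e (θ j)) * h (θ i)} := by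
      ext z
      simp [hS]
    rw [this]
    refine (isClosed_le (hc _) continuous_const).inter (isClosed_biInter fun i _ => ?_)
    exact isClosed_le ((hc _).mul_const _) ((hc _).mul_const _)
  have hcover : WN N h t = ⋃ j ∈ Finset.range N, S j := by
    apply Set.Subset.antisymm
    · intro z hz
      obtain ⟨j, hj, hmax⟩ := Finset.exists_max_image (Finset.range N)
        (fun j => ip z (e (θ j)) / h (θ j)) ⟨0, Finset.mem_range.2 (by omega)⟩
      refine Set.mem_biUnion (Finset.mem_coe.2 hj) ⟨hz j (Finset.mem_range.1 hj), fun i hi => ?_⟩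
      have h1 := hmax i (Finset.mem_range.2 hi)
      rwa [div_le_div_iff₀ (hpos _) (hpos _)] at h1
    · intro z hz i hi
      simp only [Set.mem_iUnion] at hz
      obtain ⟨j, hj, hz1, hz2⟩ := hz
      have h1 := hz2 i hi
      have h2 : ip z (e (θ i)) * h (θ j) ≤ h (θ j) * h (θ i) :=
        h1.trans (mul_le_mul_of_nonneg_right hz1 (hpos _).le)
      rw [mul_comm (h (θ j))] at h2
      exact le_of_mul_le_mul_right h2 (hpos _)
  have hdisj : ((Finset.range N : Finset ℕ) : Set ℕ).Pairwise
      (Function.onFun (AEDisjoint volume) S) := by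
    intro i hi j hj hij
    have hi' : i < N := by simpa using hi
    have hj' : j < N := by simpa using hj
    set v : ℂ := (h (θ j) : ℂ) * e (θ i) - (h (θ i) : ℂ) * e (θ j) with hv
    have hv0 : v ≠ 0 := by
      intro hcon
      have h1 : (h (θ j) : ℂ) * e (θ i) = (h (θ i) : ℂ) * e (θ j) := sub_eq_zero.1 hcon
      have h2 : h (θ j) = h (θ i) := by
        have := congrArg (fun z : ℂ => ‖z‖) h1
        simpa [norm_e, abs_of_pos (hpos _)] using this
      rw [h2] at h1
      have h3 : e (θ i) = e (θ j) := mul_left_cancel₀ (by exact_mod_cast (hpos _).ne') h1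
      have h4 : Real.cos (θ i - θ j) = 1 := by
        rw [← ip_e_e, h3, ip_e_e, sub_self, Real.cos_zero]
      have hiN : (i : ℝ) + 1 ≤ N := by exact_mod_cast hi'
      have hjN : (j : ℝ) + 1 ≤ N := by exact_mod_cast hj'
      have hi0 : (0 : ℝ) ≤ i := Nat.cast_nonneg i
      have hj0 : (0 : ℝ) ≤ j := Nat.cast_nonneg j
      have h5 : θ i - θ j = ((i : ℝ) - j) * δ := by simp only [hθ]; ring
      rw [h5, Real.cos_eq_one_iff_of_lt_of_lt (by nlinarith) (by nlinarith)] at h4
      have h6 : (i : ℝ) - j = 0 := by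
        rcases mul_eq_zero.1 h4 with h | h
        · exact h
        · exact absurd h hδ0.ne'
      apply hij
      have : (i : ℝ) = j := by linarith
      exact_mod_cast this
    refine measure_mono_null ?_ (null_line hv0)
    rintro z ⟨⟨-, hzi⟩, ⟨-, hzj⟩⟩
    have h1 := hzi j hj'
    have h2 := hzj i hi'
    have h3 : ip z v = ip z (e (θ i)) * h (θ j) - ip z (e (θ j)) * h (θ i) := by
      rw [hv, ip_sub_right', ip_real_smul_right, ip_real_smul_right]
      ring
    show ip z v = 0
    rw [h3]
    linarith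
  -- supporting data of the sectors
  have hshift : ∀ (φ : ℝ) (n : ℤ), h (φ + n * (2 * Real.pi)) = h φ := by
    intro φ n
    exact (supportFn_periodic C).int_mul n φ
  have hvol : ∀ j < N, volume (S j) = ENNReal.ofReal (h (θ j) *
      ((h (θ j + δ) - Real.cos δ * h (θ j)) / Real.sin δ
        - (-((h (θ j - δ) - Real.cos δ * h (θ j)) / Real.sin δ))) / 2) := by
    intro j hj
    set x : ℝ := h (θ j) with hx
    set b : ℝ := (h (θ j + δ) - Real.cos δ * h (θ j)) / Real.sin δ with hb
    set a : ℝ := -((h (θ j - δ) - Real.cos δ * h (θ j)) / Real.sin δ) with ha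
    have hx0 : 0 < x := hpos _
    have hl := supp_sublin hC hne (θ1 := θ j - δ) (θ2 := θ j) (θ3 := θ j + δ)
      (by linarith) (by linarith) (by linarith)
    have e1 : θ j + δ - (θ j - δ) = 2 * δ := by ring
    have e2 : θ j + δ - θ j = δ := by ring
    have e3 : θ j - (θ j - δ) = δ := by ring
    rw [e1, e2, e3, Real.sin_two_mul] at hl
    have hl2 : h (θ j) * (2 * Real.cos δ) ≤ h (θ j - δ) + h (θ j + δ) := by
      have h1 : h (θ j) * (2 * Real.cos δ) * Real.sin δ
          ≤ (h (θ j - δ) + h (θ j + δ)) * Real.sin δ := by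
        rw [hdef]; linarith
      exact le_of_mul_le_mul_right h1 hs
    have hba : b - a = (h (θ j - δ) + h (θ j + δ) - h (θ j) * (2 * Real.cos δ)) / Real.sin δ := by
      rw [ha, hb]; ring
    have hab : a ≤ b := by
      have : 0 ≤ b - a := by
        rw [hba]
        exact div_nonneg (by linarith) hs.le
      linarith
    have hbs : b * Real.sin δ = h (θ j + δ) - Real.cos δ * x := by
      rw [hb, div_mul_cancel₀ _ hs.ne']
    have has : a * Real.sin δ = -(h (θ j - δ) - Real.cos δ * x) := by
      rw [ha, neg_mul, div_mul_cancel₀ _ hs.ne']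
    refine vol_sector (θ := θ j) hx0 hab ?_ ?_
    · rintro z ⟨hz1, hz2⟩
      refine ⟨hz1, ?_, ?_⟩
      · obtain ⟨i, hi, q, hq⟩ := exists_index (by omega : 0 < N) hNδ t ((j : ℤ) - 1)
        have h1 := hz2 i hi
        have h2 : θ j - δ = θ i + q * (2 * Real.pi) := by
          rw [← hq]; simp only [hθ]; push_cast; ring
        have h3 : h (θ i) = h (θ j - δ) := by rw [h2, hshift]
        have h4 : e (θ i) = e (θ j + -δ) := by rw [← sub_eq_add_neg, h2, e_int]
        rw [h3, h4, ip_frame, Real.cos_neg, Real.sin_neg] at h1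
        rw [div_le_iff₀ hx0]
        have h5 : ip z (e (θ j)) * (a * Real.sin δ)
            ≤ ip z (e (θ j + Real.pi / 2)) * x * Real.sin δ := by
          rw [has]
          have h6 : x = h (θ j) := rfl
          rw [← h6] at h1
          linarith
        have h7 : ip z (e (θ j)) * a * Real.sin δ
            ≤ ip z (e (θ j + Real.pi / 2)) * x * Real.sin δ := by
          rw [mul_assoc]; exact h5
        exact le_of_mul_le_mul_right h7 hs
      · obtain ⟨i, hi, q, hq⟩ := exists_index (by omega : 0 < N) hNδ t ((j : ℤ) + 1)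
        have h1 := hz2 i hi
        have h2 : θ j + δ = θ i + q * (2 * Real.pi) := by
          rw [← hq]; simp only [hθ]; push_cast; ring
        have h3 : h (θ i) = h (θ j + δ) := by rw [h2, hshift]
        have h4 : e (θ i) = e (θ j + δ) := by rw [h2, e_int]
        rw [h3, h4, ip_frame] at h1
        rw [le_div_iff₀ hx0]
        have h5 : ip z (e (θ j + Real.pi / 2)) * x * Real.sin δ
            ≤ ip z (e (θ j)) * (b * Real.sin δ) := by
          rw [hbs]
          have h6 : x = h (θ j) := rfl
          rw [← h6] at h1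
          linarith
        have h7 : ip z (e (θ j + Real.pi / 2)) * x * Real.sin δ
            ≤ ip z (e (θ j)) * b * Real.sin δ := by
          rw [mul_assoc (ip z (e (θ j)))]; exact h5
        exact le_of_mul_le_mul_right h7 hs
    · intro z hX0 hXx h1 h2
      refine ⟨hXx.le, fun i hi => ?_⟩
      set X := ip z (e (θ j)) with hX
      set Y := ip z (e (θ j + Real.pi / 2)) with hY
      rw [div_lt_iff₀ hx0] at h1
      rw [lt_div_iff₀ hx0] at h2
      have hab' : a < b := by
        have : X * a < X * b := h1.trans h2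
        exact lt_of_mul_lt_mul_left this hX0.le
      -- vertices
      have hv : ∀ (φ : ℝ) (n : ℤ), ip (vtx h φ δ) (e (φ + n * δ)) ≤ h (φ + n * δ) := by
        intro φ n
        obtain ⟨m, hm, q, hq⟩ := exists_index (by omega : 0 < N) hNδ φ n
        have h3 := supp_vertex hC hne (by omega : 3 ≤ N) φ m hm
        rw [hq, e_int, hshift]
        exact h3
      have hθi : θ i = θ j + ((i : ℝ) - j) * δ := by simp only [hθ]; ring
      set ψ : ℝ := ((i : ℝ) - j) * δ with hψ
      have hp : x * Real.cos ψ + b * Real.sin ψ ≤ h (θ i) := by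
        have h3 := hv (θ j) ((i : ℤ) - j)
        push_cast at h3
        rw [← hψ, ← hθi] at h3
        refine le_trans (le_of_eq ?_) h3
        rw [hθi, ip_vtx, eq_div_iff hs.ne', Real.sin_sub]
        have h6 : x = h (θ j) := rfl
        rw [← h6]
        linear_combination Real.sin ψ * hbs
      have hm : x * Real.cos ψ + a * Real.sin ψ ≤ h (θ i) := by
        have h3 := hv (θ j - δ) ((i : ℤ) - j + 1)
        push_cast at h3
        have h4 : θ j - δ + ((i : ℝ) - j + 1) * δ = θ i := by simp only [hθ]; ring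
        rw [h4] at h3
        refine le_trans (le_of_eq ?_) h3
        have h5 : θ i = θ j - δ + (ψ + δ) := by rw [hθi]; ring
        rw [h5, ip_vtx, eq_div_iff hs.ne', add_sub_cancel_right, sub_add_cancel, Real.sin_add]
        have h6 : x = h (θ j) := rfl
        rw [← h6]
        linear_combination Real.sin ψ * has
      rw [hθi, ip_frame, ← hX, ← hY, ← hθi]
      -- `(X, Y) = α (x, a) + β (x, b)`
      have hα : 0 ≤ X * b - Y * x := by linarith
      have hβ : 0 ≤ Y * x - X * a := by linarith
      have h8 := mul_le_mul_of_nonneg_left hm hα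
      have h9 := mul_le_mul_of_nonneg_left hp hβ
      have h10 : (X * Real.cos ψ + Y * Real.sin ψ) * x * (b - a) ≤ X * h (θ i) * (b - a) := by
        have e4 : (X * b - Y * x) * (x * Real.cos ψ + a * Real.sin ψ)
            + (Y * x - X * a) * (x * Real.cos ψ + b * Real.sin ψ)
            = (X * Real.cos ψ + Y * Real.sin ψ) * x * (b - a) := by ring
        have e5 : (X * b - Y * x) * h (θ i) + (Y * x - X * a) * h (θ i)
            = X * h (θ i) * (b - a) := by ring
        linarith
      exact le_of_mul_le_mul_right h10 (by linarith)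
  rw [hcover, measure_biUnion_finset₀ hdisj fun j _ => (hcl j).measurableSet.nullMeasurableSet,
    Finset.sum_congr rfl fun j hj => hvol j (Finset.mem_range.1 hj)]
  rw [ENNReal.toReal_sum fun _ _ => ENNReal.ofReal_ne_top]
  rw [FN]
  refine Finset.sum_congr rfl fun j hj => ?_
  have hl := supp_sublin hC hne (θ1 := θ j - δ) (θ2 := θ j) (θ3 := θ j + δ)
    (by linarith) (by linarith) (by linarith)
  rw [ENNReal.toReal_ofReal]
  · have e1 : t + (j : ℝ) * (2 * Real.pi / N) = θ j := rfl
    have e2 : t + ((j : ℝ) + 1) * (2 * Real.pi / N) = θ j + δ := by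
      simp only [hθ, hδ]; ring
    have e3 : t + ((j : ℝ) - 1) * (2 * Real.pi / N) = θ j - δ := by
      simp only [hθ, hδ]; ring
    rw [e1, e2, e3, ← hδ]
    field_simp
    ring
  · have e1 : θ j + δ - (θ j - δ) = 2 * δ := by ring
    have e2 : θ j + δ - θ j = δ := by ring
    have e3 : θ j - (θ j - δ) = δ := by ring
    rw [e1, e2, e3, Real.sin_two_mul] at hl
    have hl2 : h (θ j) * (2 * Real.cos δ) ≤ h (θ j - δ) + h (θ j + δ) := by
      have h1 : h (θ j) * (2 * Real.cos δ) * Real.sin δ
          ≤ (h (θ j - δ) + h (θ j + δ)) * Real.sin δ := by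
        rw [hdef]; linarith
      exact le_of_mul_le_mul_right h1 hs
    have h1 : 0 ≤ (h (θ j - δ) + h (θ j + δ) - h (θ j) * (2 * Real.cos δ)) / Real.sin δ :=
      div_nonneg (by linarith) hs.le
    have h2 : (h (θ j + δ) - Real.cos δ * h (θ j)) / Real.sin δ
        - (-((h (θ j - δ) - Real.cos δ * h (θ j)) / Real.sin δ))
        = (h (θ j - δ) + h (θ j + δ) - h (θ j) * (2 * Real.cos δ)) / Real.sin δ := by ring
    rw [h2]
    have := hpos (θ j)
    positivity

end Pool.Agent.Helper79.MI
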