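import Pool.Agent.Helper79.MI.Supp
import Pool.Agent.Helper84.PR.Red

/-!
# E2: approximation by an inner polygon

`V` = a finite `η`-net of `K` in `K`. The perimeter is monotone, the diameter does not grow, the
widths decrease by at most `2η`.
-/

namespace Pool.Agent.Helper79.MI

open Pool.Agent.Helper16.Disk7 Pool.Agent.Helper57.CW MeasureTheory Metric Complex Set
open scoped ENNReal Pointwise

/-- A finite net. -/
theorem exists_net {K : Set ℂ} (hK : IsCompact K) {η : ℝ} (hη : 0 < η) :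
    ∃ V : Finset ℂ, (V : Set ℂ) ⊆ K ∧ ∀ z ∈ K, ∃ x ∈ V, ‖z - x‖ ≤ η := by
  obtain ⟨t, htK, htf, htc⟩ := hK.finite_cover_balls hη
  refine ⟨htf.toFinset, by simpa using htK, fun z hz => ?_⟩
  have h1 := htc hz
  simp only [Set.mem_iUnion, mem_ball, exists_prop] at h1
  obtain ⟨x, hx, hd⟩ := h1
  exact ⟨x, by simpa using hx, by rw [← dist_eq_norm]; exact hd.le⟩

/-- Inner polygons for bodies of diameter at most `D`. -/
theorem exists_polygon_diam {K : Set ℂ} (hK : IsCompact K) (hKc : Convex ℝ K)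
    (hne : K.Nonempty) {D η : ℝ} (hη : 0 < η) (hD : ∀ x ∈ K, ∀ y ∈ K, ‖x - y‖ ≤ D) :
    ∃ V : Finset ℂ, V.Nonempty ∧ (V : Set ℂ) ⊆ K ∧ hull V ⊆ K ∧ K ⊆ cthickening η (hull V) ∧
      perimeter (hull V) ≤ perimeter K ∧ perimeter K ≤ perimeter (hull V) + 2 * Real.pi * η ∧
      (∀ x ∈ hull V, ∀ y ∈ hull V, ‖x - y‖ ≤ D) ∧
      (∀ θ, supportFn K θ ≤ supportFn (hull V) θ + η) ∧
      (∀ c a, 0 < a → closedBall c (a + η) ⊆ K → closedBall c a ⊆ hull V) := by
  obtain ⟨V, hVK, hnet⟩ := exists_net hK hη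
  have hVne : V.Nonempty := by
    obtain ⟨z, hz⟩ := hne
    obtain ⟨x, hx, -⟩ := hnet z hz
    exact ⟨x, hx⟩
  have hcomp : IsCompact (hull V) := V.finite_toSet.isCompact_convexHull (𝕜 := ℝ)
  have hsub : hull V ⊆ K := convexHull_min hVK hKc
  have hVh : (V : Set ℂ) ⊆ hull V := subset_convexHull ℝ _
  have hhne : (hull V).Nonempty := by
    obtain ⟨x, hx⟩ := hVne
    exact ⟨x, hVh hx⟩
  have hnear : ∀ z ∈ K, ∃ z' ∈ hull V, ‖z - z'‖ ≤ η := by
    intro z hz
    obtain ⟨x, hx, hxz⟩ := hnet z hz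
    exact ⟨x, hVh hx, hxz⟩
  have hsupp : ∀ θ, supportFn K θ ≤ supportFn (hull V) θ + η := by
    intro θ
    refine Pool.Agent.Helper84.PR.supportFn_le hne fun z hz => ?_
    obtain ⟨z', hz', hzz⟩ := hnear z hz
    have h2 := Pool.Agent.Helper84.PR.le_supportFn hcomp hz' θ
    have h3 : Pool.Agent.Helper84.PR.dir θ z - Pool.Agent.Helper84.PR.dir θ z' ≤ η := by
      rw [← Pool.Agent.Helper84.PR.dir_sub]
      exact (le_abs_self _).trans ((Pool.Agent.Helper84.PR.abs_dir_le _ _).trans hzz)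
    linarith
  refine ⟨V, hVne, hVK, hsub, ?_, ?_, ?_, fun x hx y hy => hD x (hsub hx) y (hsub hy), hsupp, ?_⟩
  · intro z hz
    obtain ⟨z', hz', hzz⟩ := hnear z hz
    exact mem_cthickening_of_dist_le z z' η _ hz' (by rw [dist_eq_norm]; exact hzz)
  · have := Pool.Agent.Helper84.PR.perimeter_le_add (A := hull V) (B := K) (η := 0) hcomp hhne hK
      (fun z hz => ⟨z, hsub hz, by simp⟩)
    simpa using this
  · exact Pool.Agent.Helper84.PR.perimeter_le_add hK hne hcomp hnear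
  · intro c a ha hball
    have h1 : ball c (a + η - η) ⊆ hull V :=
      Pool.Agent.Helper84.PR.ball_subset_of_near (convex_convexHull ℝ _) hcomp.isClosed
        (by linarith) hη.le fun x hx => hnear x (hball hx)
    rw [add_sub_cancel_right] at h1
    rw [← closure_ball c ha.ne']
    exact closure_minimal h1 hcomp.isClosed

/-- Inner polygons for bodies which contain a disk. -/
theorem exists_polygon {K : Set ℂ} (hK : IsCompact K) (hKc : Convex ℝ K) {c : ℂ} {a η : ℝ}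
    (hη : 0 < η) (hηa : η < a) (ha : closedBall c a ⊆ K) :
    ∃ V : Finset ℂ, (V : Set ℂ) ⊆ K ∧ K ⊆ cthickening η (hull V) ∧
      closedBall c (a - η) ⊆ hull V ∧ perimeter (hull V) ≤ perimeter K := by
  have hne : K.Nonempty := ⟨c, ha (mem_closedBall_self (by linarith))⟩
  obtain ⟨D, hD⟩ : ∃ D : ℝ, ∀ x ∈ K, ∀ y ∈ K, ‖x - y‖ ≤ D := by
    obtain ⟨N, hN⟩ := hK.isBounded.exists_norm_le
    exact ⟨N + N, fun x hx y hy => (norm_sub_le _ _).trans (add_le_add (hN x hx) (hN y hy))⟩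
  obtain ⟨V, -, h1, -, h2, h3, -, -, -, h4⟩ := exists_polygon_diam hK hKc hne hη hD
  refine ⟨V, h1, h2, h4 c (a - η) (by linarith) ?_, h3⟩
  rw [sub_add_cancel]
  exact ha

end Pool.Agent.Helper79.MI
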