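import Pool.Agent.Helper79.MI.Defs
import Pool.Agent.Helper84.PR.Red

/-!
# E1: polygons suffice

A special case of `Pool.Agent.Helper84.PR.accommodates_of_approx` (limits of the motions along a
subsequence; a closed convex set `P` with `closedBall p r ⊆ cthickening δ P` contains
`ball p (r - δ)` by separation, so the interiors of the limits are disjoint).
-/

namespace Pool.Agent.Helper79.MI

open Pool.Agent.Helper16.Disk7 Pool.Agent.Helper57.CW MeasureTheory Metric Complex Set
open scoped ENNReal Pointwise

theorem accommodates_of_polygons {k : ℕ} {R : ℝ} {K : Fin k → Set ℂ}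
    (hK : ∀ i, IsCompact (K i)) (hne : ∀ i, (K i).Nonempty)
    (h : ∀ η : ℝ, 0 < η → ∃ V : Fin k → Finset ℂ,
      (∀ i, K i ⊆ cthickening η (hull (V i))) ∧
      Accommodates (closedBall 0 R) (fun i => hull (V i))) :
    Accommodates (closedBall 0 R) K := by
  refine Pool.Agent.Helper84.PR.accommodates_of_approx (isCompact_closedBall 0 R) K hK hne ?_
  intro ε hε
  obtain ⟨V, hV, hacc⟩ := h (ε / 2) (by positivity)
  refine ⟨fun i => hull (V i), hacc, fun i => ⟨convex_convexHull ℝ _,
    ((V i).finite_toSet.isCompact_convexHull (𝕜 := ℝ)).isClosed, fun z hz => ?_⟩⟩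
  have h1 := hV i hz
  have h2 : IsCompact (hull (V i)) := (V i).finite_toSet.isCompact_convexHull (𝕜 := ℝ)
  rw [h2.cthickening_eq_biUnion_closedBall (by positivity)] at h1
  simp only [Set.mem_iUnion, mem_closedBall, exists_prop] at h1
  obtain ⟨z', hz', hd⟩ := h1
  refine ⟨z', hz', ?_⟩
  rw [← dist_eq_norm]
  linarith

end Pool.Agent.Helper79.MI
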