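import Pool.Agent.Helper79.MI.RingCentre
import Pool.Agent.Helper79.MI.Limit
import Pool.Agent.Helper79.MI.ExPoly

/-!
# E7: bodies of perimeter `2π` between circles of radii 0.9 and 1.1

Translate each body so that its centre `c` is `0` (`Accommodates` is invariant), then E1 + E2 (with `η < .01`) + E6.
-/

namespace Pool.Agent.Helper79.MI

open Pool.Agent.Helper16.Disk7 Pool.Agent.Helper57.CW MeasureTheory Metric Complex Set
open scoped ENNReal Pointwise

private lemma convex_translate {K : Set ℂ} (hK : Convex ℝ K) (t : ℂ) :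
    Convex ℝ ((fun z => z + t) '' K) := by
  have h := hK.translate t
  simpa [add_comm] using h

private lemma supp_translate {K : Set ℂ} (hc : IsCompact K) (hne : K.Nonempty) (t : ℂ) (θ : ℝ) :
    supportFn ((fun z => z + t) '' K) θ = supportFn K θ + ip t (e θ) := by
  have hc' : IsCompact ((fun z => z + t) '' K) := hc.image (by fun_prop)
  obtain ⟨z, hz, hz'⟩ := exists_attain hc hne θ
  obtain ⟨y, ⟨y', hy', rfl⟩, hy⟩ := exists_attain hc' (hne.image _) θ
  apply le_antisymm
  · rw [← hy]
    simp only
    rw [ip_add_left]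
    linarith [ip_le_supp hc hy' θ]
  · rw [← hz', ← ip_add_left]
    exact ip_le_supp hc' ⟨z, hz, rfl⟩ θ

private lemma perimeter_translate {K : Set ℂ} (hc : IsCompact K) (hne : K.Nonempty) {t : ℂ}
    (hcont : Continuous (supportFn ((fun z => z + t) '' K))) :
    perimeter ((fun z => z + t) '' K) = perimeter K := by
  have h1 : ∀ θ, supportFn K θ = supportFn ((fun z => z + t) '' K) θ - ip t (e θ) := by
    intro θ
    rw [supp_translate hc hne]
    ring
  have h2 : ∫ θ in (0 : ℝ)..(2 * Real.pi), ip t (e θ) = 0 := by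
    simp only [ip_e]
    rw [intervalIntegral.integral_add (Continuous.intervalIntegrable (by fun_prop) _ _)
      (Continuous.intervalIntegrable (by fun_prop) _ _), intervalIntegral.integral_const_mul,
      intervalIntegral.integral_const_mul, integral_cos, integral_sin]
    simp
  have h3 : Continuous fun θ => ip t (e θ) := by
    simp only [ip_e]
    fun_prop
  rw [perimeter, perimeter, intervalIntegral.integral_congr (fun θ _ => h1 θ),
    intervalIntegral.integral_sub (hcont.intervalIntegrable _ _) (h3.intervalIntegrable _ _), h2,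
    sub_zero]

private lemma accommodates_translate {k : ℕ} {D : Set ℂ} {K : Fin k → Set ℂ} (c : Fin k → ℂ)
    (h : Accommodates D (fun i => (fun z => z + (-c i)) '' K i)) : Accommodates D K := by
  obtain ⟨g, hg, hD, hdis⟩ := h
  refine ⟨fun i z => g i (z + (-c i)), fun i => ?_, fun i => ?_, fun i j hij => ?_⟩
  · obtain ⟨a, b, ha, hb⟩ := hg i
    refine ⟨a, b - a * c i, ha, fun z => ?_⟩
    simp only [hb]
    ring
  · have := hD i
    rwa [image_image] at this
  · have := hdis i j hij
    rwa [image_image, image_image] at this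

theorem accommodates_bodies {n k : ℕ} (hnk : (k = n ∧ (n = 5 ∨ n = 6)) ∨
      (k = n + 1 ∧ (n = 7 ∨ n = 8))) (K : Fin k → Set ℂ) (hK : ∀ i, IsCompact (K i))
    (hKc : ∀ i, Convex ℝ (K i))
    (ha : ∀ i, ∃ c, closedBall c 0.9 ⊆ K i ∧ K i ⊆ closedBall c 1.1)
    (hp : ∀ i, perimeter (K i) = 2 * Real.pi) :
    Accommodates (closedBall 0 (1 + 1 / Real.sin (Real.pi / n))) K := by
  choose c hc1 hc2 using ha
  have hne : ∀ i, (K i).Nonempty := fun i => ⟨c i, hc1 i (by simp; norm_num)⟩
  set K' : Fin k → Set ℂ := fun i => (fun z => z + (-c i)) '' K i with hK'def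
  have hK' : ∀ i, IsCompact (K' i) := fun i => (hK i).image (by fun_prop)
  have hKc' : ∀ i, Convex ℝ (K' i) := fun i => convex_translate (hKc i) _
  have hin : ∀ i, closedBall 0 0.9 ⊆ K' i := by
    intro i z hz
    refine ⟨z + c i, hc1 i ?_, by simp⟩
    rw [mem_closedBall, dist_eq_norm] at hz ⊢
    simpa using hz
  have hout : ∀ i, K' i ⊆ closedBall 0 1.1 := by
    rintro i z ⟨y, hy, rfl⟩
    have h1 := hc2 i hy
    rw [mem_closedBall, dist_eq_norm] at h1 ⊢
    simpa [sub_eq_add_neg] using h1
  have hper : ∀ i, perimeter (K' i) = 2 * Real.pi := by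
    intro i
    rw [← hp i]
    exact perimeter_translate (hK i) (hne i)
      (supp_continuous (hK' i) ((hne i).image _))
  have hmain : Accommodates (closedBall 0 (1 + 1 / Real.sin (Real.pi / n))) K' := by
    apply accommodates_of_polygons hK' hKc'
    intro η hη
    set η₁ : ℝ := min η 0.01 with hη₁
    have hη₁p : 0 < η₁ := lt_min hη (by norm_num)
    have hη₁l : η₁ ≤ 0.01 := min_le_right _ _
    have hη₁η : η₁ ≤ η := min_le_left _ _
    choose V hV1 hV2 hV3 hV4 using fun i =>
      exists_polygon (hK' i) (hKc' i) hη₁p (by linarith : η₁ < 0.9) (hin i)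
    refine ⟨V, hV1, fun i => (hV2 i).trans (cthickening_mono hη₁η _), ?_⟩
    apply accommodates_polygons hnk V
    · intro i
      refine Subset.trans (closedBall_subset_closedBall ?_) (hV3 i)
      linarith
    · intro i
      exact (convexHull_min (hV1 i) (hKc' i)).trans (hout i)
    · intro i
      rw [← hper i]
      exact hV4 i
  exact accommodates_translate c hmain

end Pool.Agent.Helper79.MI
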