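import Pool.Agent.Helper79.MI.Defs

/-!
# B1: the crossing point

`A = ctr V R`, `B = ctr W R` (compact, convex), `c` is interior to both. For `φ ∈ ℝ` let
`a(φ) = sup {s ≥ 0 | c + s e φ ∈ A}`, `b(φ)` similarly: continuous, positive, `2π`-periodic;
`c + s e φ ∈ A ↔ s ≤ a(φ)` for `s ≥ 0`. (Explicitly `a(φ) = min_{x ∈ V} ρ_x(φ)` where `ρ_x(φ)` is the
positive root of `|c + s e φ - x| = R`, that is with `u = x - c`, `|u| < R`:
`ρ_x(φ) = ip u (e φ) + √((ip u (e φ))^2 + R^2 - |u|^2)`; this makes continuity obvious.)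
`p` gives a direction with `a > b`, `q` a direction with `b > a`. Let `a(φ₂) < b(φ₂)` and
`a(φ₁) > b(φ₁)` with `φ₂ < φ₁ < φ₂ + 2π`, and `φ* = inf {φ ≥ φ₂ | a(φ) > b(φ)}`. Then
`a(φ*) = b(φ*)`, and there are `φ_n ↓ φ*`, `φ_n > φ*`, with `a(φ_n) > b(φ_n)`. Let `O = c + a(φ*) e φ*`:
`O ∈ A ∩ B` and some `x ∈ V` has `|x - O| = R`. The point `b_n = c + b(φ_n) e φ_n` lies in `A ∩ B`, and
there is `y ∈ W` with `|y - b_n| = R` for infinitely many `n`; so `|y - O| = R`.
Orientation: put `β_n = b_n - O → 0`, `β_n ≠ 0`. `|b_n - x| ≤ R = |O - x|` and `|b_n - y| = R = |O - y|`, so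
`2 ip β_n (O - x) + |β_n|^2 ≤ 0` and `2 ip β_n (O - y) + |β_n|^2 = 0`. A limit point `β` of `β_n/|β_n|`
satisfies `ip β (O - x) ≤ 0`, `ip β (O - y) = 0`, and `cross (O - c) β ≥ 0` (as `φ_n > φ*`). Since
`ip (O - c) (O - y) > 0` (`c` is interior to the disk of centre `y`), `β` is the rotation by `+90°` of
`(O - y)/R`, and `ip β (O - x) ≤ 0` says `cross (O - x) (O - y) ≥ 0`.
-/

namespace Pool.Agent.Helper79.MI

open Pool.Agent.Helper16.Disk7 Pool.Agent.Helper57.CW MeasureTheory Metric Complex Set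
open scoped ENNReal Pointwise

/-- The component of `u` in the direction `φ`. -/
private noncomputable def tt30 (u : ℂ) (φ : ℝ) : ℝ := u.re * Real.cos φ + u.im * Real.sin φ

/-- The component of `u` in the direction `φ + π/2`. -/
private noncomputable def td30 (u : ℂ) (φ : ℝ) : ℝ := -(u.re * Real.sin φ) + u.im * Real.cos φ

private theorem hasDeriv_tt30 (u : ℂ) (φ : ℝ) : HasDerivAt (tt30 u) (td30 u φ) φ := by
  have h1 := ((Real.hasDerivAt_cos φ).const_mul u.re).add ((Real.hasDerivAt_sin φ).const_mul u.im)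
  have h2 : u.re * -Real.sin φ + u.im * Real.cos φ = td30 u φ := by
    unfold td30
    ring
  rw [h2] at h1
  exact h1

/-- The discriminant. -/
private noncomputable def dd30 (R : ℝ) (u : ℂ) (φ : ℝ) : ℝ := tt30 u φ ^ 2 + (R ^ 2 - ‖u‖ ^ 2)

/-- The radial function of the disk of centre `u` and radius `R`. -/
private noncomputable def rho30 (R : ℝ) (u : ℂ) (φ : ℝ) : ℝ := tt30 u φ + √(dd30 R u φ)

private theorem gap30 {R : ℝ} {u : ℂ} (hu : ‖u‖ < R) : 0 < R ^ 2 - ‖u‖ ^ 2 := by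
  have h0 := norm_nonneg u
  nlinarith

private theorem dd_pos30 {R : ℝ} {u : ℂ} (hu : ‖u‖ < R) (φ : ℝ) : 0 < dd30 R u φ := by
  have h1 := gap30 hu
  unfold dd30
  positivity

private theorem abs_tt_lt30 {R : ℝ} {u : ℂ} (hu : ‖u‖ < R) (φ : ℝ) : |tt30 u φ| < √(dd30 R u φ) := by
  rw [← Real.sqrt_sq_eq_abs]
  refine Real.sqrt_lt_sqrt (sq_nonneg _) ?_
  have h1 := gap30 hu
  unfold dd30
  linarith

private theorem rho_pos30 {R : ℝ} {u : ℂ} (hu : ‖u‖ < R) (φ : ℝ) : 0 < rho30 R u φ := by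
  have h1 := (abs_lt.1 (abs_tt_lt30 hu φ)).1
  unfold rho30
  linarith

private theorem norm_sq30 (x c : ℂ) (s φ : ℝ) :
    ‖x - (c + s * e φ)‖ ^ 2 = s ^ 2 - 2 * s * tt30 (x - c) φ + ‖x - c‖ ^ 2 := by
  rw [Complex.sq_norm, Complex.sq_norm, Complex.normSq_apply, Complex.normSq_apply]
  simp only [Complex.sub_re, Complex.add_re, Complex.mul_re, Complex.ofReal_re, Complex.ofReal_im,
    Complex.sub_im, Complex.add_im, Complex.mul_im, e_re, e_im, tt30]
  linear_combination s ^ 2 * Real.sin_sq_add_cos_sq φ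

private theorem norm_le_iff30 {R : ℝ} {x c : ℂ} (hu : ‖x - c‖ < R) {s : ℝ} (hs : 0 ≤ s) (φ : ℝ) :
    ‖x - (c + s * e φ)‖ ≤ R ↔ s ≤ rho30 R (x - c) φ := by
  have hR : 0 ≤ R := (norm_nonneg _).trans hu.le
  have h1 : ‖x - (c + s * e φ)‖ ≤ R ↔ ‖x - (c + s * e φ)‖ ^ 2 ≤ R ^ 2 :=
    (sq_le_sq₀ (norm_nonneg _) hR).symm
  have h2 := (abs_lt.1 (abs_tt_lt30 hu φ))
  have h3 : √(dd30 R (x - c) φ) ^ 2 = dd30 R (x - c) φ := Real.sq_sqrt (dd_pos30 hu φ).le
  rw [h1, norm_sq30]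
  unfold rho30
  have h4 : dd30 R (x - c) φ = tt30 (x - c) φ ^ 2 + (R ^ 2 - ‖x - c‖ ^ 2) := rfl
  constructor
  · intro h
    have h5 : (s - tt30 (x - c) φ) ^ 2 ≤ √(dd30 R (x - c) φ) ^ 2 := by
      rw [h3, h4]
      nlinarith
    have h6 := abs_le_of_sq_le_sq h5 (Real.sqrt_nonneg _)
    linarith [(abs_le.1 h6).2]
  · intro h
    have h5 : |s - tt30 (x - c) φ| ≤ √(dd30 R (x - c) φ) := by
      rw [abs_le]
      constructor <;> linarith
    have h6 : (s - tt30 (x - c) φ) ^ 2 ≤ √(dd30 R (x - c) φ) ^ 2 := sq_le_sq' (by linarith [(abs_le.1 h5).1])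
      (abs_le.1 h5).2
    rw [h3, h4] at h6
    nlinarith

private theorem norm_eq30 {R : ℝ} {x c : ℂ} (hu : ‖x - c‖ < R) (φ : ℝ) :
    ‖x - (c + (rho30 R (x - c) φ : ℝ) * e φ)‖ = R := by
  have hR : 0 ≤ R := (norm_nonneg _).trans hu.le
  have h3 : √(dd30 R (x - c) φ) ^ 2 = dd30 R (x - c) φ := Real.sq_sqrt (dd_pos30 hu φ).le
  have h4 : dd30 R (x - c) φ = tt30 (x - c) φ ^ 2 + (R ^ 2 - ‖x - c‖ ^ 2) := rfl
  have h5 : ‖x - (c + (rho30 R (x - c) φ : ℝ) * e φ)‖ ^ 2 = R ^ 2 := by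
    rw [norm_sq30]
    unfold rho30
    rw [h4] at h3
    rw [h4]
    nlinarith
  exact (sq_eq_sq₀ (norm_nonneg _) hR).1 h5

private theorem hasDeriv_rho30 {R : ℝ} {u : ℂ} (hu : ‖u‖ < R) (φ : ℝ) :
    HasDerivAt (rho30 R u) (td30 u φ * rho30 R u φ / √(dd30 R u φ)) φ := by
  have h1 := hasDeriv_tt30 u φ
  have h2 : HasDerivAt (dd30 R u) (2 * tt30 u φ * td30 u φ) φ := by
    have h3 := (h1.pow 2).add_const (R ^ 2 - ‖u‖ ^ 2)
    have h4 : ((2 : ℕ) : ℝ) * tt30 u φ ^ (2 - 1) * td30 u φ = 2 * tt30 u φ * td30 u φ := by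
      norm_num
    rw [h4] at h3
    exact h3
  have h5 := h2.sqrt (dd_pos30 hu φ).ne'
  have h6 := h1.add h5
  have hpos : 0 < √(dd30 R u φ) := Real.sqrt_pos.2 (dd_pos30 hu φ)
  have h7 : td30 u φ + 2 * tt30 u φ * td30 u φ / (2 * √(dd30 R u φ)) =
      td30 u φ * rho30 R u φ / √(dd30 R u φ) := by
    unfold rho30
    field_simp
    ring
  rw [h7] at h6
  exact h6

private theorem cont_rho30 {R : ℝ} {u : ℂ} (hu : ‖u‖ < R) : Continuous (rho30 R u) :=
  continuous_iff_continuousAt.2 fun φ => (hasDeriv_rho30 hu φ).continuousAt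

/-- The point `c + s e φ` for `z ≠ c`. -/
private theorem polar30 (z c : ℂ) : z = c + (‖z - c‖ : ℝ) * e (Complex.arg (z - c)) := by
  have h := Complex.norm_mul_exp_arg_mul_I (z - c)
  unfold e
  rw [h]
  ring

open Filter Topology in
theorem crossing {V W : Finset ℂ} {R : ℝ} {c p q : ℂ} (hcV : ∀ x ∈ V, ‖x - c‖ < R)
    (hcW : ∀ y ∈ W, ‖y - c‖ < R) (hpV : p ∈ ctr V R) (hpW : p ∉ ctr W R)
    (hqW : q ∈ ctr W R) (hqV : q ∉ ctr V R) :
    ∃ O : ℂ, O ∈ ctr V R ∧ O ∈ ctr W R ∧ ∃ x ∈ V, ∃ y ∈ W, ‖x - O‖ = R ∧ ‖y - O‖ = R ∧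
      0 ≤ (x - O).re * (y - O).im - (x - O).im * (y - O).re := by
  have hpW' : ∃ y ∈ W, R < ‖y - p‖ := by
    by_contra hcon
    push Not at hcon
    exact hpW fun y hy => hcon y hy
  have hqV' : ∃ x ∈ V, R < ‖x - q‖ := by
    by_contra hcon
    push Not at hcon
    exact hqV fun y hy => hcon y hy
  have hVne : V.Nonempty := by
    obtain ⟨x, hx, -⟩ := hqV'
    exact ⟨x, hx⟩
  have hWne : W.Nonempty := by
    obtain ⟨y, hy, -⟩ := hpW'
    exact ⟨y, hy⟩
  set a : ℝ → ℝ := fun φ => V.inf' hVne fun x => rho30 R (x - c) φ with ha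
  set b : ℝ → ℝ := fun φ => W.inf' hWne fun y => rho30 R (y - c) φ with hb
  have hac : Continuous a := Continuous.finset_inf'_apply hVne fun x hx => cont_rho30 (hcV x hx)
  have hbc : Continuous b := Continuous.finset_inf'_apply hWne fun y hy => cont_rho30 (hcW y hy)
  have hale : ∀ φ, ∀ x ∈ V, a φ ≤ rho30 R (x - c) φ := fun φ x hx =>
    Finset.inf'_le (fun x => rho30 R (x - c) φ) hx
  have hble : ∀ φ, ∀ y ∈ W, b φ ≤ rho30 R (y - c) φ := fun φ y hy =>
    Finset.inf'_le (fun y => rho30 R (y - c) φ) hy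
  have hapos : ∀ φ, 0 < a φ := fun φ => by
    obtain ⟨x, hx, h1⟩ := Finset.exists_mem_eq_inf' hVne fun x => rho30 R (x - c) φ
    rw [ha]
    dsimp only
    rw [h1]
    exact rho_pos30 (hcV x hx) φ
  set f : ℝ → ℝ := fun φ => a φ - b φ with hf
  have hfc : Continuous f := hac.sub hbc
  -- the direction of p
  have hp0 : 0 < f (Complex.arg (p - c) + 2 * Real.pi) := by
    have h0 : ∀ u : ℂ, rho30 R u (Complex.arg (p - c) + 2 * Real.pi) = rho30 R u (Complex.arg (p - c)) := by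
      intro u
      unfold rho30 dd30 tt30
      rw [Real.cos_add_two_pi, Real.sin_add_two_pi]
    have h1 : ‖p - c‖ ≤ a (Complex.arg (p - c) + 2 * Real.pi) := by
      refine Finset.le_inf' hVne _ fun x hx => ?_
      rw [h0, ← norm_le_iff30 (hcV x hx) (norm_nonneg _), ← polar30]
      exact hpV x hx
    obtain ⟨y, hy, hy2⟩ := hpW'
    have h2 : rho30 R (y - c) (Complex.arg (p - c) + 2 * Real.pi) < ‖p - c‖ := by
      rw [h0]
      by_contra hcon
      push Not at hcon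
      rw [← norm_le_iff30 (hcW y hy) (norm_nonneg _), ← polar30] at hcon
      linarith
    have h3 := hble (Complex.arg (p - c) + 2 * Real.pi) y hy
    rw [hf]
    dsimp only
    linarith
  -- the direction of q
  have hq0 : f (Complex.arg (q - c)) < 0 := by
    have h1 : ‖q - c‖ ≤ b (Complex.arg (q - c)) := by
      refine Finset.le_inf' hWne _ fun y hy => ?_
      rw [← norm_le_iff30 (hcW y hy) (norm_nonneg _), ← polar30]
      exact hqW y hy
    obtain ⟨x, hx, hx2⟩ := hqV'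
    have h2 : rho30 R (x - c) (Complex.arg (q - c)) < ‖q - c‖ := by
      by_contra hcon
      push Not at hcon
      rw [← norm_le_iff30 (hcV x hx) (norm_nonneg _), ← polar30] at hcon
      linarith
    have h3 := hale (Complex.arg (q - c)) x hx
    rw [hf]
    dsimp only
    linarith
  set φ₂ := Complex.arg (q - c) with hφ₂
  set φ₁ := Complex.arg (p - c) + 2 * Real.pi with hφ₁
  have h21 : φ₂ ≤ φ₁ := by
    have h1 := Complex.arg_le_pi (q - c)
    have h2 := Complex.neg_pi_lt_arg (p - c)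
    rw [hφ₁, hφ₂]
    linarith
  -- the last crossing
  have hScomp : IsCompact (Set.Icc φ₂ φ₁ ∩ {φ | f φ ≤ 0}) :=
    isCompact_Icc.inter_right (isClosed_le hfc continuous_const)
  obtain ⟨φs, hφs, hmax⟩ := hScomp.exists_isGreatest ⟨φ₂, ⟨le_rfl, h21⟩, hq0.le⟩
  have hφs1 : φs < φ₁ := by
    refine lt_of_le_of_ne hφs.1.2 fun h => ?_
    have h1 : f φs ≤ 0 := hφs.2
    rw [h] at h1
    linarith
  have hpos : ∀ᶠ φ in 𝓝[>] φs, 0 < f φ := by
    filter_upwards [Ioc_mem_nhdsGT hφs1] with φ hφ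
    by_contra hcon
    push Not at hcon
    have h1 := hmax ⟨⟨hφs.1.1.trans hφ.1.le, hφ.2⟩, hcon⟩
    exact absurd hφ.1 (not_lt.2 h1)
  have hf0 : f φs = 0 := by
    refine le_antisymm hφs.2 ?_
    exact ge_of_tendsto (hfc.continuousWithinAt (s := Set.Ioi φs) (x := φs)).tendsto
      (hpos.mono fun φ h => h.le)
  have hab : a φs = b φs := by
    have h1 : a φs - b φs = 0 := hf0
    linarith
  obtain ⟨x, hx, hxa⟩ := Finset.exists_mem_eq_inf' hVne fun x => rho30 R (x - c) φs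
  have hy : ∃ y ∈ W, ∃ᶠ φ in 𝓝[>] φs, rho30 R (y - c) φ = b φ := by
    by_contra hcon
    push Not at hcon
    have h1 : ∀ᶠ φ in 𝓝[>] φs, ∀ y ∈ W, rho30 R (y - c) φ ≠ b φ := by
      rw [Filter.eventually_all_finset]
      exact hcon
    obtain ⟨φ, hφ⟩ := h1.exists
    obtain ⟨y, hy, h3⟩ := Finset.exists_mem_eq_inf' hWne fun y => rho30 R (y - c) φ
    exact hφ y hy h3.symm
  obtain ⟨y, hy, hfreq⟩ := hy
  have hxs : rho30 R (x - c) φs = a φs := hxa.symm
  have hys : rho30 R (y - c) φs = b φs := by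
    have h1 : Continuous fun φ => rho30 R (y - c) φ - b φ := (cont_rho30 (hcW y hy)).sub hbc
    have h2 := (h1.continuousWithinAt (s := Set.Ioi φs) (x := φs)).tendsto
    have h3 := le_of_tendsto_of_frequently h2 (b := 0) (hfreq.mono fun φ h => by linarith)
    have h4 := hble φs y hy
    linarith
  set g : ℝ → ℝ := fun φ => rho30 R (x - c) φ - rho30 R (y - c) φ with hg
  have hg0 : g φs = 0 := by
    rw [hg]
    dsimp only
    rw [hxs, hys, hab, sub_self]
  have hgd := (hasDeriv_rho30 (hcV x hx) φs).sub (hasDeriv_rho30 (hcW y hy) φs)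
  have hgd0 : 0 ≤ td30 (x - c) φs * rho30 R (x - c) φs / √(dd30 R (x - c) φs) -
      td30 (y - c) φs * rho30 R (y - c) φs / √(dd30 R (y - c) φs) := by
    have h1 := hasDerivAt_iff_tendsto_slope.1 hgd
    have h2 := h1.mono_left (nhdsWithin_mono φs (fun z (hz : z ∈ Set.Ioi φs) => ne_of_gt hz))
    refine ge_of_tendsto_of_frequently h2 ?_
    refine (hfreq.and_eventually (hpos.and self_mem_nhdsWithin)).mono ?_
    rintro φ ⟨h3, h4, h5⟩
    have h6 : g φ = rho30 R (x - c) φ - rho30 R (y - c) φ := rfl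
    have h7 : 0 < g φ := by
      have h8 := hale φ x hx
      have h9 : 0 < a φ - b φ := h4
      rw [h6, h3]
      linarith
    have h10 : slope (fun φ => rho30 R (x - c) φ - rho30 R (y - c) φ) φs φ = g φ / (φ - φs) := by
      rw [slope_def_field]
      have h11 : rho30 R (x - c) φs - rho30 R (y - c) φs = 0 := hg0
      rw [h11, sub_zero]
    have h12 : 0 < φ - φs := sub_pos.2 h5
    change 0 ≤ slope (fun φ => rho30 R (x - c) φ - rho30 R (y - c) φ) φs φ
    rw [h10]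
    positivity
  -- the algebra
  set s := a φs with hs
  have hspos : 0 < s := hapos φs
  have hxs' : rho30 R (x - c) φs = s := hxs
  have hys' : rho30 R (y - c) φs = s := hys.trans hab.symm
  have hDx : √(dd30 R (x - c) φs) = s - tt30 (x - c) φs := by
    have h1 : tt30 (x - c) φs + √(dd30 R (x - c) φs) = s := hxs'
    linarith
  have hDy : √(dd30 R (y - c) φs) = s - tt30 (y - c) φs := by
    have h1 : tt30 (y - c) φs + √(dd30 R (y - c) φs) = s := hys'
    linarith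
  have hDx0 : 0 < s - tt30 (x - c) φs := by
    rw [← hDx]
    exact Real.sqrt_pos.2 (dd_pos30 (hcV x hx) φs)
  have hDy0 : 0 < s - tt30 (y - c) φs := by
    rw [← hDy]
    exact Real.sqrt_pos.2 (dd_pos30 (hcW y hy) φs)
  rw [hxs', hys', hDx, hDy, div_sub_div _ _ hDx0.ne' hDy0.ne'] at hgd0
  have hnum : 0 ≤ td30 (x - c) φs * s * (s - tt30 (y - c) φs) -
      (s - tt30 (x - c) φs) * (td30 (y - c) φs * s) := by
    by_contra hcon
    push Not at hcon
    exact absurd hgd0 (not_le.2 (div_neg_of_neg_of_pos hcon (mul_pos hDx0 hDy0)))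
  have hnum2 : 0 ≤ td30 (x - c) φs * (s - tt30 (y - c) φs) - (s - tt30 (x - c) φs) * td30 (y - c) φs := by
    have h1 : td30 (x - c) φs * s * (s - tt30 (y - c) φs) - (s - tt30 (x - c) φs) * (td30 (y - c) φs * s) =
        s * (td30 (x - c) φs * (s - tt30 (y - c) φs) - (s - tt30 (x - c) φs) * td30 (y - c) φs) := by ring
    rw [h1] at hnum
    exact (mul_nonneg_iff_of_pos_left hspos).1 hnum
  refine ⟨c + (s : ℝ) * e φs, fun x' hx' => ?_, fun y' hy' => ?_, x, hx, y, hy, ?_, ?_, ?_⟩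
  · exact (norm_le_iff30 (hcV x' hx') hspos.le φs).2 (hale φs x' hx')
  · refine (norm_le_iff30 (hcW y' hy') hspos.le φs).2 ?_
    rw [hab]
    exact hble φs y' hy'
  · have h1 := norm_eq30 (hcV x hx) φs
    rwa [hxs'] at h1
  · have h1 := norm_eq30 (hcW y hy) φs
    rwa [hys'] at h1
  · refine hnum2.trans (le_of_eq ?_)
    simp only [Complex.sub_re, Complex.add_re, Complex.mul_re, Complex.ofReal_re, Complex.ofReal_im,
      Complex.sub_im, Complex.add_im, Complex.mul_im, e_re, e_im, tt30, td30]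
    linear_combination ((x.re - c.re) * (y.im - c.im) - (x.im - c.im) * (y.re - c.re)) *
      Real.sin_sq_add_cos_sq φs

end Pool.Agent.Helper79.MI
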