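import Pool.Agent.Helper57.CW.Rot

/-!
# The mean value inequality for the contact angle: definitions

`K` and `L` are convex polygons (`V`, `W` are their sets of vertices, or any finite sets with
these convex hulls), the container is a closed disk of radius `R`. A *state* of the polygon of
vertex set `V` is a pair `(x, v)` with `x ∈ V` and `v ∈ st V R x`: the polygon lies in the disk
of radius `R` and centre `x - R e v`, and it touches the boundary of this disk at the point `x`,
in the direction `v` from the centre.
-/

namespace Pool.Agent.Helper79.MI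

open Pool.Agent.Helper16.Disk7 Pool.Agent.Helper57.CW MeasureTheory Metric Complex Set
open scoped ENNReal

/-- The set of the centres of the closed disks of radius `R` which contain `K`. -/
def ctr (K : Set ℂ) (R : ℝ) : Set ℂ := {O | ∀ x ∈ K, ‖x - O‖ ≤ R}

/-- The polygon of vertex set `V`. -/
def hull (V : Finset ℂ) : Set ℂ := convexHull ℝ (V : Set ℂ)

/-- The image of `K` under the rotation of angle `w` about `0`. -/
def rot (w : ℝ) (K : Set ℂ) : Set ℂ := (fun z => e w * z) '' K

/-- The image of `K` under the rigid motion `z ↦ e γ * z + τ`. -/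
def mov (γ : ℝ) (τ : ℂ) (K : Set ℂ) : Set ℂ := (fun z => e γ * z + τ) '' K

/-- The directions `v` in which the vertex `x` touches the boundary of a disk of radius `R`
containing the polygon (a set of real numbers invariant under the translation by `2π`). -/
def st (V : Finset ℂ) (R : ℝ) (x : ℂ) : Set ℝ := {v | ∀ y ∈ V, ‖y - (x - R * e v)‖ ≤ R}

/-- The polygon placed into the disk of radius `R` and centre `0` according to the state `(x, v)`,
the contact point being `R`. -/
def pl (V : Finset ℂ) (R : ℝ) (x : ℂ) (v : ℝ) : Set ℂ :=
  (fun z => e (-v) * (z - (x - R * e v))) '' hull V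

/-- The integral of `sin w` over the angles `w` in `(0, π)` for which the placed polygon
`pl V R x v` and the rotated placed polygon `rot w (pl W R y v')` are disjoint. -/
noncomputable def gain (V W : Finset ℂ) (R : ℝ) (x : ℂ) (v : ℝ) (y : ℂ) (v' : ℝ) : ℝ≥0∞ :=
  ∫⁻ w in Ico 0 (2 * Real.pi) ∩ {w | Disjoint (pl V R x v) (rot w (pl W R y v'))},
    ENNReal.ofReal (Real.sin w)

/-- The total measure of the states (divided by `R`). -/
noncomputable def mass (V : Finset ℂ) (R : ℝ) : ℝ≥0∞ :=
  ∑ x ∈ V, volume (st V R x ∩ Ico 0 (2 * Real.pi))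

/-- The circumscribed polygon: the intersection of the half planes of normal directions
`t + j (2π/N)` given by the function `h`. -/
def WN (N : ℕ) (h : ℝ → ℝ) (t : ℝ) : Set ℂ :=
  {z | ∀ j : ℕ, j < N → ip z (e (t + j * (2 * Real.pi / N))) ≤ h (t + j * (2 * Real.pi / N))}

/-- The area functional (`FN N h t` is the area of `WN N h t` if `h` is a support function). -/
noncomputable def FN (N : ℕ) (h : ℝ → ℝ) (t : ℝ) : ℝ :=
  ∑ j ∈ Finset.range N, h (t + j * (2 * Real.pi / N)) *
    (h (t + (j + 1) * (2 * Real.pi / N)) + h (t + (j - 1) * (2 * Real.pi / N))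
      - 2 * Real.cos (2 * Real.pi / N) * h (t + j * (2 * Real.pi / N)))
      / (2 * Real.sin (2 * Real.pi / N))

/-- The density of the states and angles. -/
noncomputable def dens (V W : Finset ℂ) (R : ℝ) (x y : ℂ) (v v' w : ℝ) : ℝ≥0∞ :=
  open Classical in
  if v ∈ st V R x ∧ v' ∈ st W R y ∧ Disjoint (pl V R x v) (rot w (pl W R y v'))
  then ENNReal.ofReal (R ^ 2 * Real.sin w) else 0

/-- A body in the disk of centre `0` and radius `R`, touching its boundary at the point `R`, and
lying between the circles of centre `c` and radii `a` and `b`. -/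
structure Placed (R a b : ℝ) (K : Set ℂ) (c : ℂ) : Prop where
  isCompact : IsCompact K
  convex : Convex ℝ K
  sub : K ⊆ closedBall 0 R
  touch : (R : ℂ) ∈ K
  inner : closedBall c a ⊆ K
  outer : K ⊆ closedBall c b

/-- The contact angle. -/
noncomputable def psi (K L : Set ℂ) : ℝ :=
  sInf ({w | 0 < w ∧ w < Real.pi ∧ Disjoint K (rot w L)} ∪ {Real.pi})

end Pool.Agent.Helper79.MI
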