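import Pool.Agent.Helper79.MI.MeanGain
import Pool.Agent.Helper79.MI.States
import Pool.Agent.Helper79.MI.Gain

/-!
# States of a cyclic family of polygons with a large sum of the cosines of the contact angles
-/

namespace Pool.Agent.Helper79.MI

open Pool.Agent.Helper16.Disk7 Pool.Agent.Helper57.CW MeasureTheory Metric Complex Set
open scoped ENNReal Pointwise

theorem good_states {n : ℕ} [NeZero n] (hn : 2 ≤ n) {R d : ℝ} (hRd : R = 1 + d) (hd : 2 ≤ d ^ 2)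
    (hd0 : 0 < d) (V : Fin n → Finset ℂ) (h0 : ∀ i, 0 ∈ interior (hull (V i)))
    (hVR : ∀ i, ∀ x ∈ V i, ‖x‖ < R) (hp : ∀ i, perimeter (hull (V i)) ≤ 2 * Real.pi)
    (hNC : ∀ (i : Fin n) (γ : ℝ) (τ : ℂ),
      Disjoint (hull (V i)) (mov γ τ (hull (V (i + 1)))) →
      ¬ (ctr (V i) R ⊆ ctr (mov γ τ (V (i + 1))) R) ∧
        ¬ (ctr (mov γ τ (V (i + 1))) R ⊆ ctr (V i) R)) :
    ∃ (x : Fin n → ℂ) (v : Fin n → ℝ), (∀ i, x i ∈ V i ∧ v i ∈ st (V i) R (x i)) ∧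
      n * (1 - 2 / d ^ 2) ≤ ∑ i, Real.cos (psi (pl (V i) R (x i) (v i))
        (pl (V (i + 1)) R (x (i + 1)) (v (i + 1)))) := by
  have hmg := fun i => mean_gain hRd hd hd0 (h0 i) (h0 (i + 1)) (hVR i) (hVR (i + 1)) (hp i)
    (hp (i + 1)) (hNC i)
  obtain ⟨x, v, hxv, hsum⟩ := exists_states hn (R := R) (c := ENNReal.ofReal (2 - 2 / d ^ 2))
    ENNReal.ofReal_ne_top V (fun i => (hmg i).2.1) (fun i => (hmg i).1)
  refine ⟨x, v, hxv, ?_⟩
  have h22 : 0 ≤ 2 - 2 / d ^ 2 := by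
    have hd2 : 0 < d ^ 2 := by positivity
    have : 2 / d ^ 2 ≤ 1 := by
      rw [div_le_one hd2]; exact hd
    linarith
  have h1 : (n : ℝ≥0∞) * ENNReal.ofReal (2 - 2 / d ^ 2) ≤
      ∑ i, ENNReal.ofReal (1 + Real.cos (psi (pl (V i) R (x i) (v i))
        (pl (V (i + 1)) R (x (i + 1)) (v (i + 1))))) :=
    hsum.trans (Finset.sum_le_sum fun i _ => (gain_le _ _ _ _ _ _ _).1)
  have hnn : ∀ t : ℝ, 0 ≤ 1 + Real.cos t := fun t => by linarith [Real.neg_one_le_cos t]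
  rw [← ENNReal.ofReal_sum_of_nonneg fun i _ => hnn _, ← ENNReal.ofReal_natCast,
    ← ENNReal.ofReal_mul (by positivity), ENNReal.ofReal_le_ofReal_iff
    (Finset.sum_nonneg fun i _ => hnn _), Finset.sum_add_distrib] at h1
  simp only [Finset.sum_const, Finset.card_univ, Fintype.card_fin, nsmul_eq_mul, mul_one] at h1
  linarith

end Pool.Agent.Helper79.MI
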