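import Pool.Agent.Helper79.MI.Supp
import Pool.Agent.Helper72.PR.Up

/-!
# D1: interval property

Special case of `Pool.Agent.Helper72.PR.up_set`: the bodies have diameter at most `2.2` and widths
at least `1.78`.
-/

namespace Pool.Agent.Helper79.MI

open Pool.Agent.Helper16.Disk7 Pool.Agent.Helper57.CW MeasureTheory Metric Complex Set
open scoped ENNReal Pointwise

theorem par_placed {R : ℝ} (hR : 2.7 ≤ R) : Pool.Agent.Helper72.PR.Par R 2.2 1.78 where
  D_pos := by norm_num
  D_lt := by linarith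
  W_pos := by norm_num
  W_le := by linarith
  cap := by
    apply Real.lt_sqrt_of_sq_lt
    nlinarith

theorem body_placed {R : ℝ} {K : Set ℂ} {c : ℂ} (hK : Placed R 0.89 1.1 K c) :
    Pool.Agent.Helper72.PR.Body R 2.2 1.78 K where
  isCompact := hK.isCompact
  convex := hK.convex
  sub := hK.sub
  touch := hK.touch
  diam := by
    intro x hx y hy
    have h1 := hK.outer hx
    have h2 := hK.outer hy
    rw [mem_closedBall] at h1 h2
    rw [← dist_eq_norm]
    have := dist_triangle_right x y c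
    linarith
  width := by
    intro θ
    refine ⟨c + ((0.89 : ℝ) : ℂ) * e θ, hK.inner ?_, c - ((0.89 : ℝ) : ℂ) * e θ, hK.inner ?_, ?_⟩
    · rw [mem_closedBall, dist_eq_norm, add_sub_cancel_left, norm_mul, norm_e, mul_one,
        Complex.norm_real, Real.norm_eq_abs, abs_of_pos (by norm_num)]
    · rw [mem_closedBall, dist_eq_norm, sub_sub_cancel_left, norm_neg, norm_mul, norm_e, mul_one,
        Complex.norm_real, Real.norm_eq_abs, abs_of_pos (by norm_num)]
    · rw [ip_add_left, ip_sub_left, ip_smul, ip_e_e, sub_self, Real.cos_zero]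
      norm_num

theorem disjoint_mono {R : ℝ} (hR : 2.7 ≤ R) (hR4 : R ≤ 4) {K L : Set ℂ} {c c' : ℂ}
    (hK : Placed R 0.89 1.1 K c) (hL : Placed R 0.89 1.1 L c') {w1 w2 : ℝ} (h0 : 0 < w1)
    (h12 : w1 ≤ w2) (h2 : w2 < Real.pi) (h : Disjoint K (rot w1 L)) : Disjoint K (rot w2 L) :=
  Pool.Agent.Helper72.PR.up_set (par_placed hR) (body_placed hK) (body_placed hL) h0 h12 h2 h

end Pool.Agent.Helper79.MI
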