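import Pool.Agent.Helper79.MI.Supp

/-!
# A7: perimeter of the set of the centres

`supportFn (ctr K R) θ ≤ R - supportFn K (θ + π)` (`mem_ctr_iff` in `MI/Supp.lean`); integrate over
`[0, 2π]` (support functions of compact sets are continuous, `supp_continuous`; periodicity for the
shift by `π`).
-/

namespace Pool.Agent.Helper79.MI

open Pool.Agent.Helper16.Disk7 Pool.Agent.Helper57.CW MeasureTheory Metric Complex Set
open scoped ENNReal Pointwise

theorem perimeter_ctr_le {K : Set ℂ} {R : ℝ} (hK : IsCompact K) (hne : K.Nonempty)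
    (hR : K ⊆ ball 0 R) :
    perimeter (ctr K R) ≤ 2 * Real.pi * R - perimeter K := by
  have h0 : (0 : ℂ) ∈ ctr K R := by
    intro x hx
    have h1 := hR hx
    rw [mem_ball, dist_zero_right] at h1
    rw [sub_zero]
    exact h1.le
  have hcne : (ctr K R).Nonempty := ⟨0, h0⟩
  have hcc : IsCompact (ctr K R) := isCompact_ctr hne R
  have hc1 : Continuous (supportFn (ctr K R)) := supp_continuous hcc hcne
  have hc2 : Continuous (supportFn K) := supp_continuous hK hne
  have hc3 : Continuous fun θ : ℝ => supportFn K (θ + Real.pi) := by fun_prop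
  have hle : ∀ θ, supportFn (ctr K R) θ ≤ R - supportFn K (θ + Real.pi) := fun θ =>
    supp_le hcc hcne fun O hO => (mem_ctr_iff hK hne).1 hO θ
  have h2π : (0 : ℝ) ≤ 2 * Real.pi := by positivity
  have h1 : perimeter (ctr K R) ≤
      ∫ θ in (0 : ℝ)..(2 * Real.pi), (R - supportFn K (θ + Real.pi)) := by
    unfold perimeter
    exact intervalIntegral.integral_mono_on h2π (hc1.intervalIntegrable _ _)
      ((continuous_const.sub hc3).intervalIntegrable _ _) fun θ _ => hle θ
  have h2 : ∫ θ in (0 : ℝ)..(2 * Real.pi), supportFn K (θ + Real.pi) = perimeter K := by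
    unfold perimeter
    rw [intervalIntegral.integral_comp_add_right (fun θ => supportFn K θ) Real.pi]
    have h3 := (supportFn_periodic K).intervalIntegral_add_eq (0 + Real.pi) 0
    rw [zero_add, zero_add] at h3
    rw [← h3]
    congr 1 <;> ring
  rw [intervalIntegral.integral_sub (intervalIntegrable_const) (hc3.intervalIntegrable _ _),
    intervalIntegral.integral_const, h2, smul_eq_mul, sub_zero] at h1
  exact h1

end Pool.Agent.Helper79.MI
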