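import Pool.Agent.Helper79.MI.Defs

/-!
# A4: the circumscribed polygon lies in a slightly enlarged body

`δ = 2π/N < π/2`. Given `θ` choose `j < N` (after adding a multiple of `2π` to `θ`) with
`θ_j ≤ θ ≤ θ_j + δ`, `θ_j = t + jδ` (for `j = N-1` the next direction is `θ_0 + 2π`, use the
periodicity of `e` and `g`). Then `e θ = (sin (θ_{j+1} - θ) e(θ_j) + sin (θ - θ_j) e(θ_{j+1})) / sin δ`,
so `ip z (e θ) ≤ (sin a + sin b)/ sin δ * max (g θ_j) (g θ_{j+1})` with `a + b = δ`;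
`(sin a + sin b)/ sin δ = cos ((a-b)/2)/cos(δ/2) ≤ 1/cos(δ/2)` and
`g θ_j ≤ g θ + M δ ≤ (1 + M δ / r) g θ`.
-/

namespace Pool.Agent.Helper79.MI

open Pool.Agent.Helper16.Disk7 Pool.Agent.Helper57.CW MeasureTheory Metric Complex Set
open scoped ENNReal Pointwise

private theorem e_add_int26 (θ : ℝ) (k : ℤ) : e (θ + k * (2 * Real.pi)) = e θ := by
  rw [e, e]
  have : ((θ + k * (2 * Real.pi) : ℝ) : ℂ) * I = θ * I + k * (2 * Real.pi * I) := by
    push_cast; ring
  rw [this, Complex.exp_add, Complex.exp_int_mul_two_pi_mul_I, mul_one]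

/-- the inequalities of the polygon hold for all integer multiples of the step -/
private theorem all_dir26 {N : ℕ} (hN : 5 ≤ N) {g : ℝ → ℝ}
    (hper : Function.Periodic g (2 * Real.pi)) {t : ℝ} {z : ℂ} (hz : z ∈ WN N g t) (k : ℤ) :
    ip z (e (t + k * (2 * Real.pi / N))) ≤ g (t + k * (2 * Real.pi / N)) := by
  have hN0 : (N : ℝ) ≠ 0 := by
    have : 0 < N := by omega
    exact_mod_cast this.ne'
  have hNz : (0 : ℤ) < N := by omega
  obtain ⟨j, hj⟩ : ∃ j : ℕ, (j : ℤ) = k % N :=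
    ⟨(k % N).toNat, Int.toNat_of_nonneg (Int.emod_nonneg _ hNz.ne')⟩
  have hjN : j < N := by
    have := Int.emod_lt_of_pos k hNz
    omega
  have hk : k = N * (k / N) + j := by
    rw [hj]
    exact (Int.mul_ediv_add_emod k N).symm
  obtain ⟨p, hp⟩ : ∃ p : ℤ, p = k / N := ⟨_, rfl⟩
  rw [← hp] at hk
  have hkr : (k : ℝ) = N * p + j := by
    rw [hk]
    push_cast
    ring
  have h1 : t + k * (2 * Real.pi / N) = t + j * (2 * Real.pi / N) + p * (2 * Real.pi) := by
    rw [hkr]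
    field_simp
    ring
  rw [h1, e_add_int26]
  have h2 : g (t + j * (2 * Real.pi / N) + p * (2 * Real.pi)) = g (t + j * (2 * Real.pi / N)) :=
    hper.int_mul p _
  rw [h2]
  exact hz j hjN

theorem WN_bound {N : ℕ} (hN : 5 ≤ N) {g : ℝ → ℝ} {r M : ℝ} (hr : 0 < r) (hM : 0 ≤ M)
    (hper : Function.Periodic g (2 * Real.pi))
    (hg : ∀ θ, r ≤ g θ) (hlip : ∀ θ θ', |g θ - g θ'| ≤ M * |θ - θ'|) (t : ℝ) {z : ℂ}
    (hz : z ∈ WN N g t) (θ : ℝ) :
    ip z (e θ) ≤ (1 + M * (2 * Real.pi / N) / r) / Real.cos (Real.pi / N) * g θ := by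
  have hNp : (5 : ℝ) ≤ N := by exact_mod_cast hN
  have hπ := Real.pi_pos
  obtain ⟨δ, hδ⟩ : ∃ δ : ℝ, δ = 2 * Real.pi / N := ⟨_, rfl⟩
  have hδ0 : 0 < δ := by
    rw [hδ]
    positivity
  have hδπ : δ < Real.pi := by
    rw [hδ, div_lt_iff₀ (by linarith)]
    nlinarith
  have hhalf : Real.pi / N = δ / 2 := by
    rw [hδ]
    ring
  rw [← hδ, hhalf]
  have hch : 0 < Real.cos (δ / 2) := Real.cos_pos_of_mem_Ioo ⟨by linarith, by linarith⟩
  have hsh : 0 < Real.sin (δ / 2) := Real.sin_pos_of_pos_of_lt_pi (by linarith) (by linarith)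
  have s2 : Real.sin δ = 2 * Real.sin (δ / 2) * Real.cos (δ / 2) := by
    rw [← Real.sin_two_mul]
    congr 1
    ring
  obtain ⟨k, hk⟩ : ∃ k : ℤ, k = ⌊(θ - t) / δ⌋ := ⟨_, rfl⟩
  have hk1 : (k : ℝ) * δ ≤ θ - t := by
    have := Int.floor_le ((θ - t) / δ)
    rw [← hk, le_div_iff₀ hδ0] at this
    exact this
  have hk2 : θ - t < ((k : ℝ) + 1) * δ := by
    have := Int.lt_floor_add_one ((θ - t) / δ)
    rw [← hk, div_lt_iff₀ hδ0] at this
    exact this
  obtain ⟨a, ha⟩ : ∃ a : ℝ, a = θ - (t + k * δ) := ⟨_, rfl⟩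
  obtain ⟨b, hb⟩ : ∃ b : ℝ, b = δ - a := ⟨_, rfl⟩
  have ha0 : 0 ≤ a := by linarith
  have hb0 : 0 ≤ b := by linarith
  have hab : a + b = δ := by linarith
  have hθ1 : t + k * δ = θ - a := by linarith
  have hθ2 : t + ((k + 1 : ℤ) : ℝ) * δ = θ + b := by
    push_cast
    linarith
  have z1 := all_dir26 hN hper hz k
  have z2 := all_dir26 hN hper hz (k + 1)
  rw [← hδ, hθ1] at z1
  rw [← hδ, hθ2] at z2
  have g1 : g (θ - a) ≤ g θ + M * δ := by
    have h1 := (abs_le.1 (hlip (θ - a) θ)).2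
    have h2 : |θ - a - θ| = a := by
      have h3 : θ - a - θ = -a := by ring
      rw [h3, abs_neg, abs_of_nonneg ha0]
    rw [h2] at h1
    have h3 : M * a ≤ M * δ := mul_le_mul_of_nonneg_left (by linarith) hM
    linarith
  have g2 : g (θ + b) ≤ g θ + M * δ := by
    have h1 := (abs_le.1 (hlip (θ + b) θ)).2
    have h2 : |θ + b - θ| = b := by
      have h3 : θ + b - θ = b := by ring
      rw [h3, abs_of_nonneg hb0]
    rw [h2] at h1
    have h3 : M * b ≤ M * δ := mul_le_mul_of_nonneg_left (by linarith) hM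
    linarith
  have sa : 0 ≤ Real.sin a := Real.sin_nonneg_of_nonneg_of_le_pi ha0 (by linarith)
  have sb : 0 ≤ Real.sin b := Real.sin_nonneg_of_nonneg_of_le_pi hb0 (by linarith)
  have key : ip z (e θ) * Real.sin δ =
      ip z (e (θ - a)) * Real.sin b + ip z (e (θ + b)) * Real.sin a := by
    rw [← hab]
    simp only [ip_e, Real.sin_add, Real.cos_add, Real.sin_sub, Real.cos_sub]
    ring
  have hG0 : 0 ≤ g θ + M * δ := by
    have := hg θ
    have h3 : 0 ≤ M * δ := mul_nonneg hM hδ0.le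
    linarith
  have h5 : ip z (e θ) * Real.sin δ ≤ (g θ + M * δ) * (Real.sin a + Real.sin b) := by
    rw [key]
    have h6 := mul_le_mul_of_nonneg_right (z1.trans g1) sb
    have h7 := mul_le_mul_of_nonneg_right (z2.trans g2) sa
    linarith
  have h6 : Real.sin a + Real.sin b ≤ 2 * Real.sin (δ / 2) := by
    have e1 : a = δ / 2 + (a - b) / 2 := by rw [← hab]; ring
    have e2 : b = δ / 2 - (a - b) / 2 := by rw [← hab]; ring
    have e3 : Real.sin a = Real.sin (δ / 2 + (a - b) / 2) := by rw [← e1]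
    have e4 : Real.sin b = Real.sin (δ / 2 - (a - b) / 2) := by rw [← e2]
    rw [e3, e4, Real.sin_add, Real.sin_sub]
    have h7 := mul_le_mul_of_nonneg_left (Real.cos_le_one ((a - b) / 2)) hsh.le
    linarith
  have h7 : ip z (e θ) * Real.cos (δ / 2) ≤ g θ + M * δ := by
    have h8 := mul_le_mul_of_nonneg_left h6 hG0
    rw [s2] at h5
    have h9 : (ip z (e θ) * Real.cos (δ / 2)) * (2 * Real.sin (δ / 2)) ≤
        (g θ + M * δ) * (2 * Real.sin (δ / 2)) := by linarith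
    exact le_of_mul_le_mul_right h9 (by linarith)
  have h8 : g θ + M * δ ≤ (1 + M * δ / r) * g θ := by
    have h9 : M * δ ≤ M * δ / r * g θ := by
      have h10 := mul_le_mul_of_nonneg_left (hg θ) (div_nonneg (mul_nonneg hM hδ0.le) hr.le)
      rwa [div_mul_cancel₀ _ hr.ne'] at h10
    linarith
  rw [div_mul_eq_mul_div, le_div_iff₀ hch]
  exact h7.trans h8

end Pool.Agent.Helper79.MI
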