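import Pool.Agent.Helper79.MI.Lor
import Pool.Agent.Helper79.MI.WNBound

/-!
# A6: area of the set of the centres

`g θ = R - h_K(θ + π)`, positive (as `K ⊆ ball 0 R` is compact, `g ≥ r` for some `r > 0`),
Lipschitz, periodic; `ctr K R = {z | ∀ θ, ip z (e θ) ≤ g θ}` (`mem_ctr_iff` in `MI/Supp.lean`). By A4
`WN N g t ⊆ λ_N • ctr K R`, by A3 `FN N g t ≤ vol (WN N g t) ≤ λ_N^2 vol (ctr K R)` for all `t`.
`FN` is a quadratic form and `FN N g t = R^2 FN(1) - 2 R B(1, h_K(· + π)) + FN N h_K (t + π)` with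
`FN(1) = N tan(π/N)`, `B(1, h) = tan(π/N) ∑_j h(t + jδ)`, `FN N h_K (t+π) ≥ vol K` (A1 and
`K ⊆ WN N h_K`). Integrate over `t ∈ [0, 2π]` (`∫ ∑_j h_K(t + jδ + π) dt = N perimeter K`) and divide by
`2π`: `λ_N^2 vol (ctr K R) ≥ τ_N (π R^2 - R perimeter K) + vol K`, `τ_N = tan(π/N)/(π/N) → 1`.
-/

namespace Pool.Agent.Helper79.MI

open Pool.Agent.Helper16.Disk7 Pool.Agent.Helper57.CW MeasureTheory Metric Complex Set
open scoped ENNReal Pointwise

private lemma h80_norm_lt {K : Set ℂ} {R : ℝ} (hK : IsCompact K) (hne : K.Nonempty)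
    (hR : K ⊆ ball 0 R) : ∃ m : ℝ, 0 ≤ m ∧ m < R ∧ K ⊆ closedBall 0 m := by
  obtain ⟨x, hx, hmax⟩ := hK.exists_isMaxOn hne (continuous_norm.continuousOn)
  refine ⟨‖x‖, norm_nonneg _, ?_, fun y hy => ?_⟩
  · simpa using hR hx
  · simpa using hmax hy

private lemma h80_supp_le {K : Set ℂ} {m : ℝ} (hK : IsCompact K) (hne : K.Nonempty)
    (hm : K ⊆ closedBall 0 m) (θ : ℝ) : supportFn K θ ≤ m := by
  have := supp_le_of_ball hK hne hm θ
  simpa [ip_eq] using this

private lemma h80_sum_succ (N : ℕ) (k : ℝ → ℝ) (hk : Function.Periodic k (2 * Real.pi)) (hN : 0 < N)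
    (t : ℝ) : ∑ j ∈ Finset.range N, k (t + ((j : ℝ) + 1) * (2 * Real.pi / N)) =
      ∑ j ∈ Finset.range N, k (t + (j : ℝ) * (2 * Real.pi / N)) := by
  have hN' : (N : ℝ) ≠ 0 := by exact_mod_cast hN.ne'
  have h1 := Finset.sum_range_succ (fun j : ℕ => k (t + (j : ℝ) * (2 * Real.pi / N))) N
  have h2 := Finset.sum_range_succ' (fun j : ℕ => k (t + (j : ℝ) * (2 * Real.pi / N))) N
  have h3 : k (t + (N : ℝ) * (2 * Real.pi / N)) = k (t + ((0 : ℕ) : ℝ) * (2 * Real.pi / N)) := by
    have : t + (N : ℝ) * (2 * Real.pi / N) = t + 2 * Real.pi := by field_simp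
    rw [this, hk]
    congr 1
    simp
  rw [h1, h3] at h2
  have h4 := add_right_cancel h2
  rw [h4]
  refine Finset.sum_congr rfl fun j _ => ?_
  push_cast
  rfl

private lemma h80_sum_pred (N : ℕ) (k : ℝ → ℝ) (hk : Function.Periodic k (2 * Real.pi)) (hN : 0 < N)
    (t : ℝ) : ∑ j ∈ Finset.range N, k (t + ((j : ℝ) - 1) * (2 * Real.pi / N)) =
      ∑ j ∈ Finset.range N, k (t + (j : ℝ) * (2 * Real.pi / N)) := by
  have h1 := h80_sum_succ N k hk hN (t - 2 * Real.pi / N)
  have h2 : ∀ j : ℕ, t - 2 * Real.pi / N + ((j : ℝ) + 1) * (2 * Real.pi / N) =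
      t + (j : ℝ) * (2 * Real.pi / N) := by intro j; ring
  have h3 : ∀ j : ℕ, t - 2 * Real.pi / N + (j : ℝ) * (2 * Real.pi / N) =
      t + ((j : ℝ) - 1) * (2 * Real.pi / N) := by intro j; ring
  simp only [h2, h3] at h1
  exact h1.symm

private lemma h80_FN (N : ℕ) (k : ℝ → ℝ) (hk : Function.Periodic k (2 * Real.pi)) (hN : 0 < N)
    (R t : ℝ) : FN N (fun θ => R - k θ) t =
      (1 - Real.cos (2 * Real.pi / N)) / Real.sin (2 * Real.pi / N) * (N * R ^ 2) -
      2 * R * ((1 - Real.cos (2 * Real.pi / N)) / Real.sin (2 * Real.pi / N)) *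
        ∑ j ∈ Finset.range N, k (t + (j : ℝ) * (2 * Real.pi / N)) + FN N k t := by
  set c := Real.cos (2 * Real.pi / N) with hc
  set s := Real.sin (2 * Real.pi / N) with hs
  have e1 := h80_sum_succ N k hk hN t
  have e2 := h80_sum_pred N k hk hN t
  unfold FN
  rw [← hc, ← hs]
  have h1 : ∀ j : ℕ, (R - k (t + (j : ℝ) * (2 * Real.pi / N))) *
      (R - k (t + ((j : ℝ) + 1) * (2 * Real.pi / N)) + (R - k (t + ((j : ℝ) - 1) * (2 * Real.pi / N)))
        - 2 * c * (R - k (t + (j : ℝ) * (2 * Real.pi / N)))) / (2 * s) =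
      (1 - c) / s * R ^ 2 - (2 * R * (1 - c) - R * (2 * c)) / (2 * s) *
        k (t + (j : ℝ) * (2 * Real.pi / N)) -
      R / (2 * s) * k (t + ((j : ℝ) + 1) * (2 * Real.pi / N)) -
      R / (2 * s) * k (t + ((j : ℝ) - 1) * (2 * Real.pi / N)) +
      k (t + (j : ℝ) * (2 * Real.pi / N)) *
      (k (t + ((j : ℝ) + 1) * (2 * Real.pi / N)) + k (t + ((j : ℝ) - 1) * (2 * Real.pi / N))
        - 2 * c * k (t + (j : ℝ) * (2 * Real.pi / N))) / (2 * s) := by
    intro j
    rcases eq_or_ne s 0 with h0 | h0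
    · simp [h0]
    · field_simp
      ring
  rw [Finset.sum_congr rfl fun j _ => h1 j]
  simp only [Finset.sum_add_distrib, Finset.sum_sub_distrib, ← Finset.mul_sum]
  rw [e1, e2, Finset.sum_const, Finset.card_range, nsmul_eq_mul]
  rcases eq_or_ne s 0 with h0 | h0
  · simp [h0]
  · generalize ∑ j ∈ Finset.range N, k (t + (j : ℝ) * (2 * Real.pi / N)) = S
    generalize ∑ j ∈ Finset.range N, k (t + (j : ℝ) * (2 * Real.pi / N)) *
      (k (t + ((j : ℝ) + 1) * (2 * Real.pi / N)) + k (t + ((j : ℝ) - 1) * (2 * Real.pi / N))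
        - 2 * c * k (t + (j : ℝ) * (2 * Real.pi / N))) / (2 * s) = F
    have e3 : (2 * R * (1 - c) - R * (2 * c)) / (2 * s) = R * (1 - c) / s - R * c / s := by
      field_simp
    have e4 : R / (2 * s) * S + R / (2 * s) * S = R / s * S := by
      field_simp
      ring
    have e5 : (R * (1 - c) / s - R * c / s) * S + R / s * S = 2 * R * ((1 - c) / s) * S := by
      field_simp
      ring
    rw [e3]
    linarith

private lemma h80_tan {x : ℝ} (hs : Real.sin x ≠ 0) (hc : Real.cos x ≠ 0) :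
    (1 - Real.cos (2 * x)) / Real.sin (2 * x) = Real.tan x := by
  rw [Real.sin_two_mul, Real.cos_two_mul, Real.tan_eq_sin_div_cos]
  have h1 := Real.sin_sq_add_cos_sq x
  field_simp
  nlinarith

private lemma h80_tan_tendsto :
    Filter.Tendsto (fun N : ℕ => (N : ℝ) * Real.tan (Real.pi / N) / Real.pi) Filter.atTop (nhds 1) := by
  have h1 : HasDerivAt Real.tan (1 / Real.cos 0 ^ 2) 0 := Real.hasDerivAt_tan (by simp)
  have h2 := h1.tendsto_slope_zero
  simp only [zero_add, Real.tan_zero, sub_zero, Real.cos_zero, one_pow, div_one, smul_eq_mul] at h2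
  have h3 : Filter.Tendsto (fun N : ℕ => Real.pi / (N : ℝ)) Filter.atTop (nhdsWithin 0 {0}ᶜ) := by
    rw [tendsto_nhdsWithin_iff]
    refine ⟨tendsto_const_div_atTop_nhds_zero_nat _, ?_⟩
    filter_upwards [Filter.eventually_gt_atTop 0] with N hN
    have : (N : ℝ) ≠ 0 := by exact_mod_cast hN.ne'
    simp [Real.pi_ne_zero, this]
  have h4 := h2.comp h3
  refine h4.congr fun N => ?_
  simp only [Function.comp]
  rw [inv_div]
  ring

private lemma h80_smul_volume (lam : ℝ) (S : Set ℂ) :
    volume (lam • S) = ENNReal.ofReal (lam ^ 2) * volume S := by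
  rw [Measure.addHaar_smul]
  congr 2
  rw [Complex.finrank_real_complex, abs_of_nonneg (sq_nonneg _)]

private lemma h80_lam_pos {N : ℕ} (hN : 5 ≤ N) {r M : ℝ} (hr : 0 < r) (hM : 0 ≤ M) :
    0 < (1 + M * (2 * Real.pi / N) / r) / Real.cos (Real.pi / N) := by
  have hN' : (5 : ℝ) ≤ N := by exact_mod_cast hN
  have hπ := Real.pi_pos
  have hc : 0 < Real.cos (Real.pi / N) := by
    apply Real.cos_pos_of_mem_Ioo
    constructor
    · have : 0 < Real.pi / N := by positivity
      linarith
    · rw [div_lt_div_iff₀ (by linarith) (by norm_num)]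
      nlinarith
  positivity

private lemma h80_lam_tendsto (r M : ℝ) :
    Filter.Tendsto (fun N : ℕ => (1 + M * (2 * Real.pi / N) / r) / Real.cos (Real.pi / N))
      Filter.atTop (nhds 1) := by
  have h1 : Filter.Tendsto (fun N : ℕ => 2 * Real.pi / (N : ℝ)) Filter.atTop (nhds 0) :=
    tendsto_const_div_atTop_nhds_zero_nat _
  have h2 : Filter.Tendsto (fun N : ℕ => Real.pi / (N : ℝ)) Filter.atTop (nhds 0) :=
    tendsto_const_div_atTop_nhds_zero_nat _
  have h3 : Filter.Tendsto (fun N : ℕ => Real.cos (Real.pi / (N : ℝ))) Filter.atTop (nhds 1) := by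
    have := (Real.continuous_cos.tendsto 0).comp h2
    rw [Real.cos_zero] at this
    exact this
  have h4 : Filter.Tendsto (fun N : ℕ => 1 + M * (2 * Real.pi / N) / r) Filter.atTop (nhds 1) := by
    have := ((h1.const_mul M).div_const r).const_add 1
    simpa using this
  have := h4.div h3 one_ne_zero
  rw [div_one] at this
  exact this

/-- the inequality for a given `N` and `t` -/
private lemma h80_pointwise {K : Set ℂ} {R r m : ℝ} (hK : IsCompact K)
    (h0 : 0 ∈ interior K) (hm : K ⊆ closedBall 0 m) (hm0 : 0 ≤ m) (hr : r = R - m) (hr0 : 0 < r)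
    {N : ℕ} (hN : 5 ≤ N) (t : ℝ) :
    Real.tan (Real.pi / N) * (N * R ^ 2) - 2 * R * Real.tan (Real.pi / N) *
      ∑ j ∈ Finset.range N, supportFn K (t + (j : ℝ) * (2 * Real.pi / N) + Real.pi) +
      (volume K).toReal ≤
    ((1 + R * (2 * Real.pi / N) / r) / Real.cos (Real.pi / N)) ^ 2 * (volume (ctr K R)).toReal := by
  have hne : K.Nonempty := ⟨0, interior_subset h0⟩
  have hR0 : 0 ≤ R := by linarith
  have hmR : m ≤ R := by linarith
  have hKR : K ⊆ closedBall 0 R := hm.trans (closedBall_subset_closedBall hmR)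
  obtain ⟨k, hk⟩ : ∃ k : ℝ → ℝ, k = fun θ => supportFn K (θ + Real.pi) := ⟨_, rfl⟩
  have hkp : Function.Periodic k (2 * Real.pi) := by
    intro θ
    rw [hk]
    simp only
    rw [← supportFn_periodic K (θ + Real.pi)]
    congr 1
    ring
  obtain ⟨g, hg⟩ : ∃ g : ℝ → ℝ, g = fun θ => R - k θ := ⟨_, rfl⟩
  have hgp : Function.Periodic g (2 * Real.pi) := by
    intro θ
    rw [hg]
    simp only
    rw [hkp θ]
  have hgr : ∀ θ, r ≤ g θ := by
    intro θ
    have := h80_supp_le hK hne hm (θ + Real.pi)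
    rw [hg, hk]
    simp only
    linarith
  have hglip : ∀ θ θ', |g θ - g θ'| ≤ R * |θ - θ'| := by
    intro θ θ'
    have := supp_lip hK hne hKR (θ' + Real.pi) (θ + Real.pi)
    rw [hg, hk]
    simp only
    have e1 : R - supportFn K (θ + Real.pi) - (R - supportFn K (θ' + Real.pi)) =
      supportFn K (θ' + Real.pi) - supportFn K (θ + Real.pi) := by ring
    have e2 : θ' + Real.pi - (θ + Real.pi) = -(θ - θ') := by ring
    rw [e1]
    rwa [e2, abs_neg] at this
  obtain ⟨lam, hlam⟩ : ∃ lam, lam = (1 + R * (2 * Real.pi / N) / r) / Real.cos (Real.pi / N) :=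
    ⟨_, rfl⟩
  have hlam0 : 0 < lam := hlam ▸ h80_lam_pos hN hr0 hR0
  have hN' : (5 : ℝ) ≤ N := by exact_mod_cast hN
  have hπ := Real.pi_pos
  -- the polygon is in the enlarged body
  have hsub : WN N g t ⊆ lam • ctr K R := by
    intro z hz
    rw [Set.mem_smul_set]
    refine ⟨(lam⁻¹ : ℝ) • z, ?_, by rw [smul_smul, mul_inv_cancel₀ hlam0.ne', one_smul]⟩
    rw [mem_ctr_iff hK hne]
    intro θ
    have h1 := WN_bound hN hr0 hR0 hgp hgr hglip t hz θ
    rw [← hlam] at h1
    rw [Complex.real_smul, ip_smul, inv_mul_le_iff₀ hlam0]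
    rw [hg, hk] at h1
    exact h1
  have hctr : volume (ctr K R) ≠ ⊤ := (isCompact_ctr hne R).measure_lt_top.ne
  have h1 := FN_le_volume_WN hN hgp (fun θ => hr0.trans_le (hgr θ)) t
  have h2 : (volume (WN N g t)).toReal ≤ lam ^ 2 * (volume (ctr K R)).toReal := by
    have h3 := measure_mono (μ := volume) hsub
    rw [h80_smul_volume] at h3
    have h4 := ENNReal.toReal_mono (ENNReal.mul_ne_top ENNReal.ofReal_ne_top hctr) h3
    rwa [ENNReal.toReal_mul, ENNReal.toReal_ofReal (sq_nonneg _)] at h4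
  -- the polygon of K
  obtain ⟨ρ, hρ, -, hρK⟩ := supp_pos hK h0
  have h3 := volume_WN hN hK h0 (t + Real.pi)
  have h5 : (volume K).toReal ≤ (volume (WN N (supportFn K) (t + Real.pi))).toReal := by
    apply ENNReal.toReal_mono
    · have hb : WN N (supportFn K) (t + Real.pi) ⊆ closedBall 0
          ((1 + R * (2 * Real.pi / N) / ρ) / Real.cos (Real.pi / N) * R) := by
        intro z hz
        rw [mem_closedBall_zero_iff]
        apply norm_le_of_ip
        intro θ
        have h6 := WN_bound hN hρ hR0 (supportFn_periodic K) hρK (supp_lip hK hne hKR) _ hz θ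
        refine h6.trans (mul_le_mul_of_nonneg_left ?_ (h80_lam_pos hN hρ hR0).le)
        exact (h80_supp_le hK hne hm θ).trans hmR
      exact ((measure_mono hb).trans_lt measure_closedBall_lt_top).ne
    · apply measure_mono
      intro z hz j _
      exact ip_le_supp hK hz _
  have h6 : FN N k t = FN N (supportFn K) (t + Real.pi) := by
    unfold FN
    rw [hk]
    refine Finset.sum_congr rfl fun j _ => ?_
    have e1 : ∀ x : ℝ, t + x + Real.pi = t + Real.pi + x := by intro x; ring
    simp only [e1]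
  have h7 := h80_FN N k hkp (by omega) R t
  have hx : (2 : ℝ) * Real.pi / N = 2 * (Real.pi / N) := by ring
  have hx0 : 0 < Real.pi / N := by positivity
  have hx1 : Real.pi / N < Real.pi / 2 := by
    rw [div_lt_div_iff₀ (by linarith) (by norm_num)]
    nlinarith
  have h8 : (1 - Real.cos (2 * Real.pi / N)) / Real.sin (2 * Real.pi / N) = Real.tan (Real.pi / N) := by
    rw [hx]
    exact h80_tan (Real.sin_pos_of_pos_of_lt_pi hx0 (by linarith)).ne'
      (Real.cos_pos_of_mem_Ioo ⟨by linarith, hx1⟩).ne'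
  rw [h8, ← hg, h6, ← h3] at h7
  rw [← hlam]
  rw [h7] at h1
  rw [hk] at h1
  simp only at h1
  linarith

private lemma h80_int {K : Set ℂ} (a : ℝ) :
    ∫ t in (0 : ℝ)..(2 * Real.pi), supportFn K (t + a) = perimeter K := by
  rw [intervalIntegral.integral_comp_add_right (fun t => supportFn K t)]
  have := (supportFn_periodic K).intervalIntegral_add_eq a 0
  rw [zero_add] at this ⊢
  rw [add_comm (2 * Real.pi) a, this]
  rfl

theorem volume_ctr {K : Set ℂ} {R : ℝ} (hK : IsCompact K) (hKc : Convex ℝ K)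
    (h0 : 0 ∈ interior K) (hR : K ⊆ ball 0 R) :
    Real.pi * R ^ 2 - R * perimeter K + (volume K).toReal ≤ (volume (ctr K R)).toReal := by
  have hne : K.Nonempty := ⟨0, interior_subset h0⟩
  obtain ⟨m, hm0, hmR, hm⟩ := h80_norm_lt hK hne hR
  obtain ⟨r, hr⟩ : ∃ r, r = R - m := ⟨_, rfl⟩
  have hr0 : 0 < r := by linarith
  have hcont := supp_continuous hK hne
  have hπ := Real.pi_pos
  -- the integrated inequality
  have key : ∀ N : ℕ, 5 ≤ N → ((N : ℝ) * Real.tan (Real.pi / N) / Real.pi) *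
      (Real.pi * R ^ 2 - R * perimeter K) + (volume K).toReal ≤
      ((1 + R * (2 * Real.pi / N) / r) / Real.cos (Real.pi / N)) ^ 2 *
        (volume (ctr K R)).toReal := by
    intro N hN
    have hp := fun t => h80_pointwise hK h0 hm hm0 hr hr0 hN t
    obtain ⟨T, hT⟩ : ∃ T, T = Real.tan (Real.pi / N) := ⟨_, rfl⟩
    obtain ⟨B, hB⟩ : ∃ B, B = ((1 + R * (2 * Real.pi / N) / r) / Real.cos (Real.pi / N)) ^ 2 *
        (volume (ctr K R)).toReal := ⟨_, rfl⟩
    rw [← hT, ← hB] at hp ⊢
    have hSc : Continuous fun t : ℝ =>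
        ∑ j ∈ Finset.range N, supportFn K (t + (j : ℝ) * (2 * Real.pi / N) + Real.pi) := by
      refine continuous_finsetSum _ fun j _ => ?_
      exact hcont.comp (by fun_prop)
    have h1 : ∫ t in (0 : ℝ)..(2 * Real.pi), (T * (N * R ^ 2) - 2 * R * T *
        (∑ j ∈ Finset.range N, supportFn K (t + (j : ℝ) * (2 * Real.pi / N) + Real.pi)) +
        (volume K).toReal) ≤ ∫ t in (0 : ℝ)..(2 * Real.pi), B := by
      refine intervalIntegral.integral_mono_on (by linarith) ?_ ?_ fun t _ => hp t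
      · exact ((continuous_const.sub (continuous_const.mul hSc)).add
          continuous_const).intervalIntegrable _ _
      · exact continuous_const.intervalIntegrable _ _
    have h2 : ∫ t in (0 : ℝ)..(2 * Real.pi),
        (∑ j ∈ Finset.range N, supportFn K (t + (j : ℝ) * (2 * Real.pi / N) + Real.pi)) =
        N * perimeter K := by
      rw [intervalIntegral.integral_finsetSum]
      · have h3 : ∀ j ∈ Finset.range N, ∫ t in (0 : ℝ)..(2 * Real.pi),
            supportFn K (t + (j : ℝ) * (2 * Real.pi / N) + Real.pi) = perimeter K := by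
          intro j _
          rw [← h80_int (K := K) ((j : ℝ) * (2 * Real.pi / N) + Real.pi)]
          refine intervalIntegral.integral_congr fun t _ => ?_
          rw [add_assoc]
        rw [Finset.sum_congr rfl h3, Finset.sum_const, Finset.card_range, nsmul_eq_mul]
      · intro j _
        exact (hcont.comp (by fun_prop)).intervalIntegrable _ _
    have h2' : ∫ t in (0 : ℝ)..(2 * Real.pi), 2 * R * T *
        (∑ j ∈ Finset.range N, supportFn K (t + (j : ℝ) * (2 * Real.pi / N) + Real.pi)) =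
        2 * R * T * (N * perimeter K) := by
      rw [intervalIntegral.integral_const_mul, h2]
    rw [intervalIntegral.integral_add, intervalIntegral.integral_sub,
      h2', intervalIntegral.integral_const,
      intervalIntegral.integral_const, intervalIntegral.integral_const] at h1
    · simp only [smul_eq_mul, sub_zero] at h1
      have h4 : 2 * Real.pi * ((N * T / Real.pi) * (Real.pi * R ^ 2 - R * perimeter K) +
          (volume K).toReal) = 2 * Real.pi * (T * (N * R ^ 2)) - 2 * R * T * (N * perimeter K) +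
          2 * Real.pi * (volume K).toReal := by
        field_simp
      rw [← h4] at h1
      exact le_of_mul_le_mul_left h1 (by positivity)
    · exact continuous_const.intervalIntegrable _ _
    · exact (continuous_const.mul hSc).intervalIntegrable _ _
    · exact (continuous_const.sub (continuous_const.mul hSc)).intervalIntegrable _ _
    · exact continuous_const.intervalIntegrable _ _
  have l1 := (h80_tan_tendsto.mul_const (Real.pi * R ^ 2 - R * perimeter K)).add_const
    (volume K).toReal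
  have l2 := ((h80_lam_tendsto r R).pow 2).mul_const (volume (ctr K R)).toReal
  rw [one_mul] at l1
  rw [one_pow, one_mul] at l2
  exact le_of_tendsto_of_tendsto l1 l2 (Filter.eventually_atTop.2 ⟨5, key⟩)

end Pool.Agent.Helper79.MI
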