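import Pool.Agent.Helper79.MI.MeanArea
import Pool.Agent.Helper79.MI.VolCtr
import Pool.Agent.Helper79.MI.PerCtr

/-!
# B4: lower bound of the measure on the left of B2

`K = hull V`, `L = hull W`, `A = ctr V R = ctr K R`, `B = ctr W R`, `A° = {c | ∀ x ∈ V, ‖x - c‖ < R}` (open,
convex, closure `A`), `B°`. `{τ | ∃ c, ...} = A° - rot γ B°` and
`{τ | ¬ Disjoint (hull V) (mov γ τ (hull W))} = K - rot γ L`. So the measure is at least
`vol (A° - rot γ B°) - vol (K - rot γ L)`, and `vol (A° - rot γ B°) = vol (A - rot γ B)` (`A` convex with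
`0 ∈ A°`: `s • A ⊆ A°` for `s < 1`). As `- rot γ B = rot γ (-B)`, A5 gives
`∫ (vol (A - rot γ B) - vol (K - rot γ L)) dγ = 2π (|A| + |B| - |K| - |L|) + p_A p_B - p_K p_L`, and A6 gives
`|A| - |K| ≥ π R^2 - R p_K`, `|B| - |L| ≥ π R^2 - R p_L`. The sum is
`(2πR - p_K)(2πR - p_L) - 2 p_K p_L + p_A p_B`.
-/

namespace Pool.Agent.Helper79.MI

open Pool.Agent.Helper16.Disk7 Pool.Agent.Helper57.CW MeasureTheory Metric Complex Set
open scoped ENNReal Pointwise

namespace LK

/-- The integral is at most the integral of the positive part. -/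
lemma ofReal_integral_le {f : ℝ → ℝ} {s : Set ℝ} (hf : IntegrableOn f s) :
    ENNReal.ofReal (∫ x in s, f x) ≤ ∫⁻ x in s, ENNReal.ofReal (f x) := by
  rw [integral_eq_lintegral_pos_part_sub_lintegral_neg_part hf]
  have h1 : (∫⁻ x in s, ENNReal.ofReal (f x)) ≠ ∞ := hf.lintegral_lt_top.ne
  refine (ENNReal.ofReal_le_ofReal (sub_le_self _ ENNReal.toReal_nonneg)).trans ?_
  rw [ENNReal.ofReal_toReal h1]

lemma perimeter_neg {B : Set ℂ} (hB : IsCompact B) (hne : B.Nonempty) :
    perimeter (-B) = perimeter B := by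
  unfold perimeter
  have h1 : ∀ θ, supportFn (-B) θ = supportFn B (θ + Real.pi) := supp_neg hB hne
  simp only [h1]
  rw [intervalIntegral.integral_comp_add_right]
  have h2 := (supportFn_periodic B).intervalIntegral_add_eq Real.pi 0
  rw [zero_add] at h2 ⊢
  rw [← h2]
  congr 1
  ring

lemma volume_neg (B : Set ℂ) : volume (-B) = volume B := by
  exact Measure.measure_neg volume B

/-- The set of non disjointness. -/
lemma not_disjoint_eq (K L : Set ℂ) (γ : ℝ) :
    {τ : ℂ | ¬ Disjoint K (mov γ τ L)} = K + rot γ (-L) := by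
  ext τ
  simp only [mem_ofPred_eq, Set.not_disjoint_iff, Set.mem_add]
  constructor
  · rintro ⟨a, ha, b, hb, hab⟩
    refine ⟨a, ha, _, ⟨-b, by simpa using hb, rfl⟩, ?_⟩
    simp only at hab ⊢
    rw [← hab]
    ring
  · rintro ⟨a, ha, _, ⟨b, hb, rfl⟩, hab⟩
    refine ⟨a, ha, -b, hb, ?_⟩
    simp only at hab ⊢
    rw [← hab]
    ring

/-- The open version of the set of the centres contains the shrinked set. -/
lemma smul_mem_open {V : Finset ℂ} {R : ℝ} (hVR : ∀ x ∈ V, ‖x‖ < R) {a : ℂ}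
    (ha : a ∈ ctr V R) {s : ℝ} (hs0 : 0 ≤ s) (hs1 : s < 1) {x : ℂ} (hx : x ∈ V) :
    ‖x - s * a‖ < R := by
  have h1 : x - s * a = (s : ℂ) * (x - a) + ((1 - s : ℝ) : ℂ) * x := by
    push_cast
    ring
  rw [h1]
  refine (norm_add_le _ _).trans_lt ?_
  rw [norm_mul, norm_mul, Complex.norm_real, Complex.norm_real, Real.norm_eq_abs,
    Real.norm_eq_abs, abs_of_nonneg hs0, abs_of_pos (by linarith)]
  have h2 : ‖x - a‖ ≤ R := ha x hx
  have h3 := hVR x hx
  nlinarith [mul_le_mul_of_nonneg_left h2 hs0, mul_lt_mul_of_pos_left h3 (by linarith : 0 < 1 - s)]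

/-- The measure of the set of translations with a common open disk. -/
lemma volume_common_ge {V W : Finset ℂ} {R : ℝ} (hVR : ∀ x ∈ V, ‖x‖ < R)
    (hWR : ∀ x ∈ W, ‖x‖ < R) (γ : ℝ) :
    volume (ctr V R + rot γ (-ctr W R)) ≤
      volume {τ : ℂ | ∃ c : ℂ, (∀ x ∈ V, ‖x - c‖ < R) ∧ ∀ y ∈ W, ‖e γ * y + τ - c‖ < R} := by
  set M := {τ : ℂ | ∃ c : ℂ, (∀ x ∈ V, ‖x - c‖ < R) ∧ ∀ y ∈ W, ‖e γ * y + τ - c‖ < R} with hM
  set E := ctr V R + rot γ (-ctr W R) with hE
  have h1 : ∀ s : ℝ, 0 ≤ s → s < 1 → (s : ℝ) • E ⊆ M := by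
    rintro s hs0 hs1 _ ⟨z, hz, rfl⟩
    rw [hE] at hz
    obtain ⟨a, ha, _, ⟨b, hb, rfl⟩, rfl⟩ := Set.mem_add.1 hz
    refine ⟨s * a, fun x hx => smul_mem_open hVR ha hs0 hs1 hx, fun y hy => ?_⟩
    have h2 := smul_mem_open hWR (Set.mem_neg.1 hb) hs0 hs1 hy
    have h3 : e γ * y + s • (a + e γ * b) - s * a = e γ * (y - s * -b) := by
      rw [Complex.real_smul]
      ring
    simp only
    rw [h3, norm_mul, norm_e, one_mul]
    exact h2
  have h2 : ∀ s : ℝ, 0 ≤ s → s < 1 → ENNReal.ofReal (s ^ 2) * volume E ≤ volume M := by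
    intro s hs0 hs1
    have h3 := measure_mono (μ := volume) (h1 s hs0 hs1)
    rw [Measure.addHaar_smul, Complex.finrank_real_complex, abs_of_nonneg (by positivity)] at h3
    exact h3
  have h3 : Filter.Tendsto (fun s : ℝ => ENNReal.ofReal (s ^ 2) * volume E)
      (nhdsWithin 1 (Iio 1)) (nhds (ENNReal.ofReal (1 ^ 2) * volume E)) := by
    refine ENNReal.Tendsto.mul_const ?_ (Or.inl (by simp))
    refine (ENNReal.continuous_ofReal.tendsto _).comp ?_
    exact ((continuous_pow 2).tendsto (1 : ℝ)).mono_left nhdsWithin_le_nhds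
  rw [one_pow, ENNReal.ofReal_one, one_mul] at h3
  refine le_of_tendsto h3 ?_
  have h4 : ∀ᶠ s : ℝ in nhdsWithin 1 (Iio 1), 0 ≤ s := by
    filter_upwards [nhdsWithin_le_nhds (Ioi_mem_nhds (show (0 : ℝ) < 1 by norm_num))] with s hs
    exact hs.le
  filter_upwards [h4, self_mem_nhdsWithin] with s hs0 hs1
  exact h2 s hs0 hs1

lemma zero_mem_interior_ctr {V : Finset ℂ} {R : ℝ} (hVR : ∀ x ∈ V, ‖x‖ < R) :
    (0 : ℂ) ∈ interior (ctr V R) := by
  have h1 : IsOpen {c : ℂ | ∀ x ∈ V, ‖x - c‖ < R} := by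
    have : {c : ℂ | ∀ x ∈ V, ‖x - c‖ < R} = ⋂ x ∈ V, {c : ℂ | ‖x - c‖ < R} := by
      ext c
      simp
    rw [this]
    exact isOpen_biInter_finset fun x _ => isOpen_lt (by fun_prop) continuous_const
  refine mem_interior.2 ⟨_, ?_, h1, ?_⟩
  · intro c hc x hx
    exact (hc x hx).le
  · intro x hx
    simpa using hVR x hx

lemma intervalIntegrable_of_integral_ne_zero {f : ℝ → ℝ} {a b : ℝ}
    (h : ∫ x in a..b, f x ≠ 0) : IntervalIntegrable f volume a b := by
  by_contra hcon
  exact h (intervalIntegral.integral_undef hcon)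

end LK

theorem le_kin {V W : Finset ℂ} {R : ℝ} (hV : 0 ∈ interior (hull V)) (hW : 0 ∈ interior (hull W))
    (hVR : ∀ x ∈ V, ‖x‖ < R) (hWR : ∀ x ∈ W, ‖x‖ < R) :
    ENNReal.ofReal ((2 * Real.pi * R - perimeter (hull V)) * (2 * Real.pi * R - perimeter (hull W))
      - 2 * perimeter (hull V) * perimeter (hull W)
      + perimeter (ctr V R) * perimeter (ctr W R)) ≤
    ∫⁻ γ in Ico 0 (2 * Real.pi), volume {τ : ℂ | Disjoint (hull V) (mov γ τ (hull W)) ∧
      ∃ c : ℂ, (∀ x ∈ V, ‖x - c‖ < R) ∧ ∀ y ∈ W, ‖e γ * y + τ - c‖ < R} := by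
  have hpi := Real.pi_pos
  set K := hull V with hK
  set L := hull W with hL
  set A := ctr V R with hA
  set B := ctr W R with hB
  have hKc : IsCompact K := isCompact_hull V
  have hLc : IsCompact L := isCompact_hull W
  have hVne : (V : Set ℂ).Nonempty := by
    by_contra hcon
    rw [Set.not_nonempty_iff_eq_empty] at hcon
    rw [hK, hull, hcon] at hV
    simp at hV
  have hWne : (W : Set ℂ).Nonempty := by
    by_contra hcon
    rw [Set.not_nonempty_iff_eq_empty] at hcon
    rw [hL, hull, hcon] at hW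
    simp at hW
  have hAc : IsCompact A := isCompact_ctr hVne R
  have hBc : IsCompact B := isCompact_ctr hWne R
  have hA0 : (0 : ℂ) ∈ interior A := LK.zero_mem_interior_ctr hVR
  have hB0 : (0 : ℂ) ∈ interior B := LK.zero_mem_interior_ctr hWR
  have hBne : B.Nonempty := ⟨0, interior_subset hB0⟩
  have hLne : L.Nonempty := ⟨0, interior_subset hW⟩
  have hneg : ∀ {S : Set ℂ}, (0 : ℂ) ∈ interior S → (0 : ℂ) ∈ interior (-S) := by
    intro S hS
    rw [mem_interior] at hS ⊢
    obtain ⟨U, hU, hUo, h0⟩ := hS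
    exact ⟨-U, Set.neg_subset_neg.2 hU, hUo.neg, by simpa using h0⟩
  -- the two mean values
  have m1 := mean_area hAc (convex_ctr _ R) hA0 hBc.neg (convex_ctr _ R).neg (hneg hB0)
  have m2 := mean_area hKc (convex_hull V) hV hLc.neg (convex_hull W).neg (hneg hW)
  rw [LK.volume_neg, LK.perimeter_neg hBc hBne] at m1
  rw [LK.volume_neg, LK.perimeter_neg hLc hLne] at m2
  set a : ℝ → ℝ := fun γ => (volume (A + rot γ (-B))).toReal with ha
  set b : ℝ → ℝ := fun γ => (volume (K + rot γ (-L))).toReal with hb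
  have hvpos : ∀ {S : Set ℂ}, IsCompact S → (0 : ℂ) ∈ interior S → 0 < (volume S).toReal := by
    intro S hS h0
    refine ENNReal.toReal_pos ?_ hS.measure_lt_top.ne
    exact (Measure.measure_pos_of_nonempty_interior _ ⟨0, h0⟩).ne'
  have hppos : ∀ {S : Set ℂ}, IsCompact S → (0 : ℂ) ∈ interior S → 0 ≤ perimeter S := by
    intro S hS h0
    obtain ⟨r, hr, -, h1⟩ := supp_pos hS h0
    refine intervalIntegral.integral_nonneg (by positivity) fun θ _ => ?_
    linarith [h1 θ]
  have i1 : IntervalIntegrable a volume 0 (2 * Real.pi) := by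
    refine LK.intervalIntegrable_of_integral_ne_zero ?_
    rw [m1]
    have := hvpos hAc hA0
    have := hvpos hBc hB0
    have := mul_nonneg (hppos hAc hA0) (hppos hBc hB0)
    positivity
  have i2 : IntervalIntegrable b volume 0 (2 * Real.pi) := by
    refine LK.intervalIntegrable_of_integral_ne_zero ?_
    rw [m2]
    have := hvpos hKc hV
    have := hvpos hLc hW
    have := mul_nonneg (hppos hKc hV) (hppos hLc hW)
    positivity
  have i3 : IntegrableOn (fun γ => a γ - b γ) (Ico 0 (2 * Real.pi)) := by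
    have := i1.sub i2
    rw [intervalIntegrable_iff_integrableOn_Ico_of_le (by positivity)] at this
    exact this
  -- areas
  have v1 := volume_ctr hKc (convex_hull V) hV (R := R) (by
    intro z hz
    have h1 : convexHull ℝ (V : Set ℂ) ⊆ ball 0 R := by
      refine convexHull_min (fun x hx => ?_) (convex_ball 0 R)
      rw [mem_ball_zero_iff]
      exact hVR x hx
    exact h1 hz)
  have v2 := volume_ctr hLc (convex_hull W) hW (R := R) (by
    intro z hz
    have h1 : convexHull ℝ (W : Set ℂ) ⊆ ball 0 R := by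
      refine convexHull_min (fun x hx => ?_) (convex_ball 0 R)
      rw [mem_ball_zero_iff]
      exact hWR x hx
    exact h1 hz)
  rw [ctr_hull] at v1 v2
  -- the integral
  have h1 : (2 * Real.pi * R - perimeter K) * (2 * Real.pi * R - perimeter L)
      - 2 * perimeter K * perimeter L + perimeter A * perimeter B
      ≤ ∫ γ in Ico 0 (2 * Real.pi), (a γ - b γ) := by
    have h2 : ∫ γ in Ico 0 (2 * Real.pi), (a γ - b γ)
        = (∫ γ in (0 : ℝ)..(2 * Real.pi), a γ) - ∫ γ in (0 : ℝ)..(2 * Real.pi), b γ := by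
      rw [← intervalIntegral.integral_sub i1 i2, intervalIntegral.integral_of_le (by positivity),
        integral_Ico_eq_integral_Ioc]
    rw [h2, m1, m2]
    have h3 : 2 * Real.pi * (Real.pi * R ^ 2 - R * perimeter K + (volume K).toReal)
        ≤ 2 * Real.pi * (volume A).toReal := mul_le_mul_of_nonneg_left v1 (by positivity)
    have h4 : 2 * Real.pi * (Real.pi * R ^ 2 - R * perimeter L + (volume L).toReal)
        ≤ 2 * Real.pi * (volume B).toReal := mul_le_mul_of_nonneg_left v2 (by positivity)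
    nlinarith [h3, h4]
  refine (ENNReal.ofReal_le_ofReal h1).trans ((LK.ofReal_integral_le i3).trans ?_)
  refine lintegral_mono fun γ => ?_
  -- pointwise
  set E := {τ : ℂ | Disjoint K (mov γ τ L) ∧
      ∃ c : ℂ, (∀ x ∈ V, ‖x - c‖ < R) ∧ ∀ y ∈ W, ‖e γ * y + τ - c‖ < R} with hE
  have h5 : volume (A + rot γ (-B)) ≤ volume E + volume (K + rot γ (-L)) := by
    refine (LK.volume_common_ge hVR hWR γ).trans ?_
    refine (measure_mono ?_).trans (measure_union_le _ _)
    intro τ hτ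
    by_cases hd : Disjoint K (mov γ τ L)
    · exact Or.inl ⟨hd, hτ⟩
    · right
      rw [← LK.not_disjoint_eq]
      exact hd
  have hfin : volume (K + rot γ (-L)) ≠ ∞ := by
    have hc : IsCompact (rot γ (-L)) := hLc.neg.image (by fun_prop)
    exact (hKc.add hc).measure_lt_top.ne
  have hfin2 : volume (A + rot γ (-B)) ≠ ∞ := by
    have hc : IsCompact (rot γ (-B)) := hBc.neg.image (by fun_prop)
    exact (hAc.add hc).measure_lt_top.ne
  simp only [ha, hb]
  rw [ENNReal.ofReal_sub _ ENNReal.toReal_nonneg, ENNReal.ofReal_toReal hfin,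
    ENNReal.ofReal_toReal hfin2, tsub_le_iff_right]
  exact h5

end Pool.Agent.Helper79.MI
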