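import Pool.Agent.Helper79.MI.Defs

/-!
# A2: the discrete Wirtinger inequality

Discrete Fourier transform on `ZMod N` (`ZMod.dft`, inversion `ZMod.dft_dft` or
`ZMod.dft_apply`): with `r̂ m = ∑ r j e(-jm/N)`, Parseval gives
`∑ r_j r_{j+1} = (1/N) ∑_m |r̂ m|^2 cos (2π m/N)` and `∑ r_j^2 = (1/N) ∑_m |r̂ m|^2`. As `r̂ 0 = 0`
and `cos (2π m/N) ≤ cos (2π/N)` for `m ≠ 0`, the inequality follows. (Any other proof is welcome.)
-/

namespace Pool.Agent.Helper79.MI

open Pool.Agent.Helper16.Disk7 Pool.Agent.Helper57.CW MeasureTheory Metric Complex Set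
open scoped ENNReal Pointwise

private lemma cos_le_cos_first {N v : ℕ} (hN : 2 ≤ N) (h1 : 1 ≤ v) (h2 : v + 1 ≤ N) :
    Real.cos (2 * Real.pi * v / N) ≤ Real.cos (2 * Real.pi / N) := by
  have hN0 : (0 : ℝ) < N := by exact_mod_cast (by omega : 0 < N)
  have hN2 : (2 : ℝ) ≤ N := by exact_mod_cast hN
  have hv1 : (1 : ℝ) ≤ v := by exact_mod_cast h1
  have hv2 : (v : ℝ) + 1 ≤ N := by exact_mod_cast h2
  have hpi := Real.pi_pos
  have hlow : 2 * Real.pi / N ≤ 2 * Real.pi * v / N := by
    apply div_le_div_of_nonneg_right _ hN0.le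
    nlinarith
  have h0 : 0 ≤ 2 * Real.pi / N := by positivity
  rcases le_total (2 * Real.pi * v / N) Real.pi with h | h
  · exact Real.cos_le_cos_of_nonneg_of_le_pi h0 h hlow
  · have e : Real.cos (2 * Real.pi * v / N) = Real.cos (2 * Real.pi - 2 * Real.pi * v / N) := by
      rw [Real.cos_two_pi_sub]
    rw [e]
    refine Real.cos_le_cos_of_nonneg_of_le_pi h0 (by linarith) ?_
    have h3 : 2 * Real.pi - 2 * Real.pi * v / N = 2 * Real.pi * (N - v) / N := by
      field_simp
    rw [h3]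
    apply div_le_div_of_nonneg_right _ hN0.le
    nlinarith

private lemma re_std {N : ℕ} [NeZero N] (k : ZMod N) :
    (ZMod.stdAddChar k : ℂ).re = Real.cos (2 * Real.pi * k.val / N) := by
  rw [ZMod.stdAddChar_apply, ZMod.toCircle_apply]
  have : (2 * (Real.pi : ℂ) * Complex.I * k.val / N) =
      ((2 * Real.pi * k.val / N : ℝ) : ℂ) * Complex.I := by
    push_cast
    ring
  rw [this, Complex.exp_ofReal_mul_I_re]

theorem wirtinger {N : ℕ} [NeZero N] (hN : 2 ≤ N) (r : ZMod N → ℝ) (h0 : ∑ j, r j = 0) :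
    ∑ j, r j * r (j + 1) ≤ Real.cos (2 * Real.pi / N) * ∑ j, r j ^ 2 := by
  classical
  let R : ZMod N → ℂ := fun k => ∑ j, ZMod.stdAddChar (-(k * j)) * (r j : ℂ)
  have hR : ∀ k, R k = ∑ j, ZMod.stdAddChar (-(k * j)) * (r j : ℂ) := fun _ => rfl
  have hcR : ∀ k, (starRingEnd ℂ) (R k) = ∑ j, ZMod.stdAddChar (k * j) * (r j : ℂ) := by
    intro k
    rw [hR, map_sum]
    refine Finset.sum_congr rfl fun j _ => ?_
    rw [map_mul, Complex.conj_ofReal, ← AddChar.map_neg_eq_conj, neg_neg]
  -- Parseval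
  have key : ∀ s : ZMod N, ∑ k, (Complex.normSq (R k) : ℂ) * ZMod.stdAddChar (k * s) =
      (N : ℂ) * ∑ j, (r (j + s) : ℂ) * r j := by
    intro s
    have h1 : ∀ k, (Complex.normSq (R k) : ℂ) * ZMod.stdAddChar (k * s) =
        ∑ i, ∑ j, ((r i : ℂ) * r j) * ZMod.stdAddChar (k * (j + s - i)) := by
      intro k
      rw [← Complex.mul_conj, hcR, hR, Finset.sum_mul_sum, Finset.sum_mul]
      refine Finset.sum_congr rfl fun i _ => ?_
      rw [Finset.sum_mul]
      refine Finset.sum_congr rfl fun j _ => ?_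
      have e : k * (j + s - i) = -(k * i) + k * j + k * s := by ring
      rw [e, AddChar.map_add_eq_mul, AddChar.map_add_eq_mul]
      ring
    simp_rw [h1]
    rw [Finset.sum_comm]
    have h2 : ∀ i : ZMod N, (∑ k, ∑ j, ((r i : ℂ) * r j) * ZMod.stdAddChar (k * (j + s - i))) =
        ∑ j, ((r i : ℂ) * r j) * (if j + s - i = 0 then (N : ℂ) else 0) := by
      intro i
      rw [Finset.sum_comm]
      refine Finset.sum_congr rfl fun j _ => ?_
      rw [← Finset.mul_sum, AddChar.sum_mulShift _ (ZMod.isPrimitive_stdAddChar N), ZMod.card]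
      push_cast
      rfl
    simp_rw [h2]
    rw [Finset.sum_comm, Finset.mul_sum]
    refine Finset.sum_congr rfl fun j _ => ?_
    rw [Finset.sum_eq_single (j + s)]
    · rw [sub_self, if_pos rfl]
      ring
    · intro i _ hi
      rw [if_neg (fun h => hi (sub_eq_zero.1 h).symm), mul_zero]
    · intro h
      exact absurd (Finset.mem_univ _) h
  have key0 : ∑ k, Complex.normSq (R k) = N * ∑ j, r j ^ 2 := by
    have := key 0
    simp only [mul_zero, AddChar.map_zero_eq_one, mul_one, add_zero] at this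
    have h3 : ((∑ k, Complex.normSq (R k) : ℝ) : ℂ) = ((N * ∑ j, r j ^ 2 : ℝ) : ℂ) := by
      push_cast
      rw [this]
      congr 1
      exact Finset.sum_congr rfl fun j _ => by ring
    exact_mod_cast h3
  have key1 : ∑ k, Complex.normSq (R k) * Real.cos (2 * Real.pi * (k : ZMod N).val / N) =
      N * ∑ j, r j * r (j + 1) := by
    have h3 := congrArg Complex.re (key 1)
    rw [Complex.re_sum] at h3
    have h4 : ((N : ℂ) * ∑ j, (r (j + 1) : ℂ) * r j).re = N * ∑ j, r j * r (j + 1) := by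
      have : ((N : ℂ) * ∑ j, (r (j + 1) : ℂ) * r j) = ((N * ∑ j, r j * r (j + 1) : ℝ) : ℂ) := by
        push_cast
        congr 1
        exact Finset.sum_congr rfl fun j _ => by ring
      rw [this, Complex.ofReal_re]
    rw [h4] at h3
    rw [← h3]
    refine Finset.sum_congr rfl fun k _ => ?_
    rw [mul_one, Complex.re_ofReal_mul, re_std]
  have hR0 : R 0 = 0 := by
    rw [hR]
    simp only [zero_mul, neg_zero, AddChar.map_zero_eq_one, one_mul]
    exact_mod_cast h0
  have hN0 : (0 : ℝ) < N := by exact_mod_cast (by omega : 0 < N)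
  have hle : ∑ k, Complex.normSq (R k) * Real.cos (2 * Real.pi * (k : ZMod N).val / N) ≤
      ∑ k, Complex.normSq (R k) * Real.cos (2 * Real.pi / N) := by
    refine Finset.sum_le_sum fun k _ => ?_
    by_cases hk : k = 0
    · rw [hk, hR0]
      simp
    · refine mul_le_mul_of_nonneg_left ?_ (Complex.normSq_nonneg _)
      refine cos_le_cos_first hN ?_ ?_
      · have : k.val ≠ 0 := fun h => hk ((ZMod.val_eq_zero k).1 h)
        omega
      · exact ZMod.val_lt k
  rw [key1, ← Finset.sum_mul, key0] at hle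
  have : (N : ℝ) * ∑ j, r j * r (j + 1) ≤ N * (Real.cos (2 * Real.pi / N) * ∑ j, r j ^ 2) := by
    linarith
  exact le_of_mul_le_mul_left this hN0

end Pool.Agent.Helper79.MI
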