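import Pool.Agent.Helper79.MI.AreaWN
import Pool.Agent.Helper79.MI.Wirtinger

/-!
# A3: area of `WN N g t` for an arbitrary positive function `g`

`W := WN N g t` is compact (bounded, as the `N ≥ 5` directions positively span the plane), convex,
`0 ∈ interior W`. Let `w = supportFn W`. Then `w(θ_j) ≤ g(θ_j)` and `WN N w t = W`, so by A1
`vol W = FN N w t`. Claim: `FN N g t ≤ FN N w t`.
Put `w_j = w(θ_j)`, `g_j`, `r_j = g_j - w_j ≥ 0`, `ℓ_j(w) = (w_{j+1} + w_{j-1} - 2 cos δ w_j)/sin δ ≥ 0`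
(sublinearity, `supp_sublin`). `FN` is a quadratic form with bilinear form
`B(a,b) = 1/2 ∑ a_j ℓ_j(b) = 1/2 ∑ b_j ℓ_j(a)`.
(a) Slackness: `r_j ℓ_j(w) = 0`. Let `p_{j-1}, p_j` be the vertices of A1 for `C = W`; they are in
`WN N w t = W`, on the line `ip z (e θ_j) = w_j`, at distance `ℓ_j(w)`. If `ℓ_j > 0` and
`w_j < g_j`, let `m` be their midpoint: for `i ≠ j` one has `ip m (e θ_i) < g_i` (both
`ip p_{j-1} (e θ_i)` and `ip p_j (e θ_i)` are `≤ g_i`, and they differ unless
`e θ_i = - e θ_j`, and in this last case `ip m (e θ_i) = - w_j < 0 < g_i`), so `m + ε e(θ_j) ∈ W` for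
small `ε > 0`, which contradicts `w_j = max`.
(b) So `B(w, r) = 0` and `FN(g) = FN(w) + 2 B(w,r) + FN(r) = FN(w) + FN(r)`.
(c) `FN(r) ≤ 0`: let `c = ∑ r / ∑ w` (`∑ w > 0`) and `r' = r - c w`, so `∑ r' = 0` and `FN(r') ≤ 0` by
Wirtinger (A2) (`sin δ > 0`); `FN(r') = FN(r) - 2c B(r,w) + c^2 FN(w) = FN(r) + c^2 FN(w)` and
`FN(w) = vol W ≥ 0`.
-/

namespace Pool.Agent.Helper79.MI

open Pool.Agent.Helper16.Disk7 Pool.Agent.Helper57.CW MeasureTheory Metric Complex Set
open scoped ENNReal Pointwise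

/-! ### The quadratic form on `ZMod N` -/

private noncomputable def qf52 {N : ℕ} [NeZero N] (c : ℝ) (a b : ZMod N → ℝ) : ℝ :=
  ∑ k, a k * (b (k + 1) + b (k - 1) - 2 * c * b k)

private lemma qf_symm52 {N : ℕ} [NeZero N] (c : ℝ) (a b : ZMod N → ℝ) : qf52 c a b = qf52 c b a := by
  have h1 : ∀ a b : ZMod N → ℝ, ∑ k, a k * b (k + 1) = ∑ k, b k * a (k - 1) := by
    intro a b
    rw [← Equiv.sum_comp (Equiv.addRight (1 : ZMod N)) (fun k => b k * a (k - 1))]
    refine Finset.sum_congr rfl fun k _ => ?_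
    simp [mul_comm]
  have h2 : ∀ a b : ZMod N → ℝ, qf52 c a b =
      ∑ k, a k * b (k + 1) + ∑ k, a k * b (k - 1) - ∑ k, 2 * c * (a k * b k) := by
    intro a b
    unfold qf52
    rw [← Finset.sum_add_distrib, ← Finset.sum_sub_distrib]
    exact Finset.sum_congr rfl fun k _ => by ring
  rw [h2, h2, h1 a b, ← h1 b a]
  have h3 : ∑ k, 2 * c * (a k * b k) = ∑ k, 2 * c * (b k * a k) :=
    Finset.sum_congr rfl fun k _ => by ring
  rw [h3]
  ring

private lemma qf_lin52 {N : ℕ} [NeZero N] (c s : ℝ) (a b d : ZMod N → ℝ) :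
    qf52 c (fun k => a k + s * b k) d = qf52 c a d + s * qf52 c b d := by
  unfold qf52
  rw [Finset.mul_sum, ← Finset.sum_add_distrib]
  exact Finset.sum_congr rfl fun k _ => by ring

private lemma qf_sq52 {N : ℕ} [NeZero N] (c s : ℝ) (a b : ZMod N → ℝ) :
    qf52 c (fun k => a k + s * b k) (fun k => a k + s * b k) =
      qf52 c a a + 2 * s * qf52 c a b + s ^ 2 * qf52 c b b := by
  rw [qf_lin52, qf_symm52 c a, qf_symm52 c b, qf_lin52, qf_lin52, qf_symm52 c b a]
  ring

private lemma qf_wirt52 {N : ℕ} [NeZero N] (hN : 2 ≤ N) (r : ZMod N → ℝ) (h0 : ∑ j, r j = 0) :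
    qf52 (Real.cos (2 * Real.pi / N)) r r ≤ 0 := by
  have h1 := wirtinger hN r h0
  have h2 : ∑ k, r k * r (k - 1) = ∑ k, r k * r (k + 1) := by
    rw [← Equiv.sum_comp (Equiv.addRight (1 : ZMod N)) (fun k => r k * r (k - 1))]
    refine Finset.sum_congr rfl fun k _ => ?_
    simp [mul_comm]
  have h3 : qf52 (Real.cos (2 * Real.pi / N)) r r =
      ∑ k, r k * r (k + 1) + ∑ k, r k * r (k - 1) -
        2 * (Real.cos (2 * Real.pi / N) * ∑ k, r k ^ 2) := by
    unfold qf52
    rw [← Finset.sum_add_distrib, Finset.mul_sum, Finset.mul_sum, ← Finset.sum_sub_distrib]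
    exact Finset.sum_congr rfl fun k _ => by ring
  rw [h3, h2]
  linarith

/-- The algebraic part of the argument. -/
private lemma qf_main52 {N : ℕ} [NeZero N] (hN : 2 ≤ N) (g w : ZMod N → ℝ)
    (hw : 0 < ∑ k, w k) (hww : 0 ≤ qf52 (Real.cos (2 * Real.pi / N)) w w)
    (hsl : ∀ k, (g k - w k) *
      (w (k + 1) + w (k - 1) - 2 * Real.cos (2 * Real.pi / N) * w k) = 0) :
    qf52 (Real.cos (2 * Real.pi / N)) g g ≤ qf52 (Real.cos (2 * Real.pi / N)) w w := by
  set c := Real.cos (2 * Real.pi / N) with hc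
  set r : ZMod N → ℝ := fun k => g k - w k with hr
  have h1 : qf52 c r w = 0 := by
    unfold qf52
    exact Finset.sum_eq_zero fun k _ => hsl k
  have h2 : qf52 c g g = qf52 c w w + qf52 c r r := by
    have h3 := qf_sq52 c 1 r w
    have h4 : (fun k => r k + 1 * w k) = g := by
      funext k
      rw [hr]
      simp
    rw [h4, h1] at h3
    rw [h3]
    ring
  have h5 : qf52 c r r ≤ 0 := by
    set s : ℝ := -((∑ k, r k) / ∑ k, w k) with hs
    have h6 : ∑ k, (r k + s * w k) = 0 := by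
      rw [Finset.sum_add_distrib, ← Finset.mul_sum, hs]
      field_simp
      ring
    have h7 := qf_wirt52 hN (fun k => r k + s * w k) h6
    rw [← hc, qf_sq52, h1] at h7
    have h8 : 0 ≤ s ^ 2 * qf52 c w w := mul_nonneg (sq_nonneg s) hww
    linarith
  linarith

/-! ### Periodicity -/

private lemma e_int52 (θ : ℝ) (q : ℤ) : e (θ + q * (2 * Real.pi)) = e θ := by
  apply Complex.ext
  · rw [e_re, e_re, Real.cos_add_int_mul_two_pi]
  · rw [e_im, e_im, Real.sin_add_int_mul_two_pi]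

private lemma per_int52 {f : ℝ → ℝ} (hf : Function.Periodic f (2 * Real.pi)) (θ : ℝ) (q : ℤ) :
    f (θ + q * (2 * Real.pi)) = f θ := (hf.int_mul q) θ

private lemma red52 {N : ℕ} (hN : 1 ≤ N) (k : ℤ) : ∃ (m : ℕ) (q : ℤ), m < N ∧
    (m : ℤ) = k % N ∧ ∀ θ : ℝ, θ + k * (2 * Real.pi / N) =
      θ + m * (2 * Real.pi / N) + q * (2 * Real.pi) := by
  have hN0 : (0 : ℤ) < N := by exact_mod_cast hN
  have h1 := Int.emod_nonneg k hN0.ne'
  have h2 := Int.emod_lt_of_pos k hN0
  refine ⟨(k % N).toNat, k / N, by omega, by omega, fun θ => ?_⟩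
  have h3 : (((k % N).toNat : ℕ) : ℝ) = ((k % N : ℤ) : ℝ) := by
    exact_mod_cast congrArg (Int.cast : ℤ → ℝ) (Int.toNat_of_nonneg h1)
  have h4 : (k : ℝ) = ((k % N : ℤ) : ℝ) + N * ((k / N : ℤ) : ℝ) := by
    exact_mod_cast congrArg (Int.cast : ℤ → ℝ) (Int.emod_add_mul_ediv k N).symm
  have hNr : (N : ℝ) ≠ 0 := by exact_mod_cast (by omega : N ≠ 0)
  rw [h3, h4]
  field_simp
  ring

private lemma mem_int52 {N : ℕ} (hN : 1 ≤ N) {g : ℝ → ℝ} (hg : Function.Periodic g (2 * Real.pi))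
    {t : ℝ} {z : ℂ} (hz : z ∈ WN N g t) (k : ℤ) :
    ip z (e (t + k * (2 * Real.pi / N))) ≤ g (t + k * (2 * Real.pi / N)) := by
  obtain ⟨m, q, hm, -, h⟩ := red52 hN k
  rw [h, e_int52, per_int52 hg]
  exact hz m hm

/-! ### The polygon -/

private lemma cont_ip52 (θ : ℝ) : Continuous fun z : ℂ => ip z (e θ) := by
  simp only [ip_e]
  fun_prop

private lemma closed52 (N : ℕ) (g : ℝ → ℝ) (t : ℝ) : IsClosed (WN N g t) := by
  have h : WN N g t = ⋂ j : ℕ, ⋂ _ : j < N, {z | ip z (e (t + j * (2 * Real.pi / N))) ≤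
      g (t + j * (2 * Real.pi / N))} := by
    ext z
    simp only [WN, Set.mem_iInter, Set.mem_ofPred_eq]
  rw [h]
  exact isClosed_iInter fun j => isClosed_iInter fun _ =>
    isClosed_le (cont_ip52 _) continuous_const

private lemma convex52 (N : ℕ) (g : ℝ → ℝ) (t : ℝ) : Convex ℝ (WN N g t) := by
  intro x hx y hy a b ha hb hab j hj
  have h1 := mul_le_mul_of_nonneg_left (hx j hj) ha
  have h2 := mul_le_mul_of_nonneg_left (hy j hj) hb
  rw [Complex.real_smul, Complex.real_smul, ip_add_left, ip_smul, ip_smul]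
  have h3 : a * g (t + j * (2 * Real.pi / N)) + b * g (t + j * (2 * Real.pi / N)) =
      g (t + j * (2 * Real.pi / N)) := by
    rw [← add_mul, hab, one_mul]
  linarith

private lemma bound52 {N : ℕ} (hN : 5 ≤ N) {g : ℝ → ℝ} (hper : Function.Periodic g (2 * Real.pi))
    (hpos : ∀ θ, 0 < g θ) (t : ℝ) {z : ℂ} (hz : z ∈ WN N g t) :
    ‖z‖ ≤ 2 * ∑ j ∈ Finset.range N, g (t + j * (2 * Real.pi / N)) := by
  have hM : 0 ≤ ∑ j ∈ Finset.range N, g (t + j * (2 * Real.pi / N)) :=
    Finset.sum_nonneg fun j _ => (hpos _).le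
  by_cases h0 : z = 0
  · rw [h0, norm_zero]
    positivity
  have hn : (‖z‖ : ℝ) ≠ 0 := norm_ne_zero_iff.2 h0
  obtain ⟨φ, hφ⟩ := exists_e (z / ‖z‖) (by
    rw [norm_div, Complex.norm_real, norm_norm, div_self hn])
  have h1 : z = ((‖z‖ : ℝ) : ℂ) * e φ := by
    rw [← hφ, mul_div_cancel₀]
    exact_mod_cast hn
  set δ : ℝ := 2 * Real.pi / N with hδ
  have hNp : (5 : ℝ) ≤ N := by exact_mod_cast hN
  have hπ := Real.pi_pos
  have hδ0 : 0 < δ := by positivity
  set k : ℤ := round ((φ - t) / δ) with hk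
  have h2 := abs_sub_round ((φ - t) / δ)
  have h3 : |φ - (t + k * δ)| ≤ δ / 2 := by
    have h4 : φ - (t + k * δ) = δ * ((φ - t) / δ - k) := by
      field_simp
      ring
    rw [h4, abs_mul, abs_of_pos hδ0]
    have h5 := mul_le_mul_of_nonneg_left h2 hδ0.le
    linarith
  have h4 : (1 : ℝ) / 2 ≤ Real.cos (φ - (t + k * δ)) := by
    rw [← Real.cos_abs, ← Real.cos_pi_div_three]
    refine Real.cos_le_cos_of_nonneg_of_le_pi (abs_nonneg _) (by linarith) (h3.trans ?_)
    rw [hδ, div_div, div_le_div_iff₀ (by positivity) (by norm_num)]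
    nlinarith
  have h5 := mem_int52 (by omega) hper hz k
  rw [← hδ] at h5
  have h6 : ip z (e (t + k * δ)) = ‖z‖ * Real.cos (φ - (t + k * δ)) := by
    conv_lhs => rw [h1]
    rw [ip_smul, ip_e_e]
  obtain ⟨m, q, hm, -, h7⟩ := red52 (N := N) (by omega) k
  have h8 : g (t + k * δ) ≤ ∑ j ∈ Finset.range N, g (t + j * δ) := by
    rw [hδ, h7, per_int52 hper]
    exact Finset.single_le_sum (f := fun j : ℕ => g (t + j * (2 * Real.pi / N)))
      (fun j _ => (hpos _).le) (Finset.mem_range.2 hm)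
  have h9 := mul_le_mul_of_nonneg_left h4 (norm_nonneg z)
  linarith

private lemma compact52 {N : ℕ} (hN : 5 ≤ N) {g : ℝ → ℝ} (hper : Function.Periodic g (2 * Real.pi))
    (hpos : ∀ θ, 0 < g θ) (t : ℝ) : IsCompact (WN N g t) := by
  refine (isCompact_closedBall (0 : ℂ)
    (2 * ∑ j ∈ Finset.range N, g (t + j * (2 * Real.pi / N)))).of_isClosed_subset
    (closed52 N g t) fun z hz => ?_
  rw [mem_closedBall, dist_zero_right]
  exact bound52 hN hper hpos t hz

private lemma interior52 {N : ℕ} (hN : 5 ≤ N) {g : ℝ → ℝ} (hpos : ∀ θ, 0 < g θ) (t : ℝ) :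
    (0 : ℂ) ∈ interior (WN N g t) := by
  obtain ⟨j₀, -, h1⟩ := Finset.exists_min_image (Finset.range N)
    (fun j : ℕ => g (t + j * (2 * Real.pi / N))) ⟨0, Finset.mem_range.2 (by omega)⟩
  rw [mem_interior]
  refine ⟨ball 0 (g (t + j₀ * (2 * Real.pi / N))), fun z hz j hj => ?_, isOpen_ball,
    mem_ball_self (hpos _)⟩
  rw [mem_ball, dist_zero_right] at hz
  exact (ip_le_norm z _ (norm_e _)).trans (hz.le.trans (h1 j (Finset.mem_range.2 hj)))

/-! ### Slackness -/

private lemma slack52 {N : ℕ} (hN : 5 ≤ N) {g : ℝ → ℝ} (hper : Function.Periodic g (2 * Real.pi))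
    (hpos : ∀ θ, 0 < g θ) (t : ℝ) (k : ℤ) (θ : ℝ) (hθ : θ = t + k * (2 * Real.pi / N))
    (hlt : supportFn (WN N g t) θ < g θ) :
    supportFn (WN N g t) (θ + 2 * Real.pi / N) + supportFn (WN N g t) (θ - 2 * Real.pi / N) -
      2 * Real.cos (2 * Real.pi / N) * supportFn (WN N g t) θ = 0 := by
  set W := WN N g t with hW
  set δ : ℝ := 2 * Real.pi / N with hδ
  set w := supportFn W with hw
  have hWc : IsCompact W := compact52 hN hper hpos t
  have h0 : (0 : ℂ) ∈ interior W := interior52 hN hpos t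
  have hne : W.Nonempty := ⟨0, interior_subset h0⟩
  have hNp : (5 : ℝ) ≤ N := by exact_mod_cast hN
  have hπ := Real.pi_pos
  have hδ0 : 0 < δ := by positivity
  have hδπ : δ < Real.pi := by
    rw [hδ, div_lt_iff₀ (by linarith)]
    nlinarith
  have hs : 0 < Real.sin δ := Real.sin_pos_of_pos_of_lt_pi hδ0 hδπ
  have hwper : Function.Periodic w (2 * Real.pi) := supportFn_periodic W
  have hle : ∀ i : ℕ, i < N → w (t + i * δ) ≤ g (t + i * δ) := fun i hi =>
    supp_le hWc hne fun z hz => hz i hi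
  -- the vertices are in `W`
  have hvtx : ∀ l : ℤ, vtx w (t + l * δ) δ ∈ W := by
    intro l i hi
    obtain ⟨m, q, hm, -, h⟩ := red52 (N := N) (by omega) ((i : ℤ) - l)
    have h1 := supp_vertex hWc hne (N := N) (by omega) (t + l * δ) m hm
    have h2 : t + (i : ℝ) * (2 * Real.pi / N) = t + l * δ + m * (2 * Real.pi / N) +
        q * (2 * Real.pi) := by
      rw [← h (t + l * δ), hδ]
      push_cast
      ring
    rw [h2, e_int52, per_int52 hper]
    rw [← hδ] at h1 ⊢
    refine h1.trans ?_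
    have h3 := hle i hi
    rw [hδ, h2, per_int52 hwper, per_int52 hper, ← hδ] at h3
    exact h3
  set p := vtx w θ δ with hp
  set p' := vtx w (θ - δ) δ with hp'
  have hpW : p ∈ W := by
    rw [hp, hθ]
    exact hvtx k
  have hpW' : p' ∈ W := by
    have h1 : θ - δ = t + ((k - 1 : ℤ) : ℝ) * δ := by
      rw [hθ]
      push_cast
      ring
    rw [hp', h1]
    exact hvtx (k - 1)
  have hip : ∀ φ : ℝ, ip p (e (θ + φ)) =
      (w (θ + δ) * Real.sin φ - w θ * Real.sin (φ - δ)) / Real.sin δ := fun φ => ip_vtx w θ δ φ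
  have hip' : ∀ φ : ℝ, ip p' (e (θ + φ)) =
      (w θ * Real.sin (φ + δ) - w (θ - δ) * Real.sin φ) / Real.sin δ := by
    intro φ
    have h1 := ip_vtx w (θ - δ) δ (φ + δ)
    have h2 : θ - δ + (φ + δ) = θ + φ := by ring
    rw [h2, sub_add_cancel, add_sub_cancel_right] at h1
    exact h1
  have hpθ : ip p (e θ) = w θ := by
    have h1 := hip 0
    rw [add_zero, Real.sin_zero, mul_zero, zero_sub, zero_sub, Real.sin_neg] at h1
    rw [h1]
    field_simp
  have hpθ' : ip p' (e θ) = w θ := by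
    have h1 := hip' 0
    rw [add_zero, Real.sin_zero, mul_zero, sub_zero, zero_add] at h1
    rw [h1]
    field_simp
  have hdiff : ∀ φ : ℝ, ip p (e (θ + φ)) - ip p' (e (θ + φ)) =
      Real.sin φ * (w (θ + δ) + w (θ - δ) - 2 * Real.cos δ * w θ) / Real.sin δ := by
    intro φ
    rw [hip, hip', Real.sin_sub, Real.sin_add]
    ring
  by_contra hcon
  -- the midpoint can be moved
  have hev : ∀ i ∈ Finset.range N, ∀ᶠ ε in nhdsWithin (0 : ℝ) (Set.Ioi 0),
      (ip p (e (t + i * δ)) + ip p' (e (t + i * δ))) / 2 + ε * Real.cos (θ - (t + i * δ)) ≤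
        g (t + i * δ) := by
    intro i hi
    have hi' := Finset.mem_range.1 hi
    have h1 : ip p (e (t + i * δ)) ≤ g (t + i * δ) := hpW i hi'
    have h2 : ip p' (e (t + i * δ)) ≤ g (t + i * δ) := hpW' i hi'
    rcases le_or_gt (Real.cos (θ - (t + i * δ))) 0 with hc | hc
    · filter_upwards [self_mem_nhdsWithin] with ε hε
      have h3 : ε * Real.cos (θ - (t + i * δ)) ≤ 0 :=
        mul_nonpos_of_nonneg_of_nonpos (le_of_lt hε) hc
      linarith
    · have h3 : (ip p (e (t + i * δ)) + ip p' (e (t + i * δ))) / 2 < g (t + i * δ) := by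
        rcases h1.lt_or_eq with h4 | h4
        · linarith
        rcases h2.lt_or_eq with h5 | h5
        · linarith
        exfalso
        have h6 := hdiff (t + i * δ - θ)
        rw [add_sub_cancel, h4, h5, sub_self] at h6
        have h7 : Real.sin (t + i * δ - θ) = 0 := by
          by_contra h8
          have h9 : Real.sin (t + i * δ - θ) *
              (w (θ + δ) + w (θ - δ) - 2 * Real.cos δ * w θ) / Real.sin δ ≠ 0 :=
            div_ne_zero (mul_ne_zero h8 hcon) hs.ne'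
          exact h9 h6.symm
        have h8 : Real.cos (t + i * δ - θ) = 1 := by
          have h9 := Real.sin_sq_add_cos_sq (t + i * δ - θ)
          rw [h7] at h9
          have h10 : 0 < Real.cos (t + i * δ - θ) := by
            rw [← Real.cos_neg, neg_sub]
            exact hc
          nlinarith
        obtain ⟨q, hq⟩ := (Real.cos_eq_one_iff _).1 h8
        have h9 : t + i * δ = θ + q * (2 * Real.pi) := by linarith
        rw [h9, e_int52, per_int52 hper, hpθ] at h4
        exact hlt.ne h4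
      have h4 : Filter.Tendsto (fun ε : ℝ => (ip p (e (t + i * δ)) + ip p' (e (t + i * δ))) / 2 +
          ε * Real.cos (θ - (t + i * δ))) (nhds 0) (nhds
          ((ip p (e (t + i * δ)) + ip p' (e (t + i * δ))) / 2 +
          0 * Real.cos (θ - (t + i * δ)))) := by
        refine Continuous.tendsto ?_ 0
        fun_prop
      rw [zero_mul, add_zero] at h4
      have h5 := (h4.eventually (gt_mem_nhds h3)).filter_mono
        (nhdsWithin_le_nhds (s := Set.Ioi (0 : ℝ)))
      exact h5.mono fun ε hε => hε.le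
  have hall := (Filter.eventually_all_finset (Finset.range N)).2 hev
  obtain ⟨ε, hε, hε0⟩ := (hall.and self_mem_nhdsWithin).exists
  have hε1 : 0 < ε := hε0
  have hmem : ((1 / 2 : ℝ) : ℂ) * (p + p') + (ε : ℂ) * e θ ∈ W := by
    intro i hi
    have h1 := hε i (Finset.mem_range.2 hi)
    rw [ip_add_left, ip_smul, ip_smul, ip_add_left, ip_e_e]
    refine le_trans (le_of_eq ?_) h1
    rw [← hδ]
    ring
  have h1 := ip_le_supp hWc hmem θ
  rw [ip_add_left, ip_smul, ip_smul, ip_add_left, ip_e_e, hpθ, hpθ', sub_self, Real.cos_zero] at h1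
  have h2 : 1 / 2 * (w θ + w θ) + ε * 1 ≤ w θ := h1
  linarith

/-! ### The functional in terms of `ZMod N` -/

private lemma FN_eq52 {N : ℕ} [NeZero N] {f : ℝ → ℝ} (hf : Function.Periodic f (2 * Real.pi))
    (t : ℝ) : FN N f t = qf52 (Real.cos (2 * Real.pi / N))
      (fun k : ZMod N => f (t + (k.val : ℝ) * (2 * Real.pi / N)))
      (fun k : ZMod N => f (t + (k.val : ℝ) * (2 * Real.pi / N))) /
        (2 * Real.sin (2 * Real.pi / N)) := by
  have hN1 : 1 ≤ N := Nat.one_le_iff_ne_zero.2 (NeZero.ne N)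
  have h1 : ∀ i : ℤ, f (t + (((i : ZMod N).val : ℕ) : ℝ) * (2 * Real.pi / N)) =
      f (t + i * (2 * Real.pi / N)) := by
    intro i
    obtain ⟨m, q, hm, hmi, h⟩ := red52 hN1 i
    rw [h, per_int52 hf]
    have h2 : (((i : ZMod N).val : ℕ) : ℤ) = m := by
      rw [hmi, ZMod.val_intCast]
    have h3 : (i : ZMod N).val = m := by exact_mod_cast h2
    rw [h3]
  unfold FN qf52
  rw [Finset.sum_div]
  refine Finset.sum_nbij' (fun j : ℕ => (j : ZMod N)) (fun k => k.val) ?_ ?_ ?_ ?_ ?_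
  · intro j _
    exact Finset.mem_univ _
  · intro k _
    exact Finset.mem_range.2 (ZMod.val_lt k)
  · intro j hj
    exact ZMod.val_cast_of_lt (Finset.mem_range.1 hj)
  · intro k _
    exact ZMod.natCast_zmod_val k
  · intro j _
    have e1 := h1 (j : ℤ)
    have e2 := h1 ((j : ℤ) + 1)
    have e3 := h1 ((j : ℤ) - 1)
    push_cast at e1 e2 e3
    beta_reduce
    rw [e1, e2, e3]

theorem FN_le_volume_WN {N : ℕ} (hN : 5 ≤ N) {g : ℝ → ℝ} (hper : Function.Periodic g (2 * Real.pi))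
    (hpos : ∀ θ, 0 < g θ) (t : ℝ) : FN N g t ≤ (volume (WN N g t)).toReal := by
  have : NeZero N := ⟨by omega⟩
  set W := WN N g t with hW
  set w := supportFn W with hw
  have hWc : IsCompact W := compact52 hN hper hpos t
  have h0 : (0 : ℂ) ∈ interior W := interior52 hN hpos t
  have hne : W.Nonempty := ⟨0, interior_subset h0⟩
  have hwper : Function.Periodic w (2 * Real.pi) := supportFn_periodic W
  have hNp : (5 : ℝ) ≤ N := by exact_mod_cast hN
  have hπ := Real.pi_pos
  have hδ0 : 0 < 2 * Real.pi / N := by positivity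
  have hδπ : 2 * Real.pi / N < Real.pi := by
    rw [div_lt_iff₀ (by linarith)]
    nlinarith
  have hs : 0 < Real.sin (2 * Real.pi / N) := Real.sin_pos_of_pos_of_lt_pi hδ0 hδπ
  have hle : ∀ i : ℕ, i < N → w (t + i * (2 * Real.pi / N)) ≤ g (t + i * (2 * Real.pi / N)) :=
    fun i hi => supp_le hWc hne fun z hz => hz i hi
  have hWW : WN N w t = W := by
    apply Set.Subset.antisymm
    · intro z hz j hj
      exact (hz j hj).trans (hle j hj)
    · intro z hz j _
      exact ip_le_supp hWc hz _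
  have hvol := volume_WN hN hWc h0 t
  rw [← hw, hWW] at hvol
  rw [hvol]
  obtain ⟨r, hr, -, hrw⟩ := supp_pos hWc h0
  have hvol0 : 0 ≤ FN N w t := by
    rw [← hvol]
    exact ENNReal.toReal_nonneg
  rw [FN_eq52 hwper] at hvol0
  rw [FN_eq52 hper, FN_eq52 hwper]
  have h2s : 0 < 2 * Real.sin (2 * Real.pi / N) := by positivity
  refine div_le_div_of_nonneg_right ?_ h2s.le
  refine qf_main52 (by omega) _ _ ?_ ?_ ?_
  · refine Finset.sum_pos (fun k _ => hr.trans_le (hrw _)) ⟨0, Finset.mem_univ _⟩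
  · by_contra hneg
    push Not at hneg
    exact absurd hvol0 (not_le.2 (div_neg_of_neg_of_pos hneg h2s))
  · intro k
    have hkv : k.val < N := ZMod.val_lt k
    have h1 : ∀ i : ℤ, w (t + (((i : ZMod N).val : ℕ) : ℝ) * (2 * Real.pi / N)) =
        w (t + i * (2 * Real.pi / N)) := by
      intro i
      obtain ⟨m, q, hm, hmi, h⟩ := red52 (N := N) (by omega) i
      rw [h, per_int52 hwper]
      have h2 : (((i : ZMod N).val : ℕ) : ℤ) = m := by
        rw [hmi, ZMod.val_intCast]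
      have h3 : (i : ZMod N).val = m := by exact_mod_cast h2
      rw [h3]
    have e2 := h1 ((k.val : ℤ) + 1)
    have e3 := h1 ((k.val : ℤ) - 1)
    push_cast at e2 e3
    rw [ZMod.natCast_zmod_val] at e2 e3
    rw [e2, e3]
    rcases (hle k.val hkv).lt_or_eq with h2 | h2
    · have h3 := slack52 hN hper hpos t (k.val : ℤ) (t + (k.val : ℝ) * (2 * Real.pi / N))
        (by rw [Int.cast_natCast]) h2
      rw [← hW, ← hw] at h3
      have a1 : t + (k.val : ℝ) * (2 * Real.pi / N) + 2 * Real.pi / N =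
          t + ((k.val : ℝ) + 1) * (2 * Real.pi / N) := by ring
      have a2 : t + (k.val : ℝ) * (2 * Real.pi / N) - 2 * Real.pi / N =
          t + ((k.val : ℝ) - 1) * (2 * Real.pi / N) := by ring
      rw [a1, a2] at h3
      exact mul_eq_zero_of_right _ h3
    · refine mul_eq_zero_of_left ?_ _
      rw [h2, sub_self]

end Pool.Agent.Helper79.MI
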