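import Pool.Agent.Helper79.MI.AreaWN
import Pool.Agent.Helper79.MI.WNBound

/-!
# A5: mean area of a Minkowski sum

`h = supportFn`, `δ = 2π/N`, `λ_N = (1 + M δ/r)/cos(π/N)` where `closedBall 0 r ⊆ C, D ⊆ closedBall 0 M`
(so `E_γ = C + rot γ D` has `closedBall 0 r ⊆ E_γ ⊆ closedBall 0 (2M)`). For a compact convex `E`
with `0` in the interior: `E ⊆ WN N h_E t ⊆ λ_N • E` (A4 and `supp_mem_iff`), so by A1
`vol E ≤ FN N h_E t ≤ λ_N^2 vol E` for every `t`. Integrate over `t` and `γ` (everything is
explicit in terms of `h_C`, `h_D`) and let `N → ∞` (dominated convergence).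
-/

namespace Pool.Agent.Helper79.MI

open Pool.Agent.Helper16.Disk7 Pool.Agent.Helper57.CW MeasureTheory Metric Complex Set
open scoped ENNReal Pointwise

namespace MeanArea

/-- The second difference operator. -/
noncomputable def LL (δ : ℝ) (b : ℝ → ℝ) (t : ℝ) : ℝ :=
  b (t + δ) + b (t - δ) - 2 * Real.cos δ * b t

lemma FN_eq (N : ℕ) (h : ℝ → ℝ) (t : ℝ) :
    FN N h t = ∑ j ∈ Finset.range N, h (t + j * (2 * Real.pi / N)) *
      LL (2 * Real.pi / N) h (t + j * (2 * Real.pi / N)) / (2 * Real.sin (2 * Real.pi / N)) := by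
  unfold FN LL
  refine Finset.sum_congr rfl fun j _ => ?_
  have h1 : t + ((j : ℝ) + 1) * (2 * Real.pi / N) =
      t + j * (2 * Real.pi / N) + 2 * Real.pi / N := by ring
  have h2 : t + ((j : ℝ) - 1) * (2 * Real.pi / N) =
      t + j * (2 * Real.pi / N) - 2 * Real.pi / N := by ring
  rw [h1, h2]

/-- Shift invariance of the integral over a period. -/
lemma integral_shift {f : ℝ → ℝ} (hf : Function.Periodic f (2 * Real.pi)) (s : ℝ) :
    ∫ t in (0 : ℝ)..(2 * Real.pi), f (t + s) = ∫ t in (0 : ℝ)..(2 * Real.pi), f t := by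
  rw [intervalIntegral.integral_comp_add_right]
  have := hf.intervalIntegral_add_eq s 0
  rw [zero_add] at this ⊢
  rw [← this]
  congr 1
  ring

lemma integral_reflect {f : ℝ → ℝ} (hf : Function.Periodic f (2 * Real.pi)) (s : ℝ) :
    ∫ t in (0 : ℝ)..(2 * Real.pi), f (s - t) = ∫ t in (0 : ℝ)..(2 * Real.pi), f t := by
  rw [intervalIntegral.integral_comp_sub_left]
  have := hf.intervalIntegral_add_eq (s - 2 * Real.pi) 0
  rw [zero_add] at this
  rw [← this]
  congr 1
  ring

lemma LL_continuous {δ : ℝ} {b : ℝ → ℝ} (hb : Continuous b) : Continuous (LL δ b) := by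
  unfold LL
  fun_prop

lemma LL_periodic {δ : ℝ} {b : ℝ → ℝ} (hb : Function.Periodic b (2 * Real.pi)) :
    Function.Periodic (LL δ b) (2 * Real.pi) := by
  intro t
  unfold LL
  have h1 : t + 2 * Real.pi + δ = t + δ + 2 * Real.pi := by ring
  have h2 : t + 2 * Real.pi - δ = t - δ + 2 * Real.pi := by ring
  rw [h1, h2, hb, hb, hb]

lemma integral_LL {δ : ℝ} {b : ℝ → ℝ} (hb : Continuous b)
    (hp : Function.Periodic b (2 * Real.pi)) :
    ∫ t in (0 : ℝ)..(2 * Real.pi), LL δ b t =
      (2 - 2 * Real.cos δ) * ∫ t in (0 : ℝ)..(2 * Real.pi), b t := by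
  unfold LL
  have h1 := integral_shift hp δ
  have h2 := integral_shift hp (-δ)
  simp only [← sub_eq_add_neg] at h2
  rw [intervalIntegral.integral_sub, intervalIntegral.integral_add, h1, h2,
    intervalIntegral.integral_const_mul]
  · ring
  · exact (by fun_prop : Continuous fun t => b (t + δ)).intervalIntegrable _ _
  · exact (by fun_prop : Continuous fun t => b (t - δ)).intervalIntegrable _ _
  · exact (by fun_prop : Continuous fun t => b (t + δ) + b (t - δ)).intervalIntegrable _ _
  · exact (by fun_prop : Continuous fun t => 2 * Real.cos δ * b t).intervalIntegrable _ _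

/-- The mean of a product with a rotated function. -/
lemma integral_conv {a g : ℝ → ℝ} (ha : Continuous a) (hg : Continuous g)
    (hp : Function.Periodic g (2 * Real.pi)) :
    ∫ γ in (0 : ℝ)..(2 * Real.pi), ∫ t in (0 : ℝ)..(2 * Real.pi), a t * g (t - γ) =
      (∫ t in (0 : ℝ)..(2 * Real.pi), a t) * ∫ t in (0 : ℝ)..(2 * Real.pi), g t := by
  have hpi : (0 : ℝ) ≤ 2 * Real.pi := by positivity
  have h1 : ∀ γ : ℝ, ∫ t in (0 : ℝ)..(2 * Real.pi), a t * g (t - γ) =
      ∫ t in Ioc (0 : ℝ) (2 * Real.pi), a t * g (t - γ) := fun γ =>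
    intervalIntegral.integral_of_le hpi
  simp only [h1]
  rw [intervalIntegral_integral_swap]
  · have h2 : ∀ t : ℝ, ∫ γ in (0 : ℝ)..(2 * Real.pi), a t * g (t - γ) =
        a t * ∫ t in (0 : ℝ)..(2 * Real.pi), g t := by
      intro t
      rw [intervalIntegral.integral_const_mul, integral_reflect hp]
    simp only [h2]
    rw [← intervalIntegral.integral_of_le hpi, intervalIntegral.integral_mul_const]
  · rw [uIoc_of_le hpi, Measure.prod_restrict]
    have h3 : Continuous (Function.uncurry fun (γ t : ℝ) => a t * g (t - γ)) := by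
      unfold Function.uncurry
      fun_prop
    exact (h3.continuousOn.integrableOn_compact
      (isCompact_Icc.prod isCompact_Icc)).mono_set
        (prod_mono Ioc_subset_Icc_self Ioc_subset_Icc_self)

/-- The integral of `FN`. -/
noncomputable def GN (N : ℕ) (h : ℝ → ℝ) : ℝ :=
  ∫ t in (0 : ℝ)..(2 * Real.pi), h t * LL (2 * Real.pi / N) h t

lemma FN_continuous (N : ℕ) {h : ℝ → ℝ} (hh : Continuous h) : Continuous (FN N h) := by
  unfold FN
  fun_prop

lemma integral_FN (N : ℕ) {h : ℝ → ℝ} (hh : Continuous h)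
    (hp : Function.Periodic h (2 * Real.pi)) :
    ∫ t in (0 : ℝ)..(2 * Real.pi), FN N h t =
      N / (2 * Real.sin (2 * Real.pi / N)) * GN N h := by
  simp only [FN_eq]
  rw [intervalIntegral.integral_finsetSum]
  · have h1 : ∀ j ∈ Finset.range N, ∫ t in (0 : ℝ)..(2 * Real.pi), h (t + j * (2 * Real.pi / N)) *
        LL (2 * Real.pi / N) h (t + j * (2 * Real.pi / N)) / (2 * Real.sin (2 * Real.pi / N)) =
        GN N h / (2 * Real.sin (2 * Real.pi / N)) := by
      intro j _
      rw [intervalIntegral.integral_div]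
      congr 1
      exact integral_shift (f := fun t => h t * LL (2 * Real.pi / N) h t)
        (hp.mul (LL_periodic hp)) _
    rw [Finset.sum_congr rfl h1, Finset.sum_const, Finset.card_range, nsmul_eq_mul]
    ring
  · intro j _
    have hc := LL_continuous (δ := 2 * Real.pi / N) hh
    exact (by fun_prop : Continuous fun t : ℝ => h (t + j * (2 * Real.pi / N)) *
      LL (2 * Real.pi / N) h (t + j * (2 * Real.pi / N)) /
        (2 * Real.sin (2 * Real.pi / N))).intervalIntegrable _ _

lemma integral_three {X Y : ℝ → ℝ} (hX : Continuous X) (hY : Continuous Y) (c : ℝ) :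
    ∫ x in (0 : ℝ)..(2 * Real.pi), ((c + X x) + Y x) =
      2 * Real.pi * c + (∫ x in (0 : ℝ)..(2 * Real.pi), X x) +
        ∫ x in (0 : ℝ)..(2 * Real.pi), Y x := by
  rw [intervalIntegral.integral_add ((by fun_prop : Continuous fun x => c + X x).intervalIntegrable
      _ _) (hY.intervalIntegrable _ _),
    intervalIntegral.integral_add (continuous_const.intervalIntegrable _ _)
      (hX.intervalIntegrable _ _), intervalIntegral.integral_const]
  simp only [sub_zero, smul_eq_mul]

lemma integral_four {X Y Z W : ℝ → ℝ} (hX : Continuous X) (hY : Continuous Y) (hZ : Continuous Z)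
    (hW : Continuous W) :
    ∫ x in (0 : ℝ)..(2 * Real.pi), (X x + Y x + Z x + W x) =
      (∫ x in (0 : ℝ)..(2 * Real.pi), X x) + (∫ x in (0 : ℝ)..(2 * Real.pi), Y x) +
        (∫ x in (0 : ℝ)..(2 * Real.pi), Z x) + ∫ x in (0 : ℝ)..(2 * Real.pi), W x := by
  rw [intervalIntegral.integral_add ((by fun_prop : Continuous fun x => X x + Y x +
      Z x).intervalIntegrable _ _) (hW.intervalIntegrable _ _),
    intervalIntegral.integral_add ((by fun_prop : Continuous fun x => X x +
      Y x).intervalIntegrable _ _) (hZ.intervalIntegrable _ _),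
    intervalIntegral.integral_add (hX.intervalIntegrable _ _) (hY.intervalIntegrable _ _)]

/-- The mean over the rotations of the integral of `FN` of the sum. -/
lemma integral_integral_FN (N : ℕ) {a b : ℝ → ℝ} (ha : Continuous a) (hb : Continuous b)
    (hpa : Function.Periodic a (2 * Real.pi)) (hpb : Function.Periodic b (2 * Real.pi)) :
    (Continuous fun γ : ℝ => ∫ t in (0 : ℝ)..(2 * Real.pi), FN N (fun θ => a θ + b (θ - γ)) t) ∧
    ∫ γ in (0 : ℝ)..(2 * Real.pi), ∫ t in (0 : ℝ)..(2 * Real.pi),
      FN N (fun θ => a θ + b (θ - γ)) t =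
      2 * Real.pi * (∫ t in (0 : ℝ)..(2 * Real.pi), FN N a t) +
      2 * Real.pi * (∫ t in (0 : ℝ)..(2 * Real.pi), FN N b t) +
      N * (2 - 2 * Real.cos (2 * Real.pi / N)) / Real.sin (2 * Real.pi / N) *
        ((∫ t in (0 : ℝ)..(2 * Real.pi), a t) * ∫ t in (0 : ℝ)..(2 * Real.pi), b t) := by
  set δ : ℝ := 2 * Real.pi / N with hδ
  have hcb : ∀ γ : ℝ, Continuous fun θ => b (θ - γ) := fun γ => by fun_prop
  have hpb' : ∀ γ : ℝ, Function.Periodic (fun θ => b (θ - γ)) (2 * Real.pi) := by
    intro γ θ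
    have : θ + 2 * Real.pi - γ = θ - γ + 2 * Real.pi := by ring
    simp only [this, hpb (θ - γ)]
  have hLa := LL_continuous (δ := δ) ha
  have hLb := LL_continuous (δ := δ) hb
  have hpLa := LL_periodic (δ := δ) hpa
  have hpLb := LL_periodic (δ := δ) hpb
  have hLshift : ∀ γ t : ℝ, LL δ (fun θ => b (θ - γ)) t = LL δ b (t - γ) := by
    intro γ t
    unfold LL
    have h1 : t + δ - γ = t - γ + δ := by ring
    have h2 : t - δ - γ = t - γ - δ := by ring
    simp only [h1, h2]
  have hLadd : ∀ γ t : ℝ, LL δ (fun θ => a θ + b (θ - γ)) t = LL δ a t + LL δ b (t - γ) := by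
    intro γ t
    rw [← hLshift]
    unfold LL
    ring
  have hI : ∀ γ : ℝ, ∫ t in (0 : ℝ)..(2 * Real.pi), FN N (fun θ => a θ + b (θ - γ)) t =
      N / (2 * Real.sin δ) * (GN N a + GN N b +
        (∫ t in (0 : ℝ)..(2 * Real.pi), a t * LL δ b (t - γ)) +
        ∫ t in (0 : ℝ)..(2 * Real.pi), LL δ a t * b (t - γ)) := by
    intro γ
    have hper : Function.Periodic (fun θ => a θ + b (θ - γ)) (2 * Real.pi) :=
      fun θ => by
        have h1 := hpa θ
        have h2 := hpb' γ θ
        simp only at h2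
        simp only [h1, h2]
    rw [integral_FN N (h := fun θ => a θ + b (θ - γ)) (ha.add (hcb γ)) hper, ← hδ]
    congr 1
    unfold GN
    simp only [← hδ, hLadd]
    have h1 : ∀ t : ℝ, (a t + b (t - γ)) * (LL δ a t + LL δ b (t - γ)) =
        a t * LL δ a t + b (t - γ) * LL δ b (t - γ) + a t * LL δ b (t - γ) +
          LL δ a t * b (t - γ) := by
      intro t
      ring
    simp only [h1]
    have c1 : Continuous fun t => a t * LL δ a t := by fun_prop
    have c2 : Continuous fun t => b (t - γ) * LL δ b (t - γ) := by fun_prop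
    have c3 : Continuous fun t => a t * LL δ b (t - γ) := by fun_prop
    have c4 : Continuous fun t => LL δ a t * b (t - γ) := by fun_prop
    rw [integral_four c1 c2 c3 c4]
    congr 3
    have h2 := integral_shift (f := fun t => b t * LL δ b t) (hpb.mul hpLb) (-γ)
    simpa only [← sub_eq_add_neg] using h2
  have k1 : Continuous fun γ : ℝ => ∫ t in (0 : ℝ)..(2 * Real.pi), a t * LL δ b (t - γ) := by
    refine intervalIntegral.continuous_parametric_intervalIntegral_of_continuous' ?_ _ _
    unfold Function.uncurry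
    fun_prop
  have k2 : Continuous fun γ : ℝ => ∫ t in (0 : ℝ)..(2 * Real.pi), LL δ a t * b (t - γ) := by
    refine intervalIntegral.continuous_parametric_intervalIntegral_of_continuous' ?_ _ _
    unfold Function.uncurry
    fun_prop
  simp only [hI]
  refine ⟨by fun_prop, ?_⟩
  rw [intervalIntegral.integral_const_mul, integral_three k1 k2,
    integral_conv ha hLb hpLb, integral_conv hLa hb hpb,
    integral_LL hb hpb, integral_LL ha hpa, integral_FN N ha hpa, integral_FN N hb hpb, ← hδ]
  rcases eq_or_ne (Real.sin δ) 0 with h0 | h0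
  · rw [h0]
    simp
  · field_simp
    ring

/-- The enlargement factor. -/
noncomputable def lam (r M : ℝ) (N : ℕ) : ℝ :=
  (1 + M * (2 * Real.pi / N) / r) / Real.cos (Real.pi / N)

lemma lam_tendsto {r M : ℝ} : Filter.Tendsto (lam r M) Filter.atTop (nhds 1) := by
  have h1 : Filter.Tendsto (fun N : ℕ => 2 * Real.pi / (N : ℝ)) Filter.atTop (nhds 0) :=
    tendsto_const_div_atTop_nhds_zero_nat _
  have h2 : Filter.Tendsto (fun N : ℕ => Real.pi / (N : ℝ)) Filter.atTop (nhds 0) :=
    tendsto_const_div_atTop_nhds_zero_nat _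
  have h3 : Filter.Tendsto (fun N : ℕ => 1 + M * (2 * Real.pi / (N : ℝ)) / r) Filter.atTop
      (nhds (1 + M * 0 / r)) := (((h1.const_mul M).div_const r).const_add 1)
  have h4 : Filter.Tendsto (fun N : ℕ => Real.cos (Real.pi / (N : ℝ))) Filter.atTop
      (nhds (Real.cos 0)) := (Real.continuous_cos.tendsto 0).comp h2
  have h5 := h3.div h4 (by simp)
  have h6 : (1 + M * 0 / r) / Real.cos 0 = 1 := by simp
  rw [h6] at h5
  exact h5.congr fun N => rfl

lemma lam_pos {r M : ℝ} (hr : 0 < r) (hM : 0 ≤ M) {N : ℕ} (hN : 5 ≤ N) : 1 ≤ lam r M N := by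
  have hN' : (5 : ℝ) ≤ N := by exact_mod_cast hN
  have hpi := Real.pi_pos
  have hc : 0 < Real.cos (Real.pi / N) := by
    refine Real.cos_pos_of_mem_Ioo ⟨?_, ?_⟩
    · have : 0 < Real.pi / N := by positivity
      linarith
    · rw [div_lt_div_iff₀ (by linarith) (by norm_num)]
      nlinarith
  rw [lam, le_div_iff₀ hc]
  have h1 := Real.cos_le_one (Real.pi / N)
  have h2 : 0 ≤ M * (2 * Real.pi / N) / r := by positivity
  linarith

/-- Comparison of the area and of `FN`. -/
lemma FN_bounds {E : Set ℂ} (hE : IsCompact E) (hEc : Convex ℝ E) {r M : ℝ} (hr : 0 < r)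
    (hrE : closedBall 0 r ⊆ E) (hME : E ⊆ closedBall 0 M) {N : ℕ} (hN : 5 ≤ N) (t : ℝ) :
    (volume E).toReal ≤ FN N (supportFn E) t ∧
      FN N (supportFn E) t ≤ lam r M N ^ 2 * (volume E).toReal := by
  have h0 : (0 : ℂ) ∈ interior E := by
    rw [mem_interior]
    exact ⟨ball 0 r, ball_subset_closedBall.trans hrE, isOpen_ball, mem_ball_self hr⟩
  have hne : E.Nonempty := ⟨0, interior_subset h0⟩
  have hM : 0 ≤ M := by
    have := hME (interior_subset h0)
    rw [mem_closedBall, dist_self] at this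
    exact this
  have hlam := lam_pos hr hM hN
  have hlam0 : 0 < lam r M N := by linarith
  have hvol := volume_WN hN hE h0 t
  have hsub1 : E ⊆ WN N (supportFn E) t := fun z hz j _ => ip_le_supp hE hz _
  have hsub2 : WN N (supportFn E) t ⊆ (lam r M N) • E := by
    intro z hz
    rw [Set.mem_smul_set_iff_inv_smul_mem₀ hlam0.ne', supp_mem_iff hE hEc hne]
    intro θ
    have hge : ∀ θ, r ≤ supportFn E θ := by
      intro θ
      have := supp_ge_of_ball hE hr.le hrE θ
      rw [show ip (0 : ℂ) (e θ) = 0 by simp [ip_eq], zero_add] at this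
      exact this
    have h1 := WN_bound hN hr hM (supportFn_periodic E) hge (supp_lip hE hne hME) t hz θ
    have h2 : (lam r M N)⁻¹ • z = (((lam r M N)⁻¹ : ℝ) : ℂ) * z := by
      rw [Complex.real_smul]
    rw [h2, ip_smul, inv_mul_le_iff₀ hlam0]
    exact h1
  have hfin : volume ((lam r M N) • E) ≠ ∞ := (hE.smul (lam r M N)).measure_lt_top.ne
  have hsm : (volume ((lam r M N) • E)).toReal = lam r M N ^ 2 * (volume E).toReal := by
    rw [Measure.addHaar_smul, Complex.finrank_real_complex, ENNReal.toReal_mul,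
      ENNReal.toReal_ofReal (abs_nonneg _), abs_of_nonneg (by positivity)]
  constructor
  · rw [← hvol]
    exact ENNReal.toReal_mono ((measure_mono hsub2).trans_lt (lt_top_iff_ne_top.2 hfin)).ne
      (measure_mono hsub1)
  · rw [← hvol, ← hsm]
    exact ENNReal.toReal_mono hfin (measure_mono hsub2)

lemma kappa_tendsto : Filter.Tendsto (fun N : ℕ => (N : ℝ) * (2 - 2 * Real.cos (2 * Real.pi / N)) /
    Real.sin (2 * Real.pi / N)) Filter.atTop (nhds (2 * Real.pi)) := by
  have hpi := Real.pi_pos
  -- `tan x / x → 1`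
  have h1 : Filter.Tendsto (fun x : ℝ => x⁻¹ * Real.tan x) (nhdsWithin 0 {0}ᶜ) (nhds 1) := by
    have hd := Real.hasDerivAt_tan (x := 0) (by simp)
    rw [Real.cos_zero, one_pow, div_one, hasDerivAt_iff_tendsto_slope_zero] at hd
    simpa using hd
  have h2 : Filter.Tendsto (fun N : ℕ => Real.pi / (N : ℝ)) Filter.atTop
      (nhdsWithin 0 {0}ᶜ) := by
    rw [tendsto_nhdsWithin_iff]
    refine ⟨tendsto_const_div_atTop_nhds_zero_nat _, ?_⟩
    filter_upwards [Filter.eventually_gt_atTop 0] with N hN
    have : (0 : ℝ) < N := by exact_mod_cast hN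
    simp only [mem_compl_iff, mem_singleton_iff]
    positivity
  have h3 := (h1.comp h2).const_mul (2 * Real.pi)
  rw [mul_one] at h3
  refine h3.congr' ?_
  filter_upwards [Filter.eventually_gt_atTop 2] with N hN
  have hN' : (2 : ℝ) < N := by exact_mod_cast hN
  simp only [Function.comp_apply]
  have hx0 : 0 < Real.pi / N := by positivity
  have hx1 : Real.pi / N < Real.pi / 2 := by
    rw [div_lt_div_iff₀ (by linarith) (by norm_num)]
    nlinarith
  have hs : 0 < Real.sin (Real.pi / N) := Real.sin_pos_of_pos_of_lt_pi hx0 (by linarith)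
  have hc : 0 < Real.cos (Real.pi / N) := Real.cos_pos_of_mem_Ioo ⟨by linarith, hx1⟩
  have e1 : 2 * Real.pi / (N : ℝ) = 2 * (Real.pi / N) := by ring
  rw [e1, Real.sin_two_mul, Real.cos_two_mul, Real.tan_eq_sin_div_cos]
  have h4 := Real.sin_sq_add_cos_sq (Real.pi / N)
  have h5 : (2 : ℝ) - 2 * (2 * Real.cos (Real.pi / N) ^ 2 - 1) = 4 * Real.sin (Real.pi / N) ^ 2 := by
    nlinarith
  rw [h5]
  have hN0 : (N : ℝ) ≠ 0 := by positivity
  field_simp
  ring

/-- The limit of the integral of `FN`. -/
lemma integral_FN_tendsto {E : Set ℂ} (hE : IsCompact E) (hEc : Convex ℝ E) {r M : ℝ}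
    (hr : 0 < r) (hrE : closedBall 0 r ⊆ E) (hME : E ⊆ closedBall 0 M) :
    Filter.Tendsto (fun N : ℕ => ∫ t in (0 : ℝ)..(2 * Real.pi), FN N (supportFn E) t)
      Filter.atTop (nhds (2 * Real.pi * (volume E).toReal)) := by
  have hne : E.Nonempty := ⟨0, hrE (mem_closedBall_self hr.le)⟩
  have hcont := supp_continuous hE hne
  have hpi : (0 : ℝ) ≤ 2 * Real.pi := by positivity
  have h1 : Filter.Tendsto (fun N : ℕ => 2 * Real.pi * (lam r M N ^ 2 * (volume E).toReal))
      Filter.atTop (nhds (2 * Real.pi * (1 ^ 2 * (volume E).toReal))) :=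
    (((lam_tendsto (r := r) (M := M)).pow 2).mul_const _).const_mul _
  rw [one_pow, one_mul] at h1
  refine tendsto_of_tendsto_of_tendsto_of_le_of_le' tendsto_const_nhds h1 ?_ ?_
  · filter_upwards [Filter.eventually_ge_atTop 5] with N hN
    have h2 : ∫ t in (0 : ℝ)..(2 * Real.pi), (volume E).toReal ≤
        ∫ t in (0 : ℝ)..(2 * Real.pi), FN N (supportFn E) t :=
      intervalIntegral.integral_mono_on hpi (continuous_const.intervalIntegrable _ _)
        ((FN_continuous N hcont).intervalIntegrable _ _)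
        fun t _ => (FN_bounds hE hEc hr hrE hME hN t).1
    rw [intervalIntegral.integral_const] at h2
    simpa using h2
  · filter_upwards [Filter.eventually_ge_atTop 5] with N hN
    have h2 : ∫ t in (0 : ℝ)..(2 * Real.pi), FN N (supportFn E) t ≤
        ∫ t in (0 : ℝ)..(2 * Real.pi), lam r M N ^ 2 * (volume E).toReal :=
      intervalIntegral.integral_mono_on hpi ((FN_continuous N hcont).intervalIntegrable _ _)
        (continuous_const.intervalIntegrable _ _)
        fun t _ => (FN_bounds hE hEc hr hrE hME hN t).2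
    rw [intervalIntegral.integral_const] at h2
    simpa using h2

end MeanArea

open MeanArea in
theorem mean_area {C D : Set ℂ} (hC : IsCompact C) (hCc : Convex ℝ C) (hC0 : 0 ∈ interior C)
    (hD : IsCompact D) (hDc : Convex ℝ D) (hD0 : 0 ∈ interior D) :
    ∫ γ in (0 : ℝ)..(2 * Real.pi), (volume (C + rot γ D)).toReal
      = 2 * Real.pi * ((volume C).toReal + (volume D).toReal) + perimeter C * perimeter D := by
  have hpi := Real.pi_pos
  obtain ⟨r, hr, hrC, -⟩ := supp_pos hC hC0
  obtain ⟨r', hr', hrD, -⟩ := supp_pos hD hD0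
  obtain ⟨M, hMC⟩ := hC.isBounded.subset_closedBall 0
  obtain ⟨M', hMD⟩ := hD.isBounded.subset_closedBall 0
  have hCn : C.Nonempty := ⟨0, interior_subset hC0⟩
  have hDn : D.Nonempty := ⟨0, interior_subset hD0⟩
  have hcC := supp_continuous hC hCn
  have hcD := supp_continuous hD hDn
  -- the sums
  have hrot : ∀ γ, IsCompact (rot γ D) := fun γ => hD.image (by fun_prop)
  have hrotn : ∀ γ, (rot γ D).Nonempty := fun γ => hDn.image _
  have hrotc : ∀ γ, Convex ℝ (rot γ D) := by
    rintro γ _ ⟨x, hx, rfl⟩ _ ⟨y, hy, rfl⟩ s t hs ht hst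
    refine ⟨s • x + t • y, hDc hx hy hs ht hst, ?_⟩
    simp only [Complex.real_smul]
    ring
  have hE : ∀ γ, IsCompact (C + rot γ D) := fun γ => hC.add (hrot γ)
  have hEc : ∀ γ, Convex ℝ (C + rot γ D) := fun γ => hCc.add (hrotc γ)
  have hEr : ∀ γ, closedBall 0 r ⊆ C + rot γ D := by
    intro γ z hz
    refine ⟨z, hrC hz, 0, ⟨0, interior_subset hD0, by simp⟩, by simp⟩
  have hEM : ∀ γ, C + rot γ D ⊆ closedBall 0 (M + M') := by
    rintro γ _ ⟨x, hx, _, ⟨y, hy, rfl⟩, rfl⟩
    have h1 := hMC hx
    have h2 := hMD hy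
    rw [mem_closedBall_zero_iff] at h1 h2 ⊢
    refine (norm_add_le _ _).trans (add_le_add h1 ?_)
    rw [norm_mul, norm_e, one_mul]
    exact h2
  have hsupp : ∀ γ, supportFn (C + rot γ D) = fun θ => supportFn C θ + supportFn D (θ - γ) := by
    intro γ
    funext θ
    rw [supp_add hC (hrot γ) hCn (hrotn γ), supp_rot hD hDn]
  set I : ℕ → ℝ → ℝ := fun N γ => ∫ t in (0 : ℝ)..(2 * Real.pi),
    FN N (supportFn (C + rot γ D)) t with hI
  have hmain := fun N : ℕ => integral_integral_FN N hcC hcD (supportFn_periodic C)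
    (supportFn_periodic D)
  have hIc : ∀ N, Continuous (I N) := by
    intro N
    have := (hmain N).1
    simpa only [hI, hsupp] using this
  have hIi : ∀ N : ℕ, ∫ γ in (0 : ℝ)..(2 * Real.pi), I N γ =
      2 * Real.pi * (∫ t in (0 : ℝ)..(2 * Real.pi), FN N (supportFn C) t) +
      2 * Real.pi * (∫ t in (0 : ℝ)..(2 * Real.pi), FN N (supportFn D) t) +
      N * (2 - 2 * Real.cos (2 * Real.pi / N)) / Real.sin (2 * Real.pi / N) *
        (perimeter C * perimeter D) := by
    intro N
    have := (hmain N).2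
    simp only [hI, hsupp]
    exact this
  have hlim : ∀ γ, Filter.Tendsto (fun N => I N γ) Filter.atTop
      (nhds (2 * Real.pi * (volume (C + rot γ D)).toReal)) := fun γ =>
    integral_FN_tendsto (hE γ) (hEc γ) hr (hEr γ) (hEM γ)
  -- dominated convergence
  have hdct : Filter.Tendsto (fun N => ∫ γ in (0 : ℝ)..(2 * Real.pi), I N γ) Filter.atTop
      (nhds (∫ γ in (0 : ℝ)..(2 * Real.pi), 2 * Real.pi * (volume (C + rot γ D)).toReal)) := by
    have hlam2 : ∀ᶠ N : ℕ in Filter.atTop, lam r (M + M') N ≤ 2 :=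
      (lam_tendsto.eventually (ge_mem_nhds (by norm_num : (1 : ℝ) < 2)))
    refine intervalIntegral.tendsto_integral_filter_of_dominated_convergence
      (fun _ => 2 * Real.pi * (4 * (volume (closedBall (0 : ℂ) (M + M'))).toReal)) ?_ ?_ ?_ ?_
    · exact Filter.Eventually.of_forall fun N => (hIc N).aestronglyMeasurable
    · filter_upwards [Filter.eventually_ge_atTop 5, hlam2] with N hN hl
      refine Filter.Eventually.of_forall fun γ _ => ?_
      have hb := fun t => FN_bounds (hE γ) (hEc γ) hr (hEr γ) (hEM γ) hN t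
      have hcont := supp_continuous (hE γ) ⟨0, hEr γ (mem_closedBall_self hr.le)⟩
      have h0 : 0 ≤ I N γ := by
        refine intervalIntegral.integral_nonneg (by positivity) fun t _ => ?_
        exact ENNReal.toReal_nonneg.trans (hb t).1
      rw [Real.norm_eq_abs, abs_of_nonneg h0]
      have h1 : I N γ ≤ ∫ t in (0 : ℝ)..(2 * Real.pi),
          4 * (volume (closedBall (0 : ℂ) (M + M'))).toReal := by
        refine intervalIntegral.integral_mono_on (by positivity)
          ((FN_continuous N hcont).intervalIntegrable _ _)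
          (continuous_const.intervalIntegrable _ _) fun t _ => ?_
        refine (hb t).2.trans ?_
        have hl0 : 0 ≤ lam r (M + M') N := by
          have hM0 : 0 ≤ M + M' := by
            have := hEM γ (hEr γ (mem_closedBall_self hr.le))
            rw [mem_closedBall, dist_self] at this
            exact this
          linarith [lam_pos hr hM0 hN]
        have h2 : lam r (M + M') N ^ 2 ≤ 4 := by nlinarith
        have h3 : (volume (C + rot γ D)).toReal ≤
            (volume (closedBall (0 : ℂ) (M + M'))).toReal :=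
          ENNReal.toReal_mono (isCompact_closedBall _ _).measure_lt_top.ne
            (measure_mono (hEM γ))
        exact mul_le_mul h2 h3 ENNReal.toReal_nonneg (by norm_num)
      rw [intervalIntegral.integral_const] at h1
      simpa using h1
    · exact (continuous_const.intervalIntegrable _ _)
    · exact Filter.Eventually.of_forall fun γ _ => hlim γ
  -- the explicit limit
  have hA : Filter.Tendsto (fun N => ∫ γ in (0 : ℝ)..(2 * Real.pi), I N γ) Filter.atTop
      (nhds (2 * Real.pi * (2 * Real.pi * (volume C).toReal) +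
        2 * Real.pi * (2 * Real.pi * (volume D).toReal) +
        2 * Real.pi * (perimeter C * perimeter D))) := by
    simp only [hIi]
    refine Filter.Tendsto.add (Filter.Tendsto.add ?_ ?_) ?_
    · exact (integral_FN_tendsto hC hCc hr hrC hMC).const_mul _
    · exact (integral_FN_tendsto hD hDc hr' hrD hMD).const_mul _
    · exact kappa_tendsto.mul_const _
  have heq := tendsto_nhds_unique hdct hA
  rw [intervalIntegral.integral_const_mul] at heq
  have h2pi : (2 * Real.pi) ≠ 0 := by positivity
  have h3 : 2 * Real.pi * (∫ γ in (0 : ℝ)..(2 * Real.pi), (volume (C + rot γ D)).toReal) =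
      2 * Real.pi * (2 * Real.pi * ((volume C).toReal + (volume D).toReal) +
        perimeter C * perimeter D) := by
    rw [heq]
    ring
  exact mul_left_cancel₀ h2pi h3

end Pool.Agent.Helper79.MI
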