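import Pool.Agent.Helper79.MI.Bodies
import Pool.Agent.Helper57.CW.Low1
import Pool.Agent.Helper57.CW.Low2
import Pool.Agent.Helper57.CW.Centres
import Pool.Agent.Helper57.CW.Ring

/-!
# E8: `(P_k)`, `k = 5, 6, 8, 9`, for bodies close to disks

Lower bound for `R` as in `Pool.Agent.Helper57.CW.Final` (`centres`, `low_small`, `low_eight`, `low_nine`), scaling by
`2π`, E7, translation and monotonicity of the container.
-/

namespace Pool.Agent.Helper79.MI

open Pool.Agent.Helper16.Disk7 Pool.Agent.Helper57.CW MeasureTheory Metric Complex Set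
open scoped ENNReal Pointwise

theorem near_disk {k : ℕ} (hk : k = 5 ∨ k = 6 ∨ k = 8 ∨ k = 9) (c : ℂ) (R : ℝ)
    (h : Accommodates (closedBall c R)
      (fun _ : Fin k => closedBall (0 : ℂ) (1 / (2 * Real.pi))))
    (K : Fin k → Set ℂ) (hK : ∀ i, IsUnitConvexSet (K i) ∧
      ∃ c, closedBall c (0.9 / (2 * Real.pi)) ⊆ K i ∧ K i ⊆ closedBall c (1.1 / (2 * Real.pi))) :
    Accommodates (closedBall c R) K := sorry

end Pool.Agent.Helper79.MI
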