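import Pool.Agent.Helper79.MI.Defs

/-!
# E3, E4: placed polygons; no containment of the sets of the centres

E3: direct check; `z ↦ e (-v) (z - O)`, `O = x - R e v`, is an isometry, `hull V ⊆ closedBall O R`.
E4: `closedBall 0 (R - b) ⊆ ctr V R ⊆ closedBall 0 (R - a)` (the second: `closedBall 0 a ⊆ hull V ⊆ closedBall O R` gives
`‖O‖ + a ≤ R`), similarly for `mov γ τ W` with centre `τ`. Inclusion gives `‖τ‖ ≤ b - a < 2a`, while
`closedBall 0 a` and `closedBall τ a` are disjoint, so `‖τ‖ > 2a`.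
-/

namespace Pool.Agent.Helper79.MI

open Pool.Agent.Helper16.Disk7 Pool.Agent.Helper57.CW MeasureTheory Metric Complex Set
open scoped ENNReal Pointwise

private lemma e_zero' : e 0 = 1 := by simp [e]

private lemma e_mul_neg (v : ℝ) : e v * e (-v) = 1 := by
  rw [e_mul, add_neg_cancel, e_zero']

private lemma e_neg_mul (v : ℝ) : e (-v) * e v = 1 := by
  rw [e_mul, neg_add_cancel, e_zero']

/-- a closed disk which contains the vertices contains the polygon -/
private lemma hull_sub {V : Finset ℂ} {O : ℂ} {R : ℝ} (h : ∀ y ∈ V, ‖y - O‖ ≤ R) :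
    ∀ y ∈ hull V, ‖y - O‖ ≤ R := by
  have h1 : convexHull ℝ (V : Set ℂ) ⊆ closedBall O R := by
    refine convexHull_min (fun x hx => ?_) (convex_closedBall O R)
    rw [mem_closedBall, dist_eq_norm]
    exact h x hx
  intro y hy
  have h2 := h1 hy
  rwa [mem_closedBall, dist_eq_norm] at h2

theorem placed_pl {V : Finset ℂ} {R a b : ℝ} (hR : 0 < R) (ha : closedBall 0 a ⊆ hull V)
    (hb : hull V ⊆ closedBall 0 b) {x : ℂ} (hx : x ∈ V) {v : ℝ} (hv : v ∈ st V R x) :
    Placed R a b (pl V R x v) (e (-v) * (0 - (x - R * e v))) := by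
  obtain ⟨O, hO⟩ : ∃ O : ℂ, O = x - R * e v := ⟨_, rfl⟩
  have hpl : pl V R x v = (fun z => e (-v) * (z - O)) '' hull V := by rw [pl, ← hO]
  have hcpt : IsCompact (hull V) := V.finite_toSet.isCompact_convexHull ℝ
  have hconv : Convex ℝ (hull V) := convex_convexHull ℝ _
  have hball := hull_sub (V := V) (O := O) (R := R) (by rw [hO]; exact hv)
  rw [hpl, ← hO]
  constructor
  · exact hcpt.image (by fun_prop)
  · rintro _ ⟨z, hz, rfl⟩ _ ⟨z', hz', rfl⟩ s t hs ht hst
    refine ⟨s • z + t • z', hconv hz hz' hs ht hst, ?_⟩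
    simp only [Complex.real_smul]
    have h1 : (s : ℂ) + t = 1 := by exact_mod_cast hst
    have h2 : (t : ℂ) = 1 - s := by rw [← h1]; ring
    rw [h2]
    ring
  · rintro _ ⟨z, hz, rfl⟩
    simp only [mem_closedBall, dist_zero_right, norm_mul, norm_e, one_mul]
    exact hball z hz
  · refine ⟨x, subset_convexHull ℝ _ hx, ?_⟩
    simp only [hO]
    calc e (-v) * (x - (x - R * e v)) = R * (e (-v) * e v) := by ring
      _ = R := by rw [e_neg_mul, mul_one]
  · intro w hw
    rw [mem_closedBall, dist_eq_norm] at hw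
    refine ⟨e v * w + O, ha ?_, ?_⟩
    · rw [mem_closedBall, dist_zero_right]
      have h1 : e v * w + O = e v * (w - e (-v) * (0 - O)) := by
        calc e v * w + O = e v * w + 1 * O := by ring
          _ = e v * w + (e v * e (-v)) * O := by rw [e_mul_neg]
          _ = _ := by ring
      rw [h1, norm_mul, norm_e, one_mul]
      exact hw
    · calc e (-v) * (e v * w + O - O) = (e (-v) * e v) * w := by ring
        _ = w := by rw [e_neg_mul, one_mul]
  · rintro _ ⟨z, hz, rfl⟩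
    rw [mem_closedBall, dist_eq_norm]
    have h1 : e (-v) * (z - O) - e (-v) * (0 - O) = e (-v) * z := by ring
    rw [h1, norm_mul, norm_e, one_mul]
    have h2 := hb hz
    rwa [mem_closedBall, dist_zero_right] at h2

theorem no_containment {V W : Finset ℂ} {R a b : ℝ} (h0 : 0 < a) (hab : b < 3 * a)
    (hbR : b ≤ R) (hV : V.Nonempty) (hW : W.Nonempty)
    (hVa : closedBall 0 a ⊆ hull V) (hVb : hull V ⊆ closedBall 0 b)
    (hWa : closedBall 0 a ⊆ hull W) (hWb : hull W ⊆ closedBall 0 b) (γ : ℝ) (τ : ℂ)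
    (h : Disjoint (hull V) (mov γ τ (hull W))) :
      ¬ (ctr V R ⊆ ctr (mov γ τ W) R) ∧ ¬ (ctr (mov γ τ W) R ⊆ ctr V R) := by
  -- the ball about `τ` is in the moved polygon
  have hball : ∀ z : ℂ, ‖z - τ‖ ≤ a → z ∈ mov γ τ (hull W) := by
    intro z hz
    refine ⟨e (-γ) * (z - τ), hWa ?_, ?_⟩
    · rw [mem_closedBall, dist_zero_right, norm_mul, norm_e, one_mul]
      exact hz
    · calc e γ * (e (-γ) * (z - τ)) + τ = (e γ * e (-γ)) * (z - τ) + τ := by ring
        _ = z := by rw [e_mul_neg]; ring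
  have hVb' : ∀ z ∈ V, ‖z‖ ≤ b := fun z hz => by
    have h2 := hVb (subset_convexHull ℝ _ hz)
    rwa [mem_closedBall, dist_zero_right] at h2
  have hWb' : ∀ z ∈ W, ‖z‖ ≤ b := fun z hz => by
    have h2 := hWb (subset_convexHull ℝ _ hz)
    rwa [mem_closedBall, dist_zero_right] at h2
  have hτ : 2 * a < ‖τ‖ := by
    by_contra hcon
    push Not at hcon
    have h2 : ‖τ / 2‖ ≤ a := by
      rw [norm_div]
      norm_num
      linarith
    have h1 : τ / 2 ∈ hull V := hVa (by rw [mem_closedBall, dist_zero_right]; exact h2)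
    have h3 : τ / 2 ∈ mov γ τ (hull W) := by
      apply hball
      have e1 : τ / 2 - τ = -(τ / 2) := by ring
      rw [e1, norm_neg]
      exact h2
    exact Set.disjoint_left.1 h h1 h3
  have hτ0 : 0 < ‖τ‖ := by linarith
  obtain ⟨u, hu⟩ : ∃ u : ℂ, u = τ / (‖τ‖ : ℂ) := ⟨_, rfl⟩
  have hu1 : ‖u‖ = 1 := by
    rw [hu, norm_div, Complex.norm_real, norm_norm, div_self hτ0.ne']
  have hτu : τ = (‖τ‖ : ℂ) * u := by
    rw [hu, mul_div_cancel₀]
    exact_mod_cast hτ0.ne'
  have hnorm : ∀ r : ℝ, 0 ≤ r → ‖(r : ℂ) * u‖ = r := fun r hr => by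
    rw [norm_mul, hu1, mul_one, Complex.norm_real, Real.norm_of_nonneg hr]
  have hRb : 0 ≤ R - b := by linarith
  constructor
  · intro hsub
    have hO : -(((R - b : ℝ) : ℂ) * u) ∈ ctr V R := by
      intro x hx
      have h1 := norm_sub_le x (-(((R - b : ℝ) : ℂ) * u))
      rw [norm_neg, hnorm _ hRb] at h1
      linarith [hVb' x hx]
    have hO2 := hsub hO
    obtain ⟨O, hOdef⟩ : ∃ O : ℂ, O = -(((R - b : ℝ) : ℂ) * u) := ⟨_, rfl⟩
    rw [← hOdef] at hO2
    have hO3 : ∀ w ∈ hull W, ‖w - e (-γ) * (O - τ)‖ ≤ R := by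
      apply hull_sub
      intro w hw
      have h1 := hO2 (e γ * w + τ) ⟨w, hw, rfl⟩
      have e1 : e γ * w + τ - O = e γ * (w - e (-γ) * (O - τ)) := by
        calc e γ * w + τ - O = e γ * w - 1 * (O - τ) := by ring
          _ = e γ * w - (e γ * e (-γ)) * (O - τ) := by rw [e_mul_neg]
          _ = _ := by ring
      rw [e1, norm_mul, norm_e, one_mul] at h1
      exact h1
    obtain ⟨w, hw, hwz⟩ := hball (((‖τ‖ + a : ℝ) : ℂ) * u) (by
      have e1 : ((‖τ‖ + a : ℝ) : ℂ) * u - τ = (a : ℂ) * u := by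
        nth_rw 2 [hτu]
        push_cast
        ring
      rw [e1, hnorm a h0.le])
    have h2 := hO3 w hw
    have e2 : w - e (-γ) * (O - τ) = e (-γ) * (e γ * w + τ - O) := by
      calc w - e (-γ) * (O - τ) = 1 * w - e (-γ) * (O - τ) := by ring
        _ = (e (-γ) * e γ) * w - e (-γ) * (O - τ) := by rw [e_neg_mul]
        _ = _ := by ring
    simp only at hwz
    have e3 : ((‖τ‖ + a : ℝ) : ℂ) * u - O = ((‖τ‖ + a + (R - b) : ℝ) : ℂ) * u := by
      rw [hOdef]
      push_cast
      ring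
    rw [e2, hwz, norm_mul, norm_e, one_mul, e3, hnorm _ (by linarith)] at h2
    linarith
  · intro hsub
    have hO : ((‖τ‖ + (R - b) : ℝ) : ℂ) * u ∈ ctr (mov γ τ W) R := by
      rintro _ ⟨w, hw, rfl⟩
      have e1 : e γ * w + τ - ((‖τ‖ + (R - b) : ℝ) : ℂ) * u = e γ * w - ((R - b : ℝ) : ℂ) * u := by
        nth_rw 1 [hτu]
        push_cast
        ring
      simp only
      rw [e1]
      have h1 := norm_sub_le (e γ * w) (((R - b : ℝ) : ℂ) * u)
      rw [hnorm _ hRb, norm_mul, norm_e, one_mul] at h1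
      linarith [hWb' w hw]
    have hO2 := hsub hO
    have hO3 := hull_sub (V := V) hO2
    have h1 := hO3 (-((a : ℂ) * u)) (hVa (by
      rw [mem_closedBall, dist_zero_right, norm_neg, hnorm a h0.le]))
    have e3 : -((a : ℂ) * u) - ((‖τ‖ + (R - b) : ℝ) : ℂ) * u =
        -(((a + (‖τ‖ + (R - b)) : ℝ) : ℂ) * u) := by
      push_cast
      ring
    rw [e3, norm_neg, hnorm _ (by linarith)] at h1
    linarith

end Pool.Agent.Helper79.MI
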