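import Pool.Agent.Helper79.MI.Defs

/-!
# D3: upper bound for the contact angle

`a = .89`, `b = 1.1`; `R - b ≤ ‖c‖ ≤ R - a`, `‖c - R‖ ≤ b`, so
`cos (arg c) ≥ (R² + ‖c‖² - b²)/(2 R ‖c‖) ≥ (R² + (R-a)² - b²)/(2R(R-a)) ≥ .9572` (decreasing in `‖c‖` on the
range, increasing in `R`; check), `|arg c| ≤ .2938`, same for `c'`. For `w = 2.11 - ε`... precisely for every
`w ∈ (2.105, π)` the angle from `c` to `e w c'` is in `[2.105 - .5876, π + .5876] = [1.5174, 3.73]`, so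
`‖c - e w c'‖ ≥ 2 (R - b) sin (1.5174/2) ≥ 3.2 * .688 = 2.2016 > 2.2` and the bodies, contained in
`closedBall c 1.1` and `closedBall (e w c') 1.1`, are disjoint. Hence `psi ≤ 2.11`.
-/

namespace Pool.Agent.Helper79.MI

open Pool.Agent.Helper16.Disk7 Pool.Agent.Helper57.CW MeasureTheory Metric Complex Set
open scoped ENNReal Pointwise

/-- Modulus and argument of the centre of a placed body. -/
private theorem placed_polar67 {R : ℝ} (hR : 2.7 ≤ R) (hR4 : R ≤ 4) {K : Set ℂ} {c : ℂ}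
    (hK : Placed R 0.89 1.1 K c) :
    1.6 ≤ ‖c‖ ∧ ∃ α : ℝ, |α| ≤ 0.294 ∧ c = (‖c‖ : ℂ) * e α := by
  have h1 : ‖c - R‖ ≤ 1.1 := by
    have h := hK.outer hK.touch
    rw [mem_closedBall, dist_eq_norm] at h
    rwa [norm_sub_rev]
  have h2 : 1.6 ≤ ‖c‖ := by
    have h3 : ‖(R : ℂ)‖ ≤ ‖c‖ + ‖c - R‖ := by
      have h4 : (R : ℂ) = c - (c - R) := by ring
      calc ‖(R : ℂ)‖ = ‖c - (c - R)‖ := by rw [← h4]
        _ ≤ _ := norm_sub_le _ _
    rw [Complex.norm_real, Real.norm_eq_abs, abs_of_nonneg (by linarith)] at h3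
    linarith
  have hpol : c = (‖c‖ : ℂ) * e (arg c) := (Complex.norm_mul_exp_arg_mul_I c).symm
  refine ⟨h2, arg c, ?_, hpol⟩
  obtain ⟨ρ, hρ⟩ : ∃ ρ : ℝ, ρ = ‖c‖ := ⟨_, rfl⟩
  have hα2 : |arg c| ≤ Real.pi := Complex.abs_arg_le_pi c
  obtain ⟨α, hα⟩ : ∃ α : ℝ, α = arg c := ⟨_, rfl⟩
  rw [← hρ, ← hα] at hpol
  rw [← hρ] at h2
  rw [← hα] at hα2 ⊢
  have hρ0 : 0 < ρ := by linarith
  have h3 : ρ + 0.89 ≤ R := by
    have h4 : c + ((0.89 : ℝ) : ℂ) * e α ∈ closedBall c 0.89 := by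
      rw [mem_closedBall, dist_eq_norm, add_sub_cancel_left, norm_mul, norm_e, mul_one,
        Complex.norm_real, Real.norm_eq_abs, abs_of_nonneg (by norm_num)]
    have h5 := hK.sub (hK.inner h4)
    rw [mem_closedBall, dist_zero_right] at h5
    have h6 : c + ((0.89 : ℝ) : ℂ) * e α = ((ρ + 0.89 : ℝ) : ℂ) * e α := by
      rw [hpol, ofReal_add]
      ring
    rw [h6, norm_mul, norm_e, mul_one, Complex.norm_real, Real.norm_eq_abs,
      abs_of_nonneg (by linarith)] at h5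
    exact h5
  have h4 : ρ ^ 2 - 2 * R * (ρ * Real.cos α) + R ^ 2 ≤ 1.1 ^ 2 := by
    have h5 : ‖c - R‖ ^ 2 ≤ 1.1 ^ 2 := by
      exact pow_le_pow_left₀ (norm_nonneg _) h1 2
    have h6 : ‖c - R‖ ^ 2 = ρ ^ 2 - 2 * R * (ρ * Real.cos α) + R ^ 2 := by
      rw [Complex.sq_norm, Complex.normSq_apply]
      have e1 : (c - R).re = ρ * Real.cos α - R := by
        rw [hpol]
        simp [e_re]
      have e2 : (c - R).im = ρ * Real.sin α := by
        rw [hpol]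
        simp [e_im]
      rw [e1, e2]
      have e3 := Real.sin_sq_add_cos_sq α
      linear_combination ρ ^ 2 * e3
    rw [← h6]
    exact h5
  have h5 : 0.9572 ≤ Real.cos α := by
    by_contra hcon
    push Not at hcon
    have h6 : ρ * Real.cos α ≤ ρ * 0.9572 := mul_le_mul_of_nonneg_left hcon.le hρ0.le
    have h7 : 2 * R * (ρ * Real.cos α) ≤ 2 * R * (ρ * 0.9572) :=
      mul_le_mul_of_nonneg_left h6 (by linarith)
    have h8 : ρ ^ 2 - 2 * R * (ρ * 0.9572) + R ^ 2 ≤ 1.1 ^ 2 := by linarith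
    obtain ⟨s, hs⟩ : ∃ s, s = R - ρ := ⟨_, rfl⟩
    have hρs : ρ = R - s := by rw [hs]; ring
    have hs1 : 0.89 ≤ s := by linarith
    have h9 : s ^ 2 + 0.0856 * (R * (R - s)) ≤ 1.21 := by
      rw [hρs] at h8
      nlinarith
    have h10 : 0 ≤ (s - 0.89) * (1.78 - 0.0856 * R) := mul_nonneg (by linarith) (by linarith)
    have h11 : 0 ≤ (R - 2.7) * (0.0856 * (R + 2.7) - 0.076184) := mul_nonneg (by linarith) (by linarith)
    have h12 : 0 ≤ (s - 0.89) ^ 2 := sq_nonneg _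
    nlinarith
  by_contra hcon
  push Not at hcon
  have h6 : Real.cos |α| ≤ Real.cos 0.294 :=
    Real.cos_le_cos_of_nonneg_of_le_pi (by norm_num) hα2 hcon.le
  rw [Real.cos_abs] at h6
  have h7 : Real.cos 0.294 ≤ 0.95718 := by
    have h8 := Real.cos_bound (x := 0.294) (by rw [abs_of_nonneg (by norm_num)]; norm_num)
    rw [abs_of_nonneg (by norm_num : (0 : ℝ) ≤ 0.294)] at h8
    have h9 := (abs_le.1 h8).2
    norm_num at h9 ⊢
    linarith
  linarith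

theorem psi_le {R : ℝ} (hR : 2.7 ≤ R) (hR4 : R ≤ 4) {K L : Set ℂ} {c c' : ℂ}
    (hK : Placed R 0.89 1.1 K c) (hL : Placed R 0.89 1.1 L c') : psi K L ≤ 2.11 := by
  obtain ⟨h1, α, hα, hc⟩ := placed_polar67 hR hR4 hK
  obtain ⟨h1', α', hα', hc'⟩ := placed_polar67 hR hR4 hL
  obtain ⟨ρ, hρ⟩ : ∃ ρ : ℝ, ρ = ‖c‖ := ⟨_, rfl⟩
  obtain ⟨ρ', hρ'⟩ : ∃ ρ' : ℝ, ρ' = ‖c'‖ := ⟨_, rfl⟩
  rw [← hρ] at h1 hc
  rw [← hρ'] at h1' hc'
  rw [abs_le] at hα hα'
  have hpi := Real.pi_lt_d4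
  have hpi' := Real.pi_gt_three
  unfold psi
  refine csInf_le ⟨0, ?_⟩ (Or.inl ⟨by norm_num, by linarith [Real.pi_gt_d2], ?_⟩)
  · rintro w (hw | hw)
    · exact hw.1.le
    · rw [Set.mem_singleton_iff] at hw
      rw [hw]
      exact Real.pi_pos.le
  · rw [Set.disjoint_left]
    rintro z hz ⟨y, hy, rfl⟩
    have h2 : ‖e 2.11 * y - c‖ ≤ 1.1 := by
      have h := hK.outer hz
      rwa [mem_closedBall, dist_eq_norm] at h
    have h3 : ‖y - c'‖ ≤ 1.1 := by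
      have h := hL.outer hy
      rwa [mem_closedBall, dist_eq_norm] at h
    have h4 : ‖e 2.11 * y - e 2.11 * c'‖ ≤ 1.1 := by
      rw [← mul_sub, norm_mul, norm_e, one_mul]
      exact h3
    have h5 : ‖c - e 2.11 * c'‖ ≤ 2.2 := by
      have h6 : c - e 2.11 * c' = (e 2.11 * y - e 2.11 * c') - (e 2.11 * y - c) := by ring
      rw [h6]
      refine (norm_sub_le _ _).trans ?_
      linarith
    have h6 : ‖c - e 2.11 * c'‖ ^ 2 ≤ 2.2 ^ 2 := pow_le_pow_left₀ (norm_nonneg _) h5 2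
    have h7 : ‖c - e 2.11 * c'‖ ^ 2 = ρ ^ 2 + ρ' ^ 2 - 2 * (ρ * ρ') * Real.cos (2.11 + α' - α) := by
      have h8 : e 2.11 * c' = (ρ' : ℂ) * e (2.11 + α') := by
        rw [hc', ← e_mul]
        ring
      rw [h8, hc, Complex.sq_norm, Complex.normSq_apply]
      have e1 : ((ρ : ℂ) * e α - (ρ' : ℂ) * e (2.11 + α')).re =
          ρ * Real.cos α - ρ' * Real.cos (2.11 + α') := by
        simp [e_re]
      have e2 : ((ρ : ℂ) * e α - (ρ' : ℂ) * e (2.11 + α')).im =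
          ρ * Real.sin α - ρ' * Real.sin (2.11 + α') := by
        simp [e_im]
      rw [e1, e2, Real.cos_sub]
      have e3 := Real.sin_sq_add_cos_sq α
      have e4 := Real.sin_sq_add_cos_sq (2.11 + α')
      linear_combination ρ ^ 2 * e3 + ρ' ^ 2 * e4
    have h8 : Real.cos (2.11 + α' - α) ≤ 0.0488 := by
      have h9 : Real.cos (2.11 + α' - α) ≤ Real.cos 1.522 :=
        Real.cos_le_cos_of_nonneg_of_le_pi (by norm_num) (by linarith) (by linarith)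
      have h10 : Real.cos 1.522 = Real.sin (Real.pi / 2 - 1.522) := (Real.sin_pi_div_two_sub _).symm
      have h11 : Real.sin (Real.pi / 2 - 1.522) ≤ Real.pi / 2 - 1.522 :=
        Real.sin_le (by linarith [Real.pi_gt_d2])
      linarith
    have h9 : 1.6 * 1.6 ≤ ρ * ρ' := mul_le_mul h1 h1' (by norm_num) (by linarith)
    have h10 : 2 * (ρ * ρ') * Real.cos (2.11 + α' - α) ≤ 2 * (ρ * ρ') * 0.0488 :=
      mul_le_mul_of_nonneg_left h8 (by linarith)
    have h11 : 0 ≤ (ρ - ρ') ^ 2 := sq_nonneg _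
    nlinarith

end Pool.Agent.Helper79.MI
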