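import Pool.Agent.Helper79.MI.RingPoly

/-!
# E6: rings, and rings with a central body

Motions `z ↦ e (α i) e (-v i) (z - (x i - R e (v i)))` for the ring, the identity for the central body (`k = n + 1`,
`Fin.cases` or `Fin.lastCases`). The central body is in `closedBall 0 1.1`, and a ring body is in `closedBall c 1.1`
with `‖c‖ ≥ R - 1.1 ≥ 2.2` (`1/sin(π/7) ≥ 2.3`), so the interiors are disjoint (interiors are contained in the open balls).
-/

namespace Pool.Agent.Helper79.MI

open Pool.Agent.Helper16.Disk7 Pool.Agent.Helper57.CW MeasureTheory Metric Complex Set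
open scoped ENNReal Pointwise

private lemma sin_le45 {n : ℕ} (hn : 7 ≤ n) : Real.sin (Real.pi / n) ≤ 1 / 2.3 := by
  have hn' : (7 : ℝ) ≤ n := by exact_mod_cast hn
  have hπ := Real.pi_pos
  have h1 : Real.pi / n ≤ 0.4488 := by
    rw [div_le_iff₀ (by linarith)]
    have := Real.pi_lt_d4
    nlinarith
  have h0 : 0 < Real.pi / n := by positivity
  have h2 : Real.sin (Real.pi / n) ≤ Real.sin 0.4488 :=
    Real.sin_le_sin_of_le_of_le_pi_div_two (by linarith) (by linarith [Real.pi_gt_three]) h1
  have h3 := Real.sin_bound (x := 0.4488) (by rw [abs_of_pos] <;> norm_num)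
  rw [abs_le] at h3
  have h4 := h3.2
  rw [abs_of_pos (by norm_num : (0 : ℝ) < 0.4488)] at h4
  norm_num at h4 ⊢
  norm_num at h2
  linarith

private lemma motion_image45 (V : Finset ℂ) (R : ℝ) (x : ℂ) (v α : ℝ) :
    (fun z => e α * (e (-v) * (z - (x - R * e v)))) '' hull V = rot α (pl V R x v) := by
  rw [rot, pl, Set.image_image]

private lemma motion_rigid45 (R : ℝ) (x : ℂ) (v α : ℝ) :
    IsRigidMotion (fun z => e α * (e (-v) * (z - (x - R * e v)))) :=
  ⟨e α * e (-v), -(e α * e (-v) * (x - R * e v)), by rw [norm_mul, norm_e, norm_e, mul_one],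
    fun z => by ring⟩

private lemma rot_sub45 {α R : ℝ} {K : Set ℂ} (h : K ⊆ closedBall 0 R) :
    rot α K ⊆ closedBall 0 R := by
  rintro _ ⟨z, hz, rfl⟩
  have h1 := h hz
  rw [mem_closedBall_zero_iff] at h1 ⊢
  rw [norm_mul, norm_e, one_mul]
  exact h1

private lemma centre_disjoint45 {α R : ℝ} {K L : Set ℂ} {c : ℂ} (hR : 3.3 ≤ R)
    (hK : Placed R 0.89 1.1 K c) (hL : L ⊆ closedBall 0 1.1) :
    Disjoint (interior (rot α K)) (interior L) := by
  have h1 : ‖c‖ ≥ R - 1.1 := by
    have h2 := hK.outer hK.touch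
    rw [mem_closedBall, dist_eq_norm] at h2
    have h3 : ‖(R : ℂ)‖ = R := by
      rw [Complex.norm_real, Real.norm_eq_abs, abs_of_nonneg (by linarith)]
    have h4 := norm_sub_norm_le (R : ℂ) c
    rw [h3] at h4
    linarith
  have h2 : rot α K ⊆ closedBall (e α * c) 1.1 := by
    rintro _ ⟨z, hz, rfl⟩
    have h3 := hK.outer hz
    rw [mem_closedBall, dist_eq_norm] at h3 ⊢
    rw [← mul_sub, norm_mul, norm_e, one_mul]
    exact h3
  have h3 : interior (rot α K) ⊆ ball (e α * c) 1.1 := by
    rw [← interior_closedBall (e α * c) (by norm_num : (1.1 : ℝ) ≠ 0)]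
    exact interior_mono h2
  have h4 : interior L ⊆ ball 0 1.1 := by
    rw [← interior_closedBall (0 : ℂ) (by norm_num : (1.1 : ℝ) ≠ 0)]
    exact interior_mono hL
  refine (ball_disjoint_ball ?_).mono h3 h4
  rw [dist_zero_right, norm_mul, norm_e, one_mul]
  linarith

theorem accommodates_polygons {n k : ℕ} (hnk : (k = n ∧ (n = 5 ∨ n = 6)) ∨
      (k = n + 1 ∧ (n = 7 ∨ n = 8))) (V : Fin k → Finset ℂ)
    (ha : ∀ i, closedBall 0 0.89 ⊆ hull (V i)) (hb : ∀ i, hull (V i) ⊆ closedBall 0 1.1)
    (hp : ∀ i, perimeter (hull (V i)) ≤ 2 * Real.pi) :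
    Accommodates (closedBall 0 (1 + 1 / Real.sin (Real.pi / n))) (fun i => hull (V i)) := by
  rcases hnk with ⟨rfl, hn⟩ | ⟨rfl, hn⟩
  · have h5 : 5 ≤ k := by omega
    have h8 : k ≤ 8 := by omega
    have hd0 := (d_facts h5).1
    obtain ⟨x, v, α, hxv, hdis⟩ := ring_polygons h5 h8 V ha hb hp
    refine ⟨fun i z => e (α i) * (e (-(v i)) * (z - (x i -
      (1 + 1 / Real.sin (Real.pi / k) : ℝ) * e (v i)))), fun i => motion_rigid45 _ _ _ _,
      fun i => ?_, fun i j hij => ?_⟩
    · rw [motion_image45]
      exact rot_sub45 (placed_pl (by linarith) (ha i) (hb i) (hxv i).1 (hxv i).2).sub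
    · rw [motion_image45, motion_image45]
      exact hdis i j hij
  · have h5 : 5 ≤ n := by omega
    have h8 : n ≤ 8 := by omega
    have hd0 := (d_facts h5).1
    have hR : (3.3 : ℝ) ≤ 1 + 1 / Real.sin (Real.pi / n) := by
      have h1 := sin_le45 (n := n) (by omega)
      have h2 : 0 < Real.sin (Real.pi / n) := by
        by_contra hcon
        have h3 : 1 / Real.sin (Real.pi / n) ≤ 0 := by
          rw [one_div_nonpos]
          linarith
        linarith
      have h3 : 2.3 ≤ 1 / Real.sin (Real.pi / n) := by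
        rw [le_div_iff₀ h2]
        rw [le_div_iff₀ (by norm_num)] at h1
        linarith
      linarith
    obtain ⟨x, v, α, hxv, hdis⟩ := ring_polygons h5 h8 (fun i => V (Fin.castSucc i))
      (fun i => ha _) (fun i => hb _) (fun i => hp _)
    have hpl := fun i : Fin n => placed_pl (V := V (Fin.castSucc i))
      (R := 1 + 1 / Real.sin (Real.pi / n)) (a := 0.89) (b := 1.1) (x := x i) (v := v i)
      (by linarith) (ha _) (hb _) (hxv i).1 (hxv i).2
    obtain ⟨g, hg1, hg2⟩ : ∃ g : Fin (n + 1) → ℂ → ℂ, g (Fin.last n) = (fun z => z) ∧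
        ∀ i : Fin n, g (Fin.castSucc i) = fun z => e (α i) * (e (-(v i)) * (z - (x i -
          (1 + 1 / Real.sin (Real.pi / n) : ℝ) * e (v i)))) :=
      ⟨Fin.lastCases (motive := fun _ => ℂ → ℂ) (fun z => z)
        (fun i z => e (α i) * (e (-(v i)) * (z - (x i -
          (1 + 1 / Real.sin (Real.pi / n) : ℝ) * e (v i))))), Fin.lastCases_last,
        fun i => Fin.lastCases_castSucc i⟩
    have him1 : ∀ i : Fin n, g (Fin.castSucc i) '' hull (V (Fin.castSucc i)) =
        rot (α i) (pl (V (Fin.castSucc i)) (1 + 1 / Real.sin (Real.pi / n)) (x i) (v i)) := by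
      intro i
      rw [hg2, motion_image45]
    have him2 : g (Fin.last n) '' hull (V (Fin.last n)) = hull (V (Fin.last n)) := by
      rw [hg1, Set.image_id']
    refine ⟨g, fun i => ?_, fun i => ?_, fun i j hij => ?_⟩
    · induction i using Fin.lastCases with
      | last =>
        rw [hg1]
        exact ⟨1, 0, by simp, fun z => by ring⟩
      | cast i =>
        rw [hg2]
        exact motion_rigid45 _ _ _ _
    · induction i using Fin.lastCases with
      | last =>
        rw [him2]
        exact (hb _).trans (closedBall_subset_closedBall (by linarith))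
      | cast i =>
        rw [him1]
        exact rot_sub45 (hpl i).sub
    · induction i using Fin.lastCases with
      | last =>
        induction j using Fin.lastCases with
        | last => exact absurd rfl hij
        | cast j =>
          rw [him1, him2]
          exact (centre_disjoint45 hR (hpl j) (hb _)).symm
      | cast i =>
        induction j using Fin.lastCases with
        | last =>
          rw [him1, him2]
          exact centre_disjoint45 hR (hpl i) (hb _)
        | cast j =>
          rw [him1, him1]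
          exact hdis i j fun h => hij (by rw [h])

end Pool.Agent.Helper79.MI
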