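import Pool.Agent.Helper79.MI.Interval
import Pool.Agent.Helper79.MI.PsiLe

/-!
# D5: the ring

`ψ i = psi (K i) (K (i+1)) ∈ [0, 2.11]`, `∑ ψ i ≤ 2π`. Choose `π' ∈ (2.11, π)` with `n π' > 2π` and `s ∈ [0,1)` with
`∑ (ψ i + s (π' - ψ i)) = 2π`; put `w i = ψ i + s (π' - ψ i) ∈ [ψ i, π)` and `α i = ∑_{j < i} w j`.
Consecutive bodies: `interior (K i)` and `interior (rot (w i) (K (i+1)))` are disjoint: if `w i > ψ i` there is
`w' < w i` with `K i`, `rot w' (K (i+1))` disjoint, use D1; if `w i = ψ i`, a common interior point would also be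
common for slightly larger angles, contradiction. This includes the pair `(n-1, 0)`, because `∑ w = 2π`.
Other pairs: `R - b ≤ ‖c i‖ ≤ R - a`, `|arg (c i)| < 0.3`. For consecutive bodies `‖c i - e (w i) c (i+1)‖ ≥ 2a`
(disjoint interiors and inner balls), so the centre angle `θ i = w i + arg c (i+1) - arg c i ∈ (-0.6, π + 0.6)` satisfies
`sin (θ i / 2) ≥ a/(R - a) =: sin (θ_min/2)` in absolute value, so `θ i ≥ θ_min` (`2 * 0.3 < θ_min`), and `∑ θ i = 2π`. For
non consecutive `i, j` the centre angle is in `[2 θ_min, 2π - 2 θ_min]`, so the distance of the centres is at least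
`2 (R - b) sin θ_min ≥ 2.7 > 2b` (`R = 2.7`: `θ_min = 1.02`; in general `2 (R-b) · 2 s √(1-s²)`, `s = a/(R-a)`).
-/

namespace Pool.Agent.Helper79.MI

open Pool.Agent.Helper16.Disk7 Pool.Agent.Helper57.CW MeasureTheory Metric Complex Set
open scoped ENNReal Pointwise

theorem ring_placed {n : ℕ} [NeZero n] (hn : 5 ≤ n) {R : ℝ} (hR : 2.7 ≤ R) (hR4 : R ≤ 4)
    (K : Fin n → Set ℂ) (c : Fin n → ℂ) (hK : ∀ i, Placed R 0.89 1.1 (K i) (c i))
    (h : ∑ i, psi (K i) (K (i + 1)) ≤ 2 * Real.pi) :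
    ∃ α : Fin n → ℝ, ∀ i j, i ≠ j →
      Disjoint (interior (rot (α i) (K i))) (interior (rot (α j) (K j))) := sorry

end Pool.Agent.Helper79.MI
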