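import Mathlib

/-!
# D4: the sum of the contact angles

`Θ = 2π/n`. Tangent line: `cos ψ ≤ cos Θ - sin Θ (ψ - Θ)` for `0 ≤ ψ ≤ 2.11`. With `δ = ψ - Θ` the difference is
`cos Θ (1 - cos δ) - sin Θ (δ - sin δ)`; for `δ ≤ 0` it is clearly nonnegative, for `δ ≥ 0` it is at least
`δ^2 / 24 * (cos Θ (12 - δ^2) - 4 δ sin Θ)`, and `δ ≤ 2.11 - Θ`. For `n ≥ 6` use `cos Θ ≥ 1/2`, `sin Θ ≤ Θ`; for `n = 5`
`cos Θ = (√5 - 1) / 4`. Sum over `i`: `n cos Θ ≤ ∑ cos ψ_i ≤ n cos Θ - sin Θ (∑ ψ_i - 2π)`.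
-/

namespace Pool.Agent.Helper79.MI

open MeasureTheory Metric Complex Set
open scoped ENNReal Pointwise

private lemma nonneg_of_deriv {f f' : ℝ → ℝ} (h0 : f 0 = 0) (hd : ∀ x, HasDerivAt f (f' x) x)
    (hn : ∀ x, 0 ≤ x → 0 ≤ f' x) {x : ℝ} (hx : 0 ≤ x) : 0 ≤ f x := by
  have h := Convex.mul_sub_le_image_sub_of_le_deriv (convex_Icc 0 x) (f := f) (C := 0)
    (fun y _ => (hd y).continuousAt.continuousWithinAt)
    (fun y _ => (hd y).differentiableAt.differentiableWithinAt)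
    (fun y hy => by rw [(hd y).deriv]; exact hn y (interior_subset hy).1) 0 (left_mem_Icc.2 hx) x
    (right_mem_Icc.2 hx) hx
  rw [h0] at h
  linarith

private lemma sin_ge {x : ℝ} (hx : 0 ≤ x) : x - x ^ 3 / 6 ≤ Real.sin x := by
  have h := nonneg_of_deriv (f := fun x => Real.sin x - (x - x ^ 3 / 6))
    (f' := fun x => Real.cos x - (1 - x ^ 2 / 2)) (by simp) (fun x => by
      have h1 : HasDerivAt (fun x : ℝ => x - x ^ 3 / 6) (1 - (3 : ℕ) * x ^ (3 - 1) / 6) x :=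
        (hasDerivAt_id x).sub ((hasDerivAt_pow 3 x).div_const 6)
      refine ((Real.hasDerivAt_sin x).sub h1).congr_deriv ?_
      norm_num
      ring) (fun x _ => by
      have := Real.one_sub_sq_div_two_le_cos (x := x)
      linarith) hx
  linarith

private lemma cos_le {x : ℝ} (hx : 0 ≤ x) : Real.cos x ≤ 1 - x ^ 2 / 2 + x ^ 4 / 24 := by
  have h := nonneg_of_deriv (f := fun x => (1 - x ^ 2 / 2 + x ^ 4 / 24) - Real.cos x)
    (f' := fun x => Real.sin x - (x - x ^ 3 / 6)) (by simp) (fun x => by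
      have h1 : HasDerivAt (fun x : ℝ => 1 - x ^ 2 / 2 + x ^ 4 / 24)
          (0 - (2 : ℕ) * x ^ (2 - 1) / 2 + (4 : ℕ) * x ^ (4 - 1) / 24) x :=
        ((hasDerivAt_const x (1 : ℝ)).sub ((hasDerivAt_pow 2 x).div_const 2)).add
          ((hasDerivAt_pow 4 x).div_const 24)
      refine (h1.sub (Real.hasDerivAt_cos x)).congr_deriv ?_
      norm_num
      ring) (fun x hx => by
      have := sin_ge hx
      linarith) hx
  linarith

private lemma tangent {Θ ψ : ℝ} (hΘ : 0 ≤ Θ) (hc : 0 ≤ Real.cos Θ) (hs : 0 ≤ Real.sin Θ)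
    (hψ : ψ ≤ 2.11) (hg : Θ ≤ 2.11 →
      4 * (2.11 - Θ) * Real.sin Θ ≤ Real.cos Θ * (12 - (2.11 - Θ) ^ 2)) :
    Real.cos ψ ≤ Real.cos Θ - Real.sin Θ * (ψ - Θ) := by
  obtain ⟨δ, hδ⟩ : ∃ δ, δ = ψ - Θ := ⟨_, rfl⟩
  have e : ψ = Θ + δ := by rw [hδ]; ring
  rw [e, Real.cos_add, add_sub_cancel_left]
  suffices h : 0 ≤ Real.cos Θ * (1 - Real.cos δ) - Real.sin Θ * (δ - Real.sin δ) by linarith
  rcases le_total δ 0 with h | h
  · have h1 : δ ≤ Real.sin δ := by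
      have := Real.sin_le (neg_nonneg.2 h)
      rw [Real.sin_neg] at this
      linarith
    have h2 := Real.cos_le_one δ
    have h3 := mul_nonneg hc (sub_nonneg.2 h2)
    have h4 := mul_nonneg hs (sub_nonneg.2 h1)
    linarith
  · have hu : δ ≤ 2.11 - Θ := by linarith
    have h1 := mul_le_mul_of_nonneg_left (cos_le h) hc
    have h2 := mul_le_mul_of_nonneg_left (sin_ge h) hs
    have h3 := hg (by linarith)
    have h4 : 4 * δ * Real.sin Θ ≤ 4 * (2.11 - Θ) * Real.sin Θ :=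
      mul_le_mul_of_nonneg_right (by linarith) hs
    have h5 : Real.cos Θ * (12 - (2.11 - Θ) ^ 2) ≤ Real.cos Θ * (12 - δ ^ 2) :=
      mul_le_mul_of_nonneg_left (by nlinarith) hc
    have h6 : 0 ≤ δ ^ 2 / 24 * (Real.cos Θ * (12 - δ ^ 2) - 4 * δ * Real.sin Θ) :=
      mul_nonneg (by positivity) (by linarith)
    nlinarith

theorem sum_psi_le {n : ℕ} (hn : 5 ≤ n) (ψ : Fin n → ℝ) (h0 : ∀ i, 0 ≤ ψ i)
    (h2 : ∀ i, ψ i ≤ 2.11)
    (h : n * Real.cos (2 * Real.pi / n) ≤ ∑ i, Real.cos (ψ i)) : ∑ i, ψ i ≤ 2 * Real.pi := by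
  have hpi := Real.pi_pos
  have hpi3 := Real.pi_gt_d4
  have hpi4 := Real.pi_lt_d4
  have hn5 : (5 : ℝ) ≤ n := by exact_mod_cast hn
  have hn0 : (0 : ℝ) < n := by linarith
  obtain ⟨Θ, hΘ⟩ : ∃ Θ, Θ = 2 * Real.pi / n := ⟨_, rfl⟩
  have hΘn : n * Θ = 2 * Real.pi := by
    rw [hΘ]
    field_simp
  have hΘ0 : 0 < Θ := by
    rw [hΘ]
    positivity
  have hΘ5 : Θ ≤ 2 * Real.pi / 5 := by
    rw [hΘ]
    exact div_le_div_of_nonneg_left (by positivity) (by norm_num) hn5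
  have hs : 0 < Real.sin Θ := Real.sin_pos_of_pos_of_lt_pi hΘ0 (by linarith)
  have hc : 0 ≤ Real.cos Θ := Real.cos_nonneg_of_neg_pi_div_two_le_of_le (by linarith) (by linarith)
  have hg : 4 * (2.11 - Θ) * Real.sin Θ ≤ Real.cos Θ * (12 - (2.11 - Θ) ^ 2) := by
    rcases Nat.eq_or_lt_of_le hn with h5 | h6
    · have e5 : Θ = 2 * Real.pi / 5 := by
        rw [hΘ, ← h5]
        norm_num
      have c5 : Real.cos Θ = (√5 - 1) / 4 := by
        have : Θ = 2 * (Real.pi / 5) := by rw [e5]; ring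
        rw [this, Real.cos_two_mul, Real.cos_pi_div_five]
        have h55 : √5 * √5 = (5 : ℝ) := Real.mul_self_sqrt (by norm_num)
        nlinarith
      have hs5 : (2.236 : ℝ) ≤ √5 := by
        apply Real.le_sqrt_of_sq_le
        norm_num
      have hc1 : 0.309 ≤ Real.cos Θ := by
        rw [c5]
        linarith
      have hs1 : Real.sin Θ ≤ 0.9511 := by
        have := Real.sin_sq_add_cos_sq Θ
        nlinarith
      have hΘl : 1.2566 ≤ Θ := by
        rw [e5]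
        linarith
      have hΘu : Θ ≤ 1.2567 := by
        rw [e5]
        linarith
      have a1 : 4 * (2.11 - Θ) * Real.sin Θ ≤ 4 * 0.8534 * 0.9511 := by
        have b1 : 4 * (2.11 - Θ) ≤ 4 * 0.8534 := by linarith
        have b2 : 0 ≤ 4 * (2.11 - Θ) := by linarith
        exact mul_le_mul b1 hs1 hs.le (by norm_num)
      have a2 : 0.309 * (12 - 0.8534 ^ 2) ≤ Real.cos Θ * (12 - (2.11 - Θ) ^ 2) := by
        have b3 : (12 : ℝ) - 0.8534 ^ 2 ≤ 12 - (2.11 - Θ) ^ 2 := by nlinarith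
        exact mul_le_mul hc1 b3 (by norm_num) hc
      have a3 : (4 : ℝ) * 0.8534 * 0.9511 ≤ 0.309 * (12 - 0.8534 ^ 2) := by norm_num
      linarith
    · have hn6 : (6 : ℝ) ≤ n := by exact_mod_cast h6
      have hΘ6 : Θ ≤ Real.pi / 3 := by
        rw [hΘ, div_le_iff₀ hn0]
        nlinarith
      have hc6 : 1 / 2 ≤ Real.cos Θ := by
        rw [← Real.cos_pi_div_three]
        exact Real.cos_le_cos_of_nonneg_of_le_pi hΘ0.le (by linarith) hΘ6
      have hs6 : Real.sin Θ ≤ Θ := Real.sin_le hΘ0.le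
      have b1 : 4 * (2.11 - Θ) * Real.sin Θ ≤ 4 * (2.11 - Θ) * Θ :=
        mul_le_mul_of_nonneg_left hs6 (by linarith)
      have b2 : 1 / 2 * (12 - (2.11 - Θ) ^ 2) ≤ Real.cos Θ * (12 - (2.11 - Θ) ^ 2) :=
        mul_le_mul_of_nonneg_right hc6 (by nlinarith)
      nlinarith [sq_nonneg (2.11 - Θ - 8.44 / 7)]
  have ht : ∀ i, Real.cos (ψ i) ≤ Real.cos Θ - Real.sin Θ * (ψ i - Θ) := fun i =>
    tangent hΘ0.le hc hs.le (h2 i) (fun _ => hg)
  have hsum : ∑ i, Real.cos (ψ i) ≤ ∑ i : Fin n, (Real.cos Θ - Real.sin Θ * (ψ i - Θ)) :=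
    Finset.sum_le_sum fun i _ => ht i
  rw [Finset.sum_sub_distrib, ← Finset.mul_sum, Finset.sum_sub_distrib, Finset.sum_const,
    Finset.sum_const, Finset.card_univ, Fintype.card_fin, nsmul_eq_mul, nsmul_eq_mul, hΘn] at hsum
  rw [← hΘ] at h
  have h7 : Real.sin Θ * (∑ i, ψ i - 2 * Real.pi) ≤ 0 := by linarith
  by_contra hcon
  push Not at hcon
  have := mul_pos hs (sub_pos.2 hcon)
  linarith

end Pool.Agent.Helper79.MI
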