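import Pool.Agent.Helper79.MI.GoodStates
import Pool.Agent.Helper79.MI.SumPsi
import Pool.Agent.Helper79.MI.RingPlaced
import Pool.Agent.Helper79.MI.PlacedPl

/-!
# E5: the ring of polygons

`d = 1/sin(π/n)`, `1 - 2/d² = cos (2π/n)`, `2 - 2/d² = 1 + cos(2π/n)`. C1 (with E4), C3, D2 give
`n (1 + cos (2π/n)) ≤ ∑ (1 + cos ψ i)`; D3, D4, D5.
-/

namespace Pool.Agent.Helper79.MI

open Pool.Agent.Helper16.Disk7 Pool.Agent.Helper57.CW MeasureTheory Metric Complex Set
open scoped ENNReal Pointwise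

/-- `d = 1 / sin (π / n)`. -/
lemma d_facts {n : ℕ} (h5 : 5 ≤ n) :
    0 < 1 / Real.sin (Real.pi / n) ∧ 2 ≤ (1 / Real.sin (Real.pi / n)) ^ 2 ∧
      1 - 2 / (1 / Real.sin (Real.pi / n)) ^ 2 = Real.cos (2 * Real.pi / n) := by
  have hn : (5 : ℝ) ≤ n := by exact_mod_cast h5
  have hπ := Real.pi_pos
  have hpos : 0 < Real.pi / n := by positivity
  have hle : Real.pi / n ≤ Real.pi / 4 := by
    apply div_le_div_of_nonneg_left hπ.le (by norm_num) (by linarith)
  have hs : 0 < Real.sin (Real.pi / n) :=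
    Real.sin_pos_of_pos_of_lt_pi hpos (by linarith)
  have hs2 : Real.sin (Real.pi / n) ≤ Real.sin (Real.pi / 4) :=
    Real.sin_le_sin_of_le_of_le_pi_div_two (by linarith) (by linarith) hle
  have hs3 : Real.sin (Real.pi / n) ^ 2 ≤ 1 / 2 := by
    calc Real.sin (Real.pi / n) ^ 2 ≤ Real.sin (Real.pi / 4) ^ 2 :=
          pow_le_pow_left₀ hs.le hs2 2
      _ = 1 / 2 := by
          rw [Real.sin_pi_div_four, div_pow, Real.sq_sqrt (by norm_num)]; norm_num
  refine ⟨by positivity, ?_, ?_⟩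
  · rw [div_pow, one_pow, le_div_iff₀ (by positivity)]
    linarith
  · rw [div_pow, one_pow, div_div_eq_mul_div, div_one]
    have h1 : 2 * Real.pi / (n : ℝ) = 2 * (Real.pi / n) := by ring
    rw [h1, Real.cos_two_mul']
    have h2 := Real.sin_sq_add_cos_sq (Real.pi / n)
    linarith

theorem ring_polygons {n : ℕ} (h5 : 5 ≤ n) (h8 : n ≤ 8) (V : Fin n → Finset ℂ)
    (ha : ∀ i, closedBall 0 0.89 ⊆ hull (V i)) (hb : ∀ i, hull (V i) ⊆ closedBall 0 1.1)
    (hp : ∀ i, perimeter (hull (V i)) ≤ 2 * Real.pi) :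
    ∃ (x : Fin n → ℂ) (v α : Fin n → ℝ), (∀ i, x i ∈ V i ∧
      v i ∈ st (V i) (1 + 1 / Real.sin (Real.pi / n)) (x i)) ∧
      ∀ i j, i ≠ j →
        Disjoint (interior (rot (α i) (pl (V i) (1 + 1 / Real.sin (Real.pi / n)) (x i) (v i))))
          (interior (rot (α j) (pl (V j) (1 + 1 / Real.sin (Real.pi / n)) (x j) (v j)))) := by
  have : NeZero n := ⟨by omega⟩
  obtain ⟨hd0, hd, hcos⟩ := d_facts h5
  set d : ℝ := 1 / Real.sin (Real.pi / n) with hddef
  have hn : (5 : ℝ) ≤ n := by exact_mod_cast h5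
  have hn8 : (n : ℝ) ≤ 8 := by exact_mod_cast h8
  have hπ := Real.pi_pos
  have hs : 0 < Real.sin (Real.pi / n) := by
    refine Real.sin_pos_of_pos_of_lt_pi (by positivity) ?_
    rw [div_lt_iff₀ (by linarith)]
    nlinarith
  -- bounds for `R`
  have hR1 : (2.7 : ℝ) ≤ 1 + d := by
    have h1 : Real.sin (Real.pi / n) ≤ Real.sin (Real.pi / 5) := by
      refine Real.sin_le_sin_of_le_of_le_pi_div_two (by
        have : 0 ≤ Real.pi / n := by positivity
        linarith) (by linarith) ?_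
      exact div_le_div_of_nonneg_left hπ.le (by norm_num) hn
    have h2 : Real.sin (Real.pi / 5) ≤ 1 / 1.7 := by
      have h3 := Real.cos_pi_div_five
      have h4 := Real.sin_sq_add_cos_sq (Real.pi / 5)
      have h5' : (2.236 : ℝ) ≤ √5 := by
        rw [show (2.236 : ℝ) = √(2.236 ^ 2) by rw [Real.sqrt_sq (by norm_num)]]
        exact Real.sqrt_le_sqrt (by norm_num)
      have h6 : (0.809 : ℝ) ≤ Real.cos (Real.pi / 5) := by rw [h3]; linarith
      have h7 : Real.sin (Real.pi / 5) ^ 2 ≤ (1 / 1.7) ^ 2 := by nlinarith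
      exact (pow_le_pow_iff_left₀ (Real.sin_nonneg_of_nonneg_of_le_pi (by positivity)
        (by linarith)) (by norm_num) two_ne_zero).1 h7
    have h3 : (1.7 : ℝ) ≤ d := by
      rw [hddef, le_div_iff₀ hs]
      nlinarith [h1.trans h2]
    linarith
  have hR4 : 1 + d ≤ 4 := by
    have h1 : Real.sin (Real.pi / 8) ≤ Real.sin (Real.pi / n) := by
      refine Real.sin_le_sin_of_le_of_le_pi_div_two (by linarith) ?_ ?_
      · rw [div_le_div_iff₀ (by linarith) (by norm_num)]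
        nlinarith
      · exact div_le_div_of_nonneg_left hπ.le (by linarith) hn8
    have h2 : (1 / 3 : ℝ) ≤ Real.sin (Real.pi / 8) := by
      have h3 : Real.pi / 8 - (Real.pi / 8) ^ 3 / 6 < Real.sin (Real.pi / 8) :=
        Real.sin_gt_sub_cube (by positivity)
      have h4 := Real.pi_gt_three
      have h5' := Real.pi_lt_d2
      nlinarith [sq_nonneg Real.pi, mul_pos hπ hπ]
    have h3 : d ≤ 3 := by
      rw [hddef, div_le_iff₀ hs]
      linarith
    linarith
  have h0 : ∀ i, (0 : ℂ) ∈ interior (hull (V i)) := fun i =>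
    mem_interior.2 ⟨ball 0 0.89, ball_subset_closedBall.trans (ha i), isOpen_ball, by simp; norm_num⟩
  have hVR : ∀ i, ∀ x ∈ V i, ‖x‖ ≤ 1.1 := fun i x hx => by
    have := hb i (subset_convexHull ℝ _ hx)
    simpa using this
  have hVn : ∀ i, (V i).Nonempty := by
    intro i
    rw [Finset.nonempty_iff_ne_empty]
    intro hcon
    have := h0 i
    rw [hcon] at this
    simp [hull] at this
  obtain ⟨x, v, hxv, hsum⟩ := good_states (by omega : 2 ≤ n) (R := 1 + d) rfl hd hd0 V h0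
    (fun i x hx => lt_of_le_of_lt (hVR i x hx) (by linarith)) hp (fun i γ τ hdis =>
      no_containment (a := 0.89) (b := 1.1) (by norm_num) (by norm_num) (by linarith) (hVn i)
        (hVn (i + 1)) (ha i) (hb i) (ha (i + 1)) (hb (i + 1)) γ τ hdis)
  have hpl : ∀ i, Placed (1 + d) 0.89 1.1 (pl (V i) (1 + d) (x i) (v i))
      (e (-v i) * (0 - (x i - (1 + d : ℝ) * e (v i)))) := fun i =>
    placed_pl (by linarith) (ha i) (hb i) (hxv i).1 (hxv i).2
  have hψ := fun i => psi_le hR1 hR4 (hpl i) (hpl (i + 1))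
  have hsum2 := sum_psi_le h5 (fun i => psi (pl (V i) (1 + d) (x i) (v i))
    (pl (V (i + 1)) (1 + d) (x (i + 1)) (v (i + 1)))) (fun i => (gain_le _ _ _ _ _ _ _).2.1) hψ
    (by rw [← hcos]; exact hsum)
  obtain ⟨α, hα⟩ := ring_placed h5 hR1 hR4 (fun i => pl (V i) (1 + d) (x i) (v i)) _ hpl hsum2
  exact ⟨x, v, α, hxv, hα⟩

end Pool.Agent.Helper79.MI
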